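import Mathlib

/-! Definitions for the problem on the strong Nikodym property of minimally generated
Boolean algebras. -/

namespace Pool.Agent.Helper71.Nik

open scoped Ordinal

/-- `‖μ‖ ≤ C`: the sum of `|μ a|` over the members `a` of any finite partition of the unit is
at most `C`. -/
def NormLE {A : Type*} [BooleanAlgebra A] (μ : A → ℝ) (C : ℝ) : Prop :=
  ∀ P : Finset A, (P : Set A).PairwiseDisjoint id → P.sup id = ⊤ → ∑ a ∈ P, |μ a| ≤ C

/-- A measure: a finitely additive real function of bounded variation. -/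
def IsMeasure {A : Type*} [BooleanAlgebra A] (μ : A → ℝ) : Prop :=
  (∀ a b : A, Disjoint a b → μ (a ⊔ b) = μ a + μ b) ∧ ∃ C : ℝ, NormLE μ C

/-- Every sequence of measures on `A` that is pointwise bounded on `S` is bounded in norm. -/
def NikodymOn {A : Type*} [BooleanAlgebra A] (S : Set A) : Prop :=
  ∀ μ : ℕ → A → ℝ, (∀ n, IsMeasure (μ n)) → (∀ a ∈ S, ∃ C : ℝ, ∀ n, |μ n a| ≤ C) →
    ∃ C : ℝ, ∀ n, NormLE (μ n) C

/-- The Nikodym property. -/
def Nikodym (A : Type*) [BooleanAlgebra A] : Prop := NikodymOn (Set.univ : Set A)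

/-- The strong Nikodym property. -/
def StrongNikodym (A : Type*) [BooleanAlgebra A] : Prop :=
  ∀ S : ℕ → Set A, Monotone S → (⋃ n, S n) = Set.univ → ∃ n₀, NikodymOn (S n₀)

/-- Minimally generated Boolean algebras. (`𝒜 α ⋖ 𝒜 (α + 1)` says that `𝒜 (α + 1)` is a minimal
extension of `𝒜 α`; `⊥` is the subalgebra `{0, 1}`.) -/
def MinimallyGenerated (A : Type) [BooleanAlgebra A] : Prop :=
  ∃ (δ : Ordinal.{0}) (𝒜 : Ordinal.{0} → BooleanSubalgebra A),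
    0 < δ ∧ 𝒜 0 = ⊥ ∧ (∀ α β, α ≤ β → β < δ → 𝒜 α ≤ 𝒜 β) ∧
    (∀ l < δ, Order.IsSuccLimit l → ∀ a, a ∈ 𝒜 l ↔ ∃ α < l, a ∈ 𝒜 α) ∧
    (∀ α, α + 1 < δ → 𝒜 α ⋖ 𝒜 (α + 1)) ∧
    ∀ a, ∃ α < δ, a ∈ 𝒜 α

/-- `C` is a closed unbounded subset of `ω₁`. -/
def IsClub (C : Set Ordinal.{0}) : Prop :=
  (∀ α ∈ C, α < ω₁) ∧ (∀ α < ω₁, ∃ β ∈ C, α < β) ∧
    ∀ α < ω₁, α ≠ 0 → (∀ β < α, ∃ γ ∈ C, β < γ ∧ γ < α) → α ∈ C

/-- Jensen's diamond principle `♢` (for `ω₁`): there are sets `S α` (`α < ω₁`) such that for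
every set `T` (of countable ordinals) every closed unbounded subset of `ω₁` has a member `α`
with `T ∩ α = S α`. -/
def Diamond : Prop :=
  ∃ S : Ordinal.{0} → Set Ordinal.{0}, ∀ T C : Set Ordinal.{0}, IsClub C →
    ∃ α ∈ C, T ∩ Set.Iio α = S α

end Pool.Agent.Helper71.Nik
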