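import Pool.Agent.Helper71.Nik.Meas
import Pool.Agent.Helper71.Nik.Defs

/-! Simple (= minimal or trivial) one-element extensions of fields of sets, and a criterion for
minimal generation. -/

namespace Pool.Agent.Helper71.Nik

open BooleanSubalgebra (closure)
open Set

variable {X : Type}

/-- `a` generates a minimal or trivial extension of `𝒜` -/
def Simple (𝒜 : BooleanSubalgebra (Set X)) (a : Set X) : Prop := ∀ b ∈ 𝒜, a ∩ b ∈ 𝒜 ∨ a \ b ∈ 𝒜

/-- the algebra generated by `𝒜` and `a` -/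
def adj (𝒜 : BooleanSubalgebra (Set X)) (a : Set X) : BooleanSubalgebra (Set X) where
  carrier := {x | ∃ b ∈ 𝒜, ∃ c ∈ 𝒜, x = (b ∩ a) ∪ (c \ a)}
  bot_mem' := ⟨∅, empty_mem, ∅, empty_mem, by ext x; simp⟩
  compl_mem' := by
    rintro _ ⟨b, hb, c, hc, rfl⟩
    refine ⟨bᶜ, compl_mem hb, cᶜ, compl_mem hc, ?_⟩
    ext x
    simp only [mem_compl_iff, mem_union, mem_inter_iff, mem_sdiff]
    tauto
  supClosed' := by
    rintro _ ⟨b, hb, c, hc, rfl⟩ _ ⟨b', hb', c', hc', rfl⟩
    refine ⟨b ∪ b', union_mem hb hb', c ∪ c', union_mem hc hc', ?_⟩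
    ext x
    simp only [Set.sup_eq_union, mem_union, mem_inter_iff, mem_sdiff]
    tauto
  infClosed' := by
    rintro _ ⟨b, hb, c, hc, rfl⟩ _ ⟨b', hb', c', hc', rfl⟩
    refine ⟨b ∩ b', inter_mem hb hb', c ∩ c', inter_mem hc hc', ?_⟩
    ext x
    simp only [Set.inf_eq_inter, mem_union, mem_inter_iff, mem_sdiff]
    tauto

variable {𝒜 ℬ : BooleanSubalgebra (Set X)} {a b : Set X}

lemma mem_adj {x : Set X} : x ∈ adj 𝒜 a ↔ ∃ b ∈ 𝒜, ∃ c ∈ 𝒜, x = (b ∩ a) ∪ (c \ a) := Iff.rfl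

lemma le_adj : 𝒜 ≤ adj 𝒜 a := fun b hb => ⟨b, hb, b, hb, by ext x; simp⟩

lemma self_mem_adj : a ∈ adj 𝒜 a := ⟨univ, univ_mem, ∅, empty_mem, by ext x; simp⟩

lemma adj_le (h : 𝒜 ≤ ℬ) (ha : a ∈ ℬ) : adj 𝒜 a ≤ ℬ := by
  rintro x ⟨b, hb, c, hc, rfl⟩
  exact union_mem (inter_mem (h hb) ha) (diff_mem (h hc) ha)

lemma adj_eq_closure {s : Set (Set X)} : adj (closure s) a = closure (insert a s) := by
  apply le_antisymm
  · apply adj_le (BooleanSubalgebra.closure_mono (subset_insert _ _))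
    exact BooleanSubalgebra.subset_closure (mem_insert _ _)
  · rw [BooleanSubalgebra.closure_le]
    rintro x (rfl | hx)
    · exact self_mem_adj
    · exact le_adj (BooleanSubalgebra.subset_closure hx)

lemma mem_of_simple (h : Simple 𝒜 a) (h1 : 𝒜 ≤ ℬ) {x : Set X} (hx : x ∈ adj 𝒜 a) (hxB : x ∈ ℬ)
    (hxA : x ∉ 𝒜) : a ∈ ℬ := by
  obtain ⟨b, hb, c, hc, rfl⟩ := hx
  set x := (b ∩ a) ∪ (c \ a) with hxdef
  rcases h (b \ c) (diff_mem hb hc) with h2 | h2
  · rcases h (c \ b) (diff_mem hc hb) with h3 | h3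
    · exfalso
      apply hxA
      have : x = ((b ∩ c) ∪ (a ∩ (b \ c))) ∪ ((c \ b) \ (a ∩ (c \ b))) := by
        ext y
        simp only [hxdef, mem_union, mem_inter_iff, mem_sdiff]
        tauto
      rw [this]
      exact union_mem (union_mem (inter_mem hb hc) h2) (diff_mem (diff_mem hc hb) h3)
    · have : a = ((c \ b) \ x) ∪ (a \ (c \ b)) := by
        ext y
        simp only [hxdef, mem_union, mem_inter_iff, mem_sdiff]
        tauto
      rw [this]
      exact union_mem (diff_mem (h1 (diff_mem hc hb)) hxB) (h1 h3)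
  · have : a = (x ∩ (b \ c)) ∪ (a \ (b \ c)) := by
      ext y
      simp only [hxdef, mem_union, mem_inter_iff, mem_sdiff]
      tauto
    rw [this]
    exact union_mem (inter_mem hxB (h1 (diff_mem hb hc))) (h1 h2)

lemma covBy_adj (h : Simple 𝒜 a) (ha : a ∉ 𝒜) : 𝒜 ⋖ adj 𝒜 a := by
  refine ⟨lt_of_le_of_ne le_adj (fun h' => ha (h' ▸ self_mem_adj)), ?_⟩
  intro ℬ h1 h2
  obtain ⟨x, hxB, hxA⟩ := SetLike.exists_of_lt h1
  have : a ∈ ℬ := mem_of_simple h h1.le (h2.le hxB) hxB hxA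
  exact absurd (adj_le h1.le this) (not_le_of_gt h2)

lemma comap_covBy {𝒞 𝒞' : BooleanSubalgebra (Set X)} (h : 𝒞 ⋖ 𝒞') (h1 : 𝒞' ≤ 𝒜) :
    𝒞.comap 𝒜.subtype ⋖ 𝒞'.comap 𝒜.subtype := by
  constructor
  · refine lt_of_le_of_ne (BooleanSubalgebra.comap_mono h.1.le) ?_
    intro he
    obtain ⟨x, hx, hx'⟩ := SetLike.exists_of_lt h.1
    apply hx'
    have : (⟨x, h1 hx⟩ : 𝒜) ∈ 𝒞'.comap 𝒜.subtype := hx
    rw [← he] at this
    exact this
  · intro D hD1 hD2
    have hle1 : 𝒞 ≤ D.map 𝒜.subtype := by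
      intro x hx
      exact ⟨⟨x, h1 (h.1.le hx)⟩, hD1.le (show _ ∈ 𝒞.comap 𝒜.subtype from hx), rfl⟩
    have hle2 : D.map 𝒜.subtype ≤ 𝒞' := by
      rintro _ ⟨x, hx, rfl⟩
      exact hD2.le hx
    obtain ⟨x, hx, hx'⟩ := SetLike.exists_of_lt hD1
    obtain ⟨y, hy, hy'⟩ := SetLike.exists_of_lt hD2
    apply h.2 (c := D.map 𝒜.subtype)
    · refine lt_of_le_of_ne hle1 ?_
      intro he
      apply hx'
      have : (𝒜.subtype x) ∈ D.map 𝒜.subtype := ⟨x, hx, rfl⟩
      rw [← he] at this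
      exact this
    · refine lt_of_le_of_ne hle2 ?_
      intro he
      apply hy'
      have hy2 : (𝒜.subtype y) ∈ 𝒞' := hy
      rw [← he] at hy2
      obtain ⟨z, hz, hz'⟩ := hy2
      have : z = y := BooleanSubalgebra.subtype_injective _ hz'
      rwa [← this]

section MG

variable {I : Type} [LinearOrder I] [WellFoundedLT I]

open Classical in
theorem mg_of_family (𝒜 : BooleanSubalgebra (Set X)) (g : I → Set X)
    (hS : ∀ i, Simple (closure (g '' Iio i)) (g i)) (htop : closure (range g) = 𝒜) :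
    MinimallyGenerated 𝒜 := by
  set I' : Type := {i : I // g i ∉ closure (g '' Iio i)} with hI'
  set r : I' → I' → Prop := (· < ·) with hr
  have : IsWellOrder I' r := inferInstance
  set rk : I' → Ordinal.{0} := fun i => Ordinal.typein r i with hrk
  set 𝒞 : Ordinal.{0} → BooleanSubalgebra (Set X) := fun α => closure {x | ∃ j : I', rk j < α ∧ g j = x}
    with h𝒞
  -- only the nontrivial indices matter
  have key : ∀ i : I, closure (g '' Iio i) = closure {x | ∃ j : I', j.1 < i ∧ g j = x} := by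
    intro i
    induction i using WellFoundedLT.induction with
    | ind i ih =>
      apply le_antisymm
      · rw [BooleanSubalgebra.closure_le]
        rintro _ ⟨j, hj, rfl⟩
        by_cases hjI : g j ∉ closure (g '' Iio j)
        · exact BooleanSubalgebra.subset_closure ⟨⟨j, hjI⟩, hj, rfl⟩
        · push Not at hjI
          rw [ih j hj] at hjI
          refine BooleanSubalgebra.closure_mono ?_ hjI
          rintro x ⟨k, hk, rfl⟩
          exact ⟨k, lt_trans hk hj, rfl⟩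
      · apply BooleanSubalgebra.closure_mono
        rintro x ⟨k, hk, rfl⟩
        exact ⟨k, hk, rfl⟩
  have key2 : closure (range g) = closure {x | ∃ j : I', g j = x} := by
    apply le_antisymm
    · rw [BooleanSubalgebra.closure_le]
      rintro _ ⟨j, rfl⟩
      by_cases hjI : g j ∉ closure (g '' Iio j)
      · exact BooleanSubalgebra.subset_closure ⟨⟨j, hjI⟩, rfl⟩
      · push Not at hjI
        rw [key j] at hjI
        refine BooleanSubalgebra.closure_mono ?_ hjI
        rintro x ⟨k, hk, rfl⟩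
        exact ⟨k, rfl⟩
    · apply BooleanSubalgebra.closure_mono
      rintro x ⟨k, rfl⟩
      exact ⟨k, rfl⟩
  have hC : ∀ j : I', 𝒞 (rk j) = closure (g '' Iio j.1) := by
    intro j
    rw [key]
    simp only [h𝒞, hrk, Ordinal.typein_lt_typein]
    rfl
  have hC1 : ∀ j : I', 𝒞 (rk j + 1) = adj (𝒞 (rk j)) (g j) := by
    intro j
    simp only [h𝒞]
    rw [adj_eq_closure]
    congr 1
    ext x
    constructor
    · rintro ⟨k, hk, rfl⟩
      rcases (Order.lt_add_one_iff.1 hk).lt_or_eq with h | h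
      · exact Or.inr ⟨k, h, rfl⟩
      · left
        rw [(Ordinal.typein_inj r).1 h]
    · rintro (rfl | ⟨k, hk, rfl⟩)
      · exact ⟨j, Order.lt_add_one_iff.2 le_rfl, rfl⟩
      · exact ⟨k, hk.trans (Order.lt_add_one_iff.2 le_rfl), rfl⟩
  have hmono : ∀ α β, α ≤ β → 𝒞 α ≤ 𝒞 β := by
    intro α β h
    apply BooleanSubalgebra.closure_mono
    rintro x ⟨k, hk, rfl⟩
    exact ⟨k, hk.trans_le h, rfl⟩
  have hle : ∀ α, 𝒞 α ≤ 𝒜 := by
    intro α
    rw [← htop]
    apply BooleanSubalgebra.closure_mono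
    rintro x ⟨k, hk, rfl⟩
    exact ⟨k, rfl⟩
  have hlim : ∀ l, Order.IsSuccLimit l → ∀ x, x ∈ 𝒞 l ↔ ∃ α < l, x ∈ 𝒞 α := by
    intro l hl x
    constructor
    · intro hx
      induction hx using BooleanSubalgebra.closure_bot_sup_induction with
      | mem x hx =>
        obtain ⟨j, hj, rfl⟩ := hx
        exact ⟨rk j + 1, hl.add_one_lt hj, BooleanSubalgebra.subset_closure
          ⟨j, Order.lt_add_one_iff.2 le_rfl, rfl⟩⟩
      | bot => exact ⟨0, hl.bot_lt, BooleanSubalgebra.bot_mem⟩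
      | sup x _ y _ h1 h2 =>
        obtain ⟨α, hα, h1⟩ := h1
        obtain ⟨β, hβ, h2⟩ := h2
        exact ⟨max α β, max_lt hα hβ, union_mem (hmono _ _ (le_max_left _ _) h1)
          (hmono _ _ (le_max_right _ _) h2)⟩
      | compl x _ h1 =>
        obtain ⟨α, hα, h1⟩ := h1
        exact ⟨α, hα, compl_mem h1⟩
    · rintro ⟨α, hα, hx⟩
      exact hmono _ _ hα.le hx
  refine ⟨Ordinal.type r + 1, fun α => (𝒞 α).comap 𝒜.subtype, ?_, ?_, ?_, ?_, ?_, ?_⟩
  · exact lt_of_le_of_lt zero_le (Order.lt_add_one_iff.2 le_rfl)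
  · have h0 : 𝒞 0 = ⊥ := by
      rw [eq_bot_iff]
      simp only [h𝒞]
      rw [BooleanSubalgebra.closure_le]
      rintro x ⟨j, hj, rfl⟩
      exact absurd hj (not_lt_of_ge zero_le)
    show (𝒞 0).comap 𝒜.subtype = ⊥
    rw [h0]
    apply SetLike.ext
    intro x
    simp only [BooleanSubalgebra.mem_comap, BooleanSubalgebra.mem_bot]
    constructor
    · rintro (h | h)
      · left; exact Subtype.ext h
      · right; exact Subtype.ext h
    · rintro (h | h)
      · left; rw [h]; rfl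
      · right; rw [h]; rfl
  · intro α β h _
    exact BooleanSubalgebra.comap_mono (hmono α β h)
  · intro l _ hl x
    exact hlim l hl x.1
  · intro α hα
    have hα' : α < Ordinal.type r := by
      rw [Order.lt_add_one_iff, Order.add_one_le_iff] at hα
      exact hα
    obtain ⟨j, hj⟩ := Ordinal.typein_surj r hα'
    have hj' : rk j = α := hj
    apply comap_covBy _ (hle _)
    rw [← hj', hC1 j]
    apply covBy_adj
    · rw [hC]; exact hS j.1
    · rw [hC]; exact j.2
  · intro x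
    refine ⟨Ordinal.type r, Order.lt_add_one_iff.2 le_rfl, ?_⟩
    have : 𝒞 (Ordinal.type r) = 𝒜 := by
      rw [← htop, key2]
      simp only [h𝒞, hrk]
      congr 1
      ext x
      constructor
      · rintro ⟨j, _, h⟩; exact ⟨j, h⟩
      · rintro ⟨j, h⟩; exact ⟨j, Ordinal.typein_lt_type r j, h⟩
    show x.1 ∈ 𝒞 (Ordinal.type r)
    rw [this]
    exact x.2

end MG

end Pool.Agent.Helper71.Nik
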