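import Mathlib

/-! The Cantor group with its Haar measure and the (even) Rademacher functions. -/

namespace Pool.Agent.Helper71.Nik

open MeasureTheory Set
open scoped ENNReal

/-- the Cantor group -/
abbrev Ct : Type := ℕ → Bool

/-- the fair coin -/
noncomputable def coin : Measure Bool := (2 : ℝ≥0∞)⁻¹ • (Measure.dirac true + Measure.dirac false)

instance : IsProbabilityMeasure coin := ⟨by
  simp only [coin, Measure.smul_apply, Measure.add_apply, measure_univ, smul_eq_mul]
  rw [one_add_one_eq_two]
  exact ENNReal.inv_mul_cancel (by norm_num) (by norm_num)⟩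

lemma coin_singleton (b : Bool) : coin {b} = 2⁻¹ := by
  cases b <;> simp [coin]

lemma coin_map_xor (b : Bool) : coin.map (fun x => xor b x) = coin := by
  cases b
  · simp
  · have hm : Measurable (fun x : Bool => xor true x) := Measurable.of_discrete
    rw [coin, Measure.map_smul, Measure.map_add _ _ hm, Measure.map_dirac' hm, Measure.map_dirac' hm]
    simp only [Bool.true_xor, Bool.not_true, Bool.not_false]
    rw [add_comm]

/-- Haar measure -/
noncomputable def lam : Measure Ct := Measure.infinitePi (fun _ => coin)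

instance : IsProbabilityMeasure lam := by
  unfold lam; infer_instance

/-- translation -/
def tr (h y : Ct) : Ct := fun i => xor (h i) (y i)

lemma tr_tr (h y : Ct) : tr h (tr h y) = y := by
  funext i
  simp only [tr]
  cases h i <;> cases y i <;> rfl

lemma measurable_tr (h : Ct) : Measurable (tr h) := by
  unfold tr
  exact measurable_pi_lambda _ (fun i => (Measurable.of_discrete (f := fun x : Bool => xor (h i) x)).comp
    (measurable_pi_apply i))

/-- translation as a measurable equivalence -/
def trE (h : Ct) : Ct ≃ᵐ Ct where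
  toFun := tr h
  invFun := tr h
  left_inv := tr_tr h
  right_inv := tr_tr h
  measurable_toFun := measurable_tr h
  measurable_invFun := measurable_tr h

lemma mp_tr (h : Ct) : MeasurePreserving (trE h) lam lam := by
  refine ⟨measurable_tr h, ?_⟩
  have := Measure.infinitePi_map_pi (fun _ : ℕ => coin) (f := fun i x => xor (h i) x)
    (fun i => Measurable.of_discrete)
  have h2 : (trE h : Ct → Ct) = fun y i => xor (h i) (y i) := rfl
  rw [lam, h2, this]
  simp_rw [coin_map_xor]

lemma integral_tr {E : Type*} [NormedAddCommGroup E] [NormedSpace ℝ E] (h : Ct) (f : Ct → E) :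
    ∫ y, f (tr h y) ∂lam = ∫ y, f y ∂lam :=
  (mp_tr h).integral_comp' f

lemma integral_eq_zero_of_odd {E : Type*} [NormedAddCommGroup E] [NormedSpace ℝ E] (h : Ct)
    (f : Ct → E) (hf : ∀ y, f (tr h y) = - f y) : ∫ y, f y ∂lam = 0 := by
  have h1 := integral_tr h f
  simp_rw [hf] at h1
  rw [integral_neg] at h1
  have h2 : (2 : ℝ) • ∫ y, f y ∂lam = 0 := by
    rw [two_smul]
    nth_rewrite 1 [← h1]
    exact neg_add_cancel _
  exact (smul_eq_zero.1 h2).resolve_left (by norm_num)

/-- the indicator of a coordinate -/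
def single (j : ℕ) : Ct := fun i => decide (i = j)

/-- Rademacher functions on even coordinates -/
def rad (k : ℕ) (y : Ct) : ℝ := if y (2 * k) then 1 else -1

lemma rad_sq (k : ℕ) (y : Ct) : rad k y * rad k y = 1 := by
  unfold rad; split_ifs <;> norm_num

lemma rad_abs (k : ℕ) (y : Ct) : |rad k y| = 1 := by
  unfold rad; split_ifs <;> norm_num

lemma rad_tr_self (k : ℕ) (y : Ct) : rad k (tr (single (2 * k)) y) = - rad k y := by
  simp only [rad, tr, single]
  cases y (2 * k) <;> simp

lemma rad_tr_ne {k j : ℕ} (h : j ≠ 2 * k) (y : Ct) : rad k (tr (single j) y) = rad k y := by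
  have h1 : tr (single j) y (2 * k) = y (2 * k) := by
    simp only [tr, single]
    rw [decide_eq_false (fun h' => h h'.symm)]
    simp
  simp only [rad, h1]

/-- finite-level functions -/
def FL {E : Type*} (f : Ct → E) : Prop := ∃ M : ℕ, ∀ z z' : Ct, (∀ i < M, z i = z' i) → f z = f z'

section FL

variable {E E₁ E₂ E₃ : Type*}

lemma FL.const (c : E) : FL (fun _ : Ct => c) := ⟨0, fun _ _ _ => rfl⟩

lemma FL.coord (j : ℕ) : FL (fun y : Ct => y j) := ⟨j + 1, fun _ _ h => h j (Nat.lt_succ_self j)⟩

lemma FL.comp {f : Ct → E₁} (hf : FL f) (F : E₁ → E₂) : FL (fun y => F (f y)) := by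
  obtain ⟨M, hM⟩ := hf
  exact ⟨M, fun z z' h => congrArg F (hM z z' h)⟩

lemma FL.map₂ {f : Ct → E₁} {g : Ct → E₂} (hf : FL f) (hg : FL g) (F : E₁ → E₂ → E₃) :
    FL (fun y => F (f y) (g y)) := by
  obtain ⟨M, hM⟩ := hf
  obtain ⟨N, hN⟩ := hg
  refine ⟨max M N, fun z z' h => ?_⟩
  exact congrArg₂ F (hM z z' (fun i hi => h i (hi.trans_le (le_max_left _ _))))
    (hN z z' (fun i hi => h i (hi.trans_le (le_max_right _ _))))

lemma FL.pi {ι : Type*} [Finite ι] {f : ι → Ct → E} (hf : ∀ i, FL (f i)) :
    FL (fun y => fun i => f i y) := by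
  choose M hM using hf
  cases nonempty_fintype ι
  classical
  refine ⟨Finset.univ.sup M, fun z z' h => ?_⟩
  funext i
  exact hM i z z' (fun j hj => h j (hj.trans_le (Finset.le_sup (f := M) (Finset.mem_univ i))))

lemma FL.exists_factor [Nonempty E] {f : Ct → E} (hf : FL f) :
    ∃ (M : ℕ) (g : (Fin M → Bool) → E), f = fun y => g (fun i => y i) := by
  classical
  obtain ⟨M, hM⟩ := hf
  refine ⟨M, fun w => f (fun i => if h : i < M then w ⟨i, h⟩ else false), ?_⟩
  funext y
  apply hM
  intro i hi
  simp [hi]

lemma FL.measurable [Nonempty E] [MeasurableSpace E] {f : Ct → E} (hf : FL f) : Measurable f := by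
  obtain ⟨M, g, rfl⟩ := hf.exists_factor
  have : Measurable g := Measurable.of_discrete
  exact this.comp (measurable_pi_lambda _ (fun i => measurable_pi_apply _))

lemma FL.bounded [NormedAddCommGroup E] {f : Ct → E} (hf : FL f) : ∃ C : ℝ, ∀ y, ‖f y‖ ≤ C := by
  obtain ⟨M, g, rfl⟩ := hf.exists_factor
  refine ⟨∑ w, ‖g w‖, fun y => ?_⟩
  exact Finset.single_le_sum (f := fun w => ‖g w‖) (fun _ _ => norm_nonneg _) (Finset.mem_univ _)

lemma FL.integrable [NormedAddCommGroup E] [MeasurableSpace E] [BorelSpace E]
    [SecondCountableTopology E] {f : Ct → E} (hf : FL f) : Integrable f lam := by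
  obtain ⟨C, hC⟩ := hf.bounded
  exact Integrable.of_bound (hf.measurable.aestronglyMeasurable) C (Filter.Eventually.of_forall hC)

lemma FL.rad (k : ℕ) : FL (rad k) := (FL.coord (2 * k)).comp (fun b => if b then (1 : ℝ) else -1)

lemma measurable_rad (k : ℕ) : Measurable (Pool.Agent.Helper71.Nik.rad k) := (FL.rad k).measurable

lemma integrable_rad (k : ℕ) : Integrable (Pool.Agent.Helper71.Nik.rad k) lam := (FL.rad k).integrable

end FL

/-- Rademacher coefficients of a set -/
noncomputable def cf (k : ℕ) (A : Set Ct) : ℝ := ∫ y in A, rad k y ∂lam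

lemma cf_empty (k : ℕ) : cf k ∅ = 0 := by simp [cf]

lemma cf_eq {A : Set Ct} (hA : MeasurableSet A) (k : ℕ) :
    cf k A = ∫ y, A.indicator (fun _ => (1 : ℝ)) y * rad k y ∂lam := by
  rw [cf, ← integral_indicator hA]
  congr 1
  funext y
  by_cases h : y ∈ A <;> simp [h]

lemma cf_union {A B : Set Ct} (hB : MeasurableSet B) (hd : Disjoint A B) (k : ℕ) :
    cf k (A ∪ B) = cf k A + cf k B :=
  setIntegral_union hd hB (integrable_rad k).integrableOn (integrable_rad k).integrableOn

lemma cf_abs_le (A : Set Ct) (k : ℕ) : |cf k A| ≤ lam.real A := by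
  have := norm_setIntegral_le_of_norm_le_const (μ := lam) (s := A) (f := rad k) (C := 1)
    (measure_lt_top _ _) (fun y _ => by rw [Real.norm_eq_abs, rad_abs])
  rw [one_mul] at this
  exact this

lemma cf_eq_zero {A : Set Ct} (hA : MeasurableSet A) (k : ℕ)
    (h : ∀ y, tr (single (2 * k)) y ∈ A ↔ y ∈ A) : cf k A = 0 := by
  rw [cf_eq hA]
  apply integral_eq_zero_of_odd (single (2 * k))
  intro y
  rw [rad_tr_self]
  have : A.indicator (fun _ => (1 : ℝ)) (tr (single (2 * k)) y) = A.indicator (fun _ => (1 : ℝ)) y := by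
    by_cases hy : y ∈ A
    · rw [indicator_of_mem hy, indicator_of_mem ((h y).2 hy)]
    · rw [indicator_of_notMem hy, indicator_of_notMem (fun h' => hy ((h y).1 h'))]
  rw [this]
  ring

lemma cf_hasSum {A : ℕ → Set Ct} (hA : ∀ j, MeasurableSet (A j))
    (hd : Pairwise (Function.onFun Disjoint A)) (k : ℕ) : HasSum (fun j => cf k (A j)) (cf k (⋃ j, A j)) :=
  hasSum_integral_iUnion hA hd (integrable_rad k).integrableOn

/-- Bessel's inequality -/
lemma bessel {A : Set Ct} (hA : MeasurableSet A) (K : ℕ) :
    ∑ k ∈ Finset.range K, (cf k A) ^ 2 ≤ 1 := by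
  set I : Ct → ℝ := A.indicator (fun _ => (1 : ℝ)) with hI
  have hIm : Measurable I := measurable_const.indicator hA
  have hIb : ∀ y, |I y| ≤ 1 := by
    intro y
    by_cases h : y ∈ A <;> simp [hI, h]
  set S : ℕ → Ct → ℝ := fun K y => ∑ k ∈ Finset.range K, cf k A * rad k y with hS
  have hSFL : ∀ K, FL (S K) := by
    intro K
    induction K with
    | zero => simp only [hS, Finset.range_zero, Finset.sum_empty]; exact FL.const 0
    | succ K ih =>
      simp only [hS, Finset.sum_range_succ]
      exact FL.map₂ ih ((FL.rad K).comp (fun x => cf K A * x)) (fun a b => a + b)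
  have hint : ∀ {f : Ct → ℝ}, FL f → Integrable (fun y => (I y - f y) ^ 2) lam := by
    intro f hf
    obtain ⟨C, hC⟩ := hf.bounded
    refine Integrable.of_bound ((hIm.sub hf.measurable).pow_const 2).aestronglyMeasurable
      ((1 + C) ^ 2) (Filter.Eventually.of_forall fun y => ?_)
    rw [Real.norm_eq_abs, abs_pow]
    have h1 : |I y - f y| ≤ 1 + C := (abs_sub _ _).trans (add_le_add (hIb y) (hC y))
    exact pow_le_pow_left₀ (abs_nonneg _) h1 2
  have hint2 : ∀ k, Integrable (fun y => I y * rad k y) lam := by
    intro k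
    refine Integrable.of_bound (hIm.mul (measurable_rad k)).aestronglyMeasurable 1
      (Filter.Eventually.of_forall fun y => ?_)
    rw [Real.norm_eq_abs, abs_mul, rad_abs, mul_one]
    exact hIb y
  have key : ∀ K, ∫ y, (I y - S K y) ^ 2 ∂lam + ∑ k ∈ Finset.range K, (cf k A) ^ 2 ≤ 1 := by
    intro K
    induction K with
    | zero =>
      have : ∫ y, (I y - S 0 y) ^ 2 ∂lam ≤ ∫ _, (1 : ℝ) ∂lam := by
        apply integral_mono (hint (hSFL 0)) (integrable_const _)
        intro y
        simp only [hS, Finset.range_zero, Finset.sum_empty, sub_zero]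
        rw [← sq_abs]
        exact pow_le_one₀ (abs_nonneg _) (hIb y)
      simpa using this
    | succ K ih =>
      have e1 : ∀ y, (I y - S (K + 1) y) ^ 2
          = (I y - S K y) ^ 2 - 2 * cf K A * (I y * rad K y) + 2 * cf K A * (S K y * rad K y)
            + (cf K A) ^ 2 := by
        intro y
        have : S (K + 1) y = S K y + cf K A * rad K y := by
          simp only [hS, Finset.sum_range_succ]
        rw [this]
        have h2 := rad_sq K y
        have : (I y - (S K y + cf K A * rad K y)) ^ 2 = (I y - S K y) ^ 2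
            - 2 * cf K A * (I y * rad K y) + 2 * cf K A * (S K y * rad K y)
            + (cf K A) ^ 2 * (rad K y * rad K y) := by ring
        rw [this, h2, mul_one]
      have hSr : FL (fun y => S K y * rad K y) := FL.map₂ (hSFL K) (FL.rad K) (fun a b => a * b)
      have hz : ∫ y, S K y * rad K y ∂lam = 0 := by
        apply integral_eq_zero_of_odd (single (2 * K))
        intro y
        have : S K (tr (single (2 * K)) y) = S K y := by
          simp only [hS]
          apply Finset.sum_congr rfl
          intro k hk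
          rw [rad_tr_ne]
          have := Finset.mem_range.1 hk
          omega
        rw [this, rad_tr_self]
        ring
      have e2 : ∫ y, (I y - S (K + 1) y) ^ 2 ∂lam
          = ∫ y, (I y - S K y) ^ 2 ∂lam - 2 * cf K A * ∫ y, I y * rad K y ∂lam
            + 2 * cf K A * ∫ y, S K y * rad K y ∂lam + (cf K A) ^ 2 := by
        simp_rw [e1]
        rw [integral_add, integral_add, integral_sub, integral_const_mul, integral_const_mul]
        · simp
        · exact hint (hSFL K)
        · exact (hint2 K).const_mul _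
        · exact (hint (hSFL K)).sub ((hint2 K).const_mul _)
        · exact hSr.integrable.const_mul _
        · exact ((hint (hSFL K)).sub ((hint2 K).const_mul _)).add (hSr.integrable.const_mul _)
        · exact integrable_const _
      rw [e2, hz, ← cf_eq hA, Finset.sum_range_succ]
      nlinarith [ih]
  have h1 := key K
  have h2 : 0 ≤ ∫ y, (I y - S K y) ^ 2 ∂lam := integral_nonneg (fun y => sq_nonneg _)
  linarith

end Pool.Agent.Helper71.Nik
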