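import Pool.Agent.Helper71.Nik.Rec

/-! The diamond principle and the guessing sequence obtained from it. -/

namespace Pool.Agent.Helper71.Nik

open Set Ordinal
open scoped Ordinal Cardinal

/-- the index set -/
abbrev Om : Type := (ω₁ : Ordinal.{0}).ToType

/-- the rank of an index -/
noncomputable def rk (α : Om) : Ordinal.{0} := (Ordinal.ToType.toOrd α).1

lemma rk_lt (α : Om) : rk α < ω₁ := (Ordinal.ToType.toOrd α).2

lemma rk_lt_rk {α β : Om} : rk α < rk β ↔ α < β := by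
  unfold rk
  rw [Subtype.coe_lt_coe]
  exact (Ordinal.ToType.mk.symm).lt_iff_lt

lemma rk_le_rk {α β : Om} : rk α ≤ rk β ↔ α ≤ β := by
  rw [← not_lt, rk_lt_rk, not_lt]

lemma exists_rk {ξ : Ordinal.{0}} (h : ξ < ω₁) : ∃ α : Om, rk α = ξ :=
  ⟨Ordinal.ToType.mk ⟨ξ, h⟩, by simp [rk, Ordinal.ToType.toOrd]⟩

lemma succ_lt_omega_one {ξ : Ordinal.{0}} (h : ξ < ω₁) : ξ + 1 < ω₁ :=
  Ordinal.isPrincipal_add_omega 1 h (Ordinal.one_lt_omega0.trans Ordinal.omega0_lt_omega_one)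

instance : Nonempty Om := by
  obtain ⟨α, _⟩ := exists_rk (Ordinal.omega_pos 1)
  exact ⟨α⟩

instance : NoMaxOrder Om := ⟨fun α => by
  obtain ⟨β, hβ⟩ := exists_rk (succ_lt_omega_one (rk_lt α))
  refine ⟨β, rk_lt_rk.1 ?_⟩
  rw [hβ]
  exact Order.lt_add_one_iff.2 le_rfl⟩

lemma countable_Iio_om (α : Om) : (Iio α).Countable := by
  have h1 : (Iio (rk α)).Countable := by
    rw [← Cardinal.le_aleph0_iff_set_countable, Cardinal.mk_Iio_ordinal, Cardinal.lift_le_aleph0]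
    have h := Cardinal.lt_omega_iff_card_lt.1 (rk_lt α)
    rw [← Cardinal.succ_aleph0, Order.lt_succ_iff] at h
    exact h
  have h2 : Iio α ⊆ rk ⁻¹' (Iio (rk α)) := fun β hβ => rk_lt_rk.2 hβ
  refine (h1.preimage_of_injOn ?_).mono h2
  intro β _ γ _ h
  apply le_antisymm
  · exact rk_le_rk.1 h.le
  · exact rk_le_rk.1 h.ge

lemma cof_om (s : ℕ → Om) : ∃ α, ∀ n, s n < α := by
  have h1 : ⨆ n, rk (s n) < ω₁ := Ordinal.iSup_lt_omega_one (fun n => rk_lt (s n))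
  obtain ⟨α, hα⟩ := exists_rk (succ_lt_omega_one h1)
  refine ⟨α, fun n => rk_lt_rk.1 ?_⟩
  rw [hα, Order.lt_add_one_iff]
  exact Ordinal.le_iSup _ n

/-- an injection of double sequences of reals into sets of integers -/
lemma exists_code : ∃ ι : (ℕ → ℕ → ℝ) → Set ℕ, Function.Injective ι := by
  obtain ⟨q, hq⟩ := exists_surjective_nat ℚ
  refine ⟨fun x => {m | ((q m.unpair.2 : ℚ) : ℝ) < x m.unpair.1.unpair.1 m.unpair.1.unpair.2}, ?_⟩
  intro x y hxy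
  have key : ∀ n k (p : ℚ), (p : ℝ) < x n k ↔ (p : ℝ) < y n k := by
    intro n k p
    obtain ⟨j, rfl⟩ := hq p
    have h1 := Set.ext_iff.1 hxy (Nat.pair (Nat.pair n k) j)
    simpa using h1
  funext n k
  apply le_antisymm
  · by_contra h
    push Not at h
    obtain ⟨p, hp1, hp2⟩ := exists_rat_btwn h
    exact absurd ((key n k p).1 hp2) (not_lt_of_gt hp1)
  · by_contra h
    push Not at h
    obtain ⟨p, hp1, hp2⟩ := exists_rat_btwn h
    exact absurd ((key n k p).2 hp2) (not_lt_of_gt hp1)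

lemma mul_add_inj {a b : Ordinal.{0}} {m n : ℕ} (h : ω * a + m = ω * b + n) : a = b ∧ m = n := by
  have h1 : (ω * a + m) / ω = (ω * b + n) / ω := by rw [h]
  have h2 : (ω * a + m) % ω = (ω * b + n) % ω := by rw [h]
  rw [Ordinal.mul_add_div _ Ordinal.omega0_ne_zero, Ordinal.mul_add_div _ Ordinal.omega0_ne_zero,
    Ordinal.div_eq_zero_of_lt (Ordinal.natCast_lt_omega0 m),
    Ordinal.div_eq_zero_of_lt (Ordinal.natCast_lt_omega0 n), add_zero, add_zero] at h1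
  rw [Ordinal.mul_add_mod_self, Ordinal.mul_add_mod_self, Ordinal.mod_eq_of_lt (Ordinal.natCast_lt_omega0 m),
    Ordinal.mod_eq_of_lt (Ordinal.natCast_lt_omega0 n)] at h2
  exact ⟨h1, by exact_mod_cast h2⟩

/-- the club used for guessing -/
def clubSet (η : Ordinal.{0}) : Set Ordinal.{0} :=
  {ξ | ξ < ω₁ ∧ η ≤ ξ ∧ ξ ≠ 0 ∧ ∀ β < ξ, ω * (β + 1) < ξ}

lemma mul_lt_omega_one {β : Ordinal.{0}} (h : β < ω₁) : ω * (β + 1) < ω₁ :=
  Ordinal.isPrincipal_mul_omega 1 Ordinal.omega0_lt_omega_one (succ_lt_omega_one h)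

lemma isClub_clubSet {η : Ordinal.{0}} (hη : η < ω₁) : IsClub (clubSet η) := by
  refine ⟨fun α hα => hα.1, ?_, ?_⟩
  · intro α hα
    set s : ℕ → Ordinal.{0} := fun n => Nat.rec (max (α + 1) η) (fun _ x => ω * (x + 1) + 1) n with hs
    have hs0 : s 0 = max (α + 1) η := rfl
    have hsS : ∀ n, s (n + 1) = ω * (s n + 1) + 1 := fun n => rfl
    have hlt : ∀ n, s n < ω₁ := by
      intro n
      induction n with
      | zero => rw [hs0]; exact max_lt (succ_lt_omega_one hα) hη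
      | succ n ih => rw [hsS]; exact succ_lt_omega_one (mul_lt_omega_one ih)
    have hle : ∀ n, s n ≤ ⨆ n, s n := fun n => Ordinal.le_iSup _ n
    have hα' : α < ⨆ n, s n := by
      refine lt_of_lt_of_le ?_ (hle 0)
      rw [hs0]
      exact lt_of_lt_of_le (Order.lt_add_one_iff.2 le_rfl) (le_max_left _ _)
    refine ⟨⨆ n, s n, ⟨Ordinal.iSup_lt_omega_one hlt, ?_, ?_, ?_⟩, hα'⟩
    · refine le_trans ?_ (hle 0)
      rw [hs0]
      exact le_max_right _ _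
    · exact (lt_of_le_of_lt zero_le hα').ne'
    · intro β hβ
      obtain ⟨n, hn⟩ := Ordinal.lt_iSup_iff.1 hβ
      refine lt_of_lt_of_le ?_ (hle (n + 1))
      rw [hsS, Order.lt_add_one_iff]
      apply mul_le_mul_right
      exact add_le_add_left hn.le 1
  · intro α hα hα0 hlim
    have h0 : 0 < α := lt_of_le_of_ne zero_le hα0.symm
    refine ⟨hα, ?_, hα0, ?_⟩
    · obtain ⟨γ, hγ, _, hγα⟩ := hlim 0 h0
      exact hγ.2.1.trans hγα.le
    · intro β hβ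
      obtain ⟨γ, hγ, hβγ, hγα⟩ := hlim β hβ
      exact (hγ.2.2.2 β hβγ).trans hγα

theorem guess_of_diamond (hD : Diamond) : ∃ g : Om → Om → ℕ → ℕ → ℝ,
    ∀ φ : Om → ℕ → ℕ → ℝ, ∀ α₀, ∃ α, α₀ ≤ α ∧ IsLim α ∧ ∀ β < α, ∀ n k, φ β n k = g α β n k := by
  classical
  obtain ⟨S, hS⟩ := hD
  obtain ⟨ι, hι⟩ := exists_code
  set dec : Set Ordinal.{0} → Om → ℕ → ℕ → ℝ := fun A β =>
    if h : ∃ x, ι x = {n : ℕ | ω * rk β + n ∈ A} then h.choose else fun _ _ => 0 with hdec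
  refine ⟨fun α β => dec (S (rk α)) β, ?_⟩
  intro φ α₀
  set T : Set Ordinal.{0} := {ξ | ∃ β : Om, ∃ n : ℕ, ξ = ω * rk β + n ∧ n ∈ ι (φ β)} with hT
  obtain ⟨ξ, hξ, hTξ⟩ := hS T (clubSet (rk α₀)) (isClub_clubSet (rk_lt α₀))
  obtain ⟨hξ1, hξ2, hξ3, hξ4⟩ := hξ
  obtain ⟨α, rfl⟩ := exists_rk hξ1
  have hstep : ∀ β < α, ω * (rk β + 1) < rk α := fun β hβ => hξ4 (rk β) (rk_lt_rk.2 hβ)
  refine ⟨α, rk_le_rk.1 hξ2, ⟨?_, ?_⟩, ?_⟩
  · obtain ⟨β, hβ⟩ := exists_rk (Ordinal.omega_pos 1)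
    refine ⟨β, rk_lt_rk.1 ?_⟩
    rw [hβ]
    exact lt_of_le_of_ne zero_le hξ3.symm
  · intro β hβ
    obtain ⟨γ, hγ⟩ := exists_rk (succ_lt_omega_one (rk_lt β))
    refine ⟨γ, rk_lt_rk.1 ?_, rk_lt_rk.1 ?_⟩
    · rw [hγ]; exact Order.lt_add_one_iff.2 le_rfl
    · rw [hγ]
      refine lt_of_le_of_lt ?_ (hstep β hβ)
      exact Ordinal.le_mul_right _ Ordinal.omega0_pos
  · intro β hβ n k
    have hset : ι (φ β) = {n : ℕ | ω * rk β + n ∈ S (rk α)} := by
      ext n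
      rw [Set.mem_ofPred_eq, ← hTξ]
      constructor
      · intro hn
        refine ⟨⟨β, n, rfl, hn⟩, ?_⟩
        refine lt_trans ?_ (hstep β hβ)
        rw [mul_add, mul_one]
        exact add_lt_add_right (Ordinal.natCast_lt_omega0 n) _
      · rintro ⟨⟨β', n', he, hn'⟩, _⟩
        obtain ⟨h1, h2⟩ := mul_add_inj he
        have h3 : β = β' := le_antisymm (rk_le_rk.1 h1.le) (rk_le_rk.1 h1.ge)
        rw [h3, h2]
        exact hn'
    have hex : ∃ x, ι x = {n : ℕ | ω * rk β + n ∈ S (rk α)} := ⟨_, hset⟩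
    have h1 : dec (S (rk α)) β = hex.choose := by
      simp only [hdec]
      rw [dif_pos hex]
    have h2 : ι hex.choose = ι (φ β) := by rw [hex.choose_spec, hset]
    have h3 : φ β = dec (S (rk α)) β := by rw [h1]; exact (hι h2).symm
    show φ β n k = dec (S (rk α)) β n k
    rw [← h3]

end Pool.Agent.Helper71.Nik
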