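import Pool.Agent.Helper71.Nik.Rec

/-! The energy argument: later splittings of a point do not split the measures. -/

namespace Pool.Agent.Helper71.Nik

open MeasureTheory Set

/-- finite partitions -/
structure IsPart {X : Type} (ℬ : BooleanSubalgebra (Set X)) (P : Finset (Set X)) : Prop where
  mem : ∀ p ∈ P, p ∈ ℬ
  disj : ∀ p ∈ P, ∀ q ∈ P, p ≠ q → Disjoint p q
  cov : ∀ x, ∃ p ∈ P, x ∈ p

/-- energy of a partition -/
noncomputable def En {X : Type} (m : Set X → ℝ) (P : Finset (Set X)) : ℝ := ∑ p ∈ P, (m p) ^ 2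

section

variable {X : Type} {ℱ : BooleanSubalgebra (Set X)} {m : Set X → ℝ}

open Classical in
lemma refine_part (hF : FA ℱ m) {P : Finset (Set X)} (hP : IsPart ℱ P) {p b : Set X}
    (hp : p ∈ P) (hb : b ∈ ℱ) {δ : ℝ} (hδ : 0 < δ) (h1 : δ ≤ m (p ∩ b)) (h2 : δ ≤ m (p \ b)) :
    ∃ P', IsPart ℱ P' ∧ En m P' ≤ En m P - 2 * δ ^ 2 := by
  have hpm := hP.mem p hp
  have hne : ∀ q, δ ≤ m q → q.Nonempty := by
    intro q hq
    by_contra h
    rw [Set.not_nonempty_iff_eq_empty] at h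
    rw [h, hF.empty] at hq
    linarith
  have hdis : Disjoint (p ∩ b) (p \ b) := Set.disjoint_left.2 (fun x h1 h2 => h2.2 h1.2)
  have hq : ∀ q ∈ P.erase p, Disjoint p q := fun q hq =>
    hP.disj p hp q (Finset.mem_of_mem_erase hq) (Finset.ne_of_mem_erase hq).symm
  have hn2 : p \ b ∉ P.erase p := by
    intro h
    obtain ⟨x, hx⟩ := hne _ h2
    exact Set.disjoint_left.1 (hq _ h) hx.1 hx
  have hn1 : p ∩ b ∉ insert (p \ b) (P.erase p) := by
    obtain ⟨x, hx⟩ := hne _ h1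
    intro h
    rcases Finset.mem_insert.1 h with h | h
    · rw [h] at hx hdis
      exact Set.disjoint_left.1 hdis hx hx
    · exact Set.disjoint_left.1 (hq _ h) hx.1 hx
  refine ⟨insert (p ∩ b) (insert (p \ b) (P.erase p)), ⟨?_, ?_, ?_⟩, ?_⟩
  · intro q hq
    rcases Finset.mem_insert.1 hq with rfl | hq
    · exact inter_mem hpm hb
    · rcases Finset.mem_insert.1 hq with rfl | hq
      · exact diff_mem hpm hb
      · exact hP.mem q (Finset.mem_of_mem_erase hq)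
  · have hA : ∀ q ∈ P.erase p, Disjoint (p ∩ b) q := fun q h => (hq q h).mono_left inter_subset_left
    have hB : ∀ q ∈ P.erase p, Disjoint (p \ b) q := fun q h => (hq q h).mono_left Set.sdiff_subset
    intro q hq r hr hqr
    rcases Finset.mem_insert.1 hq with rfl | hq
    · rcases Finset.mem_insert.1 hr with rfl | hr
      · exact absurd rfl hqr
      · rcases Finset.mem_insert.1 hr with rfl | hr
        · exact hdis
        · exact hA r hr
    · rcases Finset.mem_insert.1 hq with rfl | hq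
      · rcases Finset.mem_insert.1 hr with rfl | hr
        · exact hdis.symm
        · rcases Finset.mem_insert.1 hr with rfl | hr
          · exact absurd rfl hqr
          · exact hB r hr
      · rcases Finset.mem_insert.1 hr with rfl | hr
        · exact (hA q hq).symm
        · rcases Finset.mem_insert.1 hr with rfl | hr
          · exact (hB q hq).symm
          · exact hP.disj q (Finset.mem_of_mem_erase hq) r (Finset.mem_of_mem_erase hr) hqr
  · intro x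
    obtain ⟨q, hq, hx⟩ := hP.cov x
    by_cases h : q = p
    · subst h
      by_cases hxb : x ∈ b
      · exact ⟨_, Finset.mem_insert_self _ _, hx, hxb⟩
      · exact ⟨_, Finset.mem_insert_of_mem (Finset.mem_insert_self _ _), hx, hxb⟩
    · exact ⟨q, Finset.mem_insert_of_mem (Finset.mem_insert_of_mem (Finset.mem_erase.2 ⟨h, hq⟩)), hx⟩
  · rw [En, Finset.sum_insert hn1, Finset.sum_insert hn2, En, ← Finset.add_sum_erase P _ hp]
    have e : m p = m (p ∩ b) + m (p \ b) := by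
      rw [← hF _ (inter_mem hpm hb) _ (diff_mem hpm hb) hdis, Set.inter_union_sdiff]
    rw [e]
    have : δ ^ 2 ≤ m (p ∩ b) * m (p \ b) := by
      rw [sq]; exact mul_le_mul h1 h2 hδ.le (hδ.le.trans h1)
    nlinarith

variable {Ω : Type} [LinearOrder Ω]

theorem energy (hF : FA ℱ m) (hm0 : ∀ a ∈ ℱ, 0 ≤ m a) (𝒞 : Ω → BooleanSubalgebra (Set X)) (hmono : Monotone 𝒞)
    (hle : ∀ α, 𝒞 α ≤ ℱ) (hcov : ∀ x ∈ ℱ, ∃ α, x ∈ 𝒞 α) (hcof : ∀ s : ℕ → Ω, ∃ α, ∀ n, s n < α) :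
    ∃ α₀, ∀ α ≥ α₀, ∀ U, Dec (𝒞 α) U → ∀ b ∈ ℱ,
      (∀ δ > 0, ∃ l, m (U l ∩ b) < δ) ∨ (∀ δ > 0, ∃ l, m (U l \ b) < δ) := by
  classical
  set S : Set ℝ := {e | ∃ P, IsPart ℱ P ∧ e = En m P} with hS
  have hbd : BddBelow S := by
    refine ⟨0, ?_⟩
    rintro _ ⟨P, _, rfl⟩
    exact Finset.sum_nonneg (fun _ _ => sq_nonneg _)
  have hne : S.Nonempty := by
    refine ⟨_, {univ}, ⟨?_, ?_, ?_⟩, rfl⟩
    · intro p hp; rw [Finset.mem_singleton.1 hp]; exact univ_mem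
    · intro p hp q hq h
      rw [Finset.mem_singleton.1 hp, Finset.mem_singleton.1 hq] at h
      exact absurd rfl h
    · intro x; exact ⟨univ, Finset.mem_singleton_self _, trivial⟩
  have hex : ∀ n : ℕ, ∃ P, IsPart ℱ P ∧ En m P < sInf S + 1 / (n + 1) := by
    intro n
    obtain ⟨_, ⟨P, hP, rfl⟩, h⟩ := exists_lt_of_csInf_lt hne
      (show sInf S < sInf S + 1 / ((n : ℝ) + 1) by
        have : (0 : ℝ) < 1 / ((n : ℝ) + 1) := by positivity
        linarith)
    exact ⟨P, hP, h⟩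
  choose P hP hPE using hex
  have hstage : ∀ n, ∃ α, ∀ p ∈ P n, p ∈ 𝒞 α := by
    intro n
    have : ∀ Q : Finset (Set X), (∀ p ∈ Q, p ∈ ℱ) → ∃ α, ∀ p ∈ Q, p ∈ 𝒞 α := by
      intro Q
      induction Q using Finset.induction_on with
      | empty =>
        intro _
        obtain ⟨α, _⟩ := hcov ∅ empty_mem
        exact ⟨α, fun p hp => absurd hp (Finset.notMem_empty p)⟩
      | insert q Q _ ih =>
        intro h
        obtain ⟨α, hα⟩ := ih (fun p hp => h p (Finset.mem_insert_of_mem hp))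
        obtain ⟨β, hβ⟩ := hcov q (h q (Finset.mem_insert_self _ _))
        refine ⟨max α β, fun p hp => ?_⟩
        rcases Finset.mem_insert.1 hp with rfl | hp
        · exact hmono (le_max_right _ _) hβ
        · exact hmono (le_max_left _ _) (hα p hp)
    exact this (P n) (hP n).mem
  choose s hs using hstage
  obtain ⟨α₀, hα₀⟩ := hcof s
  refine ⟨α₀, fun α hα U hU b hb => ?_⟩
  by_contra hcon
  push Not at hcon
  obtain ⟨⟨δ₁, hδ₁, h1⟩, ⟨δ₂, hδ₂, h2⟩⟩ := hcon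
  set δ := min δ₁ δ₂ with hδdef
  have hδ : 0 < δ := lt_min hδ₁ hδ₂
  obtain ⟨n, hn⟩ := exists_nat_one_div_lt (show 0 < 2 * δ ^ 2 by positivity)
  have hPm : ∀ p ∈ P n, p ∈ 𝒞 α := fun p hp => hmono ((hα₀ n).le.trans hα) (hs n p hp)
  -- a common deciding index
  have hl : ∀ Q : Finset (Set X), (∀ p ∈ Q, p ∈ 𝒞 α) → ∃ l, ∀ p ∈ Q, U l ⊆ p ∨ Disjoint (U l) p := by
    intro Q
    induction Q using Finset.induction_on with
    | empty => intro _; exact ⟨0, fun p hp => absurd hp (Finset.notMem_empty p)⟩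
    | insert q Q _ ih =>
      intro h
      obtain ⟨l, hl⟩ := ih (fun p hp => h p (Finset.mem_insert_of_mem hp))
      obtain ⟨l', hl', hq⟩ := hU.dec_ge (h q (Finset.mem_insert_self _ _)) l
      refine ⟨l', fun p hp => ?_⟩
      rcases Finset.mem_insert.1 hp with rfl | hp
      · exact hq
      · rcases hl p hp with h | h
        · exact Or.inl ((hU.anti hl').trans h)
        · exact Or.inr (h.mono_left (hU.anti hl'))
  obtain ⟨l, hl⟩ := hl (P n) hPm
  have hUne : (U l).Nonempty := by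
    by_contra h
    rw [Set.not_nonempty_iff_eq_empty] at h
    have := h1 l
    rw [h, empty_inter, hF.empty] at this
    linarith
  obtain ⟨x, hx⟩ := hUne
  obtain ⟨p, hp, hxp⟩ := (hP n).cov x
  have hUp : U l ⊆ p := by
    rcases hl p hp with h | h
    · exact h
    · exact absurd hxp (Set.disjoint_left.1 h hx)
  have hm : ∀ a ∈ ℱ, ∀ c ∈ ℱ, a ⊆ c → m a ≤ m c := by
    intro a ha c hc hac
    have h3 := hF.diff hc ha hac
    have h4 := hm0 _ (diff_mem hc ha)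
    linarith
  have hUm : U l ∈ ℱ := hle α (hU.mem l)
  have hpm : p ∈ ℱ := (hP n).mem p hp
  obtain ⟨P', hP', hE⟩ := refine_part hF (hP n) hp hb hδ
    (((min_le_left _ _).trans (h1 l)).trans
      (hm _ (inter_mem hUm hb) _ (inter_mem hpm hb) (inter_subset_inter_left _ hUp)))
    (((min_le_right _ _).trans (h2 l)).trans
      (hm _ (diff_mem hUm hb) _ (diff_mem hpm hb) (Set.sdiff_subset_sdiff_left hUp)))
  have h3 : sInf S ≤ En m P' := csInf_le hbd ⟨P', hP', rfl⟩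
  have h4 := hPE n
  linarith

end

section mixture

variable {X : Type} {ℱ : BooleanSubalgebra (Set X)} {ν : ℕ → Set X → ℝ}

/-- the mixture of the variations -/
noncomputable def mix (ℱ : BooleanSubalgebra (Set X)) (ν : ℕ → Set X → ℝ) (a : Set X) : ℝ :=
  ∑' k, (1 / 2 : ℝ) ^ k * (var ℱ (ν k) a / (1 + var ℱ (ν k) univ))

lemma mix_term (hF : ∀ k, FA ℱ (ν k)) (hB : ∀ k, Bdd ℱ (ν k)) {a : Set X} (ha : a ∈ ℱ) (k : ℕ) :
    0 ≤ (1 / 2 : ℝ) ^ k * (var ℱ (ν k) a / (1 + var ℱ (ν k) univ)) ∧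
    (1 / 2 : ℝ) ^ k * (var ℱ (ν k) a / (1 + var ℱ (ν k) univ)) ≤ (1 / 2 : ℝ) ^ k := by
  have h1 := var_nonneg (hF k) (hB k) ha
  have h2 := var_nonneg (hF k) (hB k) (univ_mem (𝒜 := ℱ))
  have h3 := var_mono (hF k) (hB k) univ_mem ha (subset_univ a)
  have h4 : var ℱ (ν k) a / (1 + var ℱ (ν k) univ) ≤ 1 := by
    rw [div_le_one (by linarith)]; linarith
  have h5 : 0 ≤ var ℱ (ν k) a / (1 + var ℱ (ν k) univ) := div_nonneg h1 (by linarith)
  have h6 : (0 : ℝ) ≤ (1 / 2) ^ k := by positivity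
  exact ⟨mul_nonneg h6 h5, mul_le_of_le_one_right h6 h4⟩

lemma mix_summable (hF : ∀ k, FA ℱ (ν k)) (hB : ∀ k, Bdd ℱ (ν k)) {a : Set X} (ha : a ∈ ℱ) :
    Summable (fun k => (1 / 2 : ℝ) ^ k * (var ℱ (ν k) a / (1 + var ℱ (ν k) univ))) :=
  Summable.of_nonneg_of_le (fun k => (mix_term hF hB ha k).1) (fun k => (mix_term hF hB ha k).2)
    (summable_geometric_of_lt_one (by norm_num) (by norm_num))

lemma mix_FA (hF : ∀ k, FA ℱ (ν k)) (hB : ∀ k, Bdd ℱ (ν k)) : FA ℱ (mix ℱ ν) := by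
  intro a ha b hb hd
  rw [mix, mix, mix, ← (mix_summable hF hB ha).tsum_add (mix_summable hF hB hb)]
  congr 1
  funext k
  rw [var_union (hF k) (hB k) ha hb hd]
  ring

lemma mix_nonneg (hF : ∀ k, FA ℱ (ν k)) (hB : ∀ k, Bdd ℱ (ν k)) : ∀ a ∈ ℱ, 0 ≤ mix ℱ ν a :=
  fun _ ha => tsum_nonneg (fun k => (mix_term hF hB ha k).1)

lemma var_le_mix (hF : ∀ k, FA ℱ (ν k)) (hB : ∀ k, Bdd ℱ (ν k)) {a : Set X} (ha : a ∈ ℱ) (k : ℕ) :
    var ℱ (ν k) a ≤ 2 ^ k * (1 + var ℱ (ν k) univ) * mix ℱ ν a := by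
  have h1 := (mix_summable hF hB ha).le_tsum k (fun j _ => (mix_term hF hB ha j).1)
  have h2 := var_nonneg (hF k) (hB k) (univ_mem (𝒜 := ℱ))
  have h3 : var ℱ (ν k) a = 2 ^ k * (1 + var ℱ (ν k) univ) *
      ((1 / 2 : ℝ) ^ k * (var ℱ (ν k) a / (1 + var ℱ (ν k) univ))) := by
    have h4 : (2 : ℝ) ^ k * (1 / 2) ^ k = 1 := by rw [← mul_pow]; norm_num
    have h5 : (1 + var ℱ (ν k) univ) ≠ 0 := by positivity
    calc var ℱ (ν k) a = (2 ^ k * (1 / 2) ^ k) * var ℱ (ν k) a := by rw [h4, one_mul]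
      _ = _ := by field_simp
  rw [h3]
  apply mul_le_mul_of_nonneg_left h1
  positivity

/-- A killed sequence is not pointwise bounded at `a`, if the point is not split by the measures. -/
lemma kill_contra {𝒜 : BooleanSubalgebra (Set X)} (hle : 𝒜 ≤ ℱ) (hF : ∀ k, FA ℱ (ν k))
    (hB : ∀ k, Bdd ℱ (ν k)) {U : ℕ → Set X} {a : Set X} (ha : a ∈ ℱ) (hK : Killed 𝒜 U ν a)
    (hE : (∀ δ > 0, ∃ l, mix ℱ ν (U l ∩ a) < δ) ∨ (∀ δ > 0, ∃ l, mix ℱ ν (U l \ a) < δ))
    (hpt : ∃ C, ∀ k, |ν k a| ≤ C) : False := by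
  obtain ⟨hU, hdm, hα, hβ⟩ := hK
  obtain ⟨C, hC⟩ := hpt
  have hUm : ∀ l, U l ∈ ℱ := fun l => hle (hU.mem l)
  have hsmall : ∀ k, ∀ Z : ℕ → Set X, (∀ l, Z l ∈ ℱ) → (∀ l l', l ≤ l' → Z l' ⊆ Z l) →
      (∀ δ > 0, ∃ l, mix ℱ ν (Z l) < δ) → ∀ m₀, ∃ l ≥ m₀, |ν k (Z l)| ≤ 1 := by
    intro k Z hZ hZa hδ m₀
    have h2 := var_nonneg (hF k) (hB k) (univ_mem (𝒜 := ℱ))
    obtain ⟨l, hl⟩ := hδ (1 / (2 ^ k * (1 + var ℱ (ν k) univ))) (by positivity)
    refine ⟨max m₀ l, le_max_left _ _, ?_⟩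
    have h3 := abs_le_var (hF k) (hB k) (hZ l) (hZ (max m₀ l)) (hZa _ _ (le_max_right _ _))
    have h4 := var_le_mix hF hB (hZ l) k
    have h5 : (0 : ℝ) < 2 ^ k * (1 + var ℱ (ν k) univ) := by positivity
    rw [lt_div_iff₀ h5] at hl
    refine h3.trans (h4.trans ?_)
    rw [mul_comm]
    exact hl.le
  rcases hE with hE | hE
  · obtain ⟨k, m₀, hk⟩ := hα (C + 2)
    obtain ⟨l, hl, hl1⟩ := hsmall k (fun l => U l ∩ a) (fun l => inter_mem (hUm l) ha)
      (fun l l' h => inter_subset_inter_left _ (hU.anti h)) hE m₀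
    have h1 := hk l hl
    have h2 : ν k a = ν k (a \ U l) + ν k (U l ∩ a) := by
      rw [← hF k _ (diff_mem ha (hUm l)) _ (inter_mem (hUm l) ha)
        (Set.disjoint_left.2 (fun x h1 h2 => h1.2 h2.1))]
      congr 1
      ext x
      simp only [mem_union, mem_sdiff, mem_inter_iff]
      tauto
    have h3 := hC k
    have h4 : |ν k (a \ U l)| ≤ |ν k a| + |ν k (U l ∩ a)| := by
      have : ν k (a \ U l) = ν k a - ν k (U l ∩ a) := by linarith
      rw [this]; exact abs_sub _ _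
    linarith
  · obtain ⟨k, m₀, hk⟩ := hβ (C + 2)
    obtain ⟨l, hl, hl1⟩ := hsmall k (fun l => U l \ a) (fun l => diff_mem (hUm l) ha)
      (fun l l' h => Set.sdiff_subset_sdiff_left (hU.anti h)) hE m₀
    have h1 := hk l hl
    have h2 : ν k ((a \ U l) ∪ U l) = ν k a + ν k (U l \ a) := by
      rw [← hF k _ ha _ (diff_mem (hUm l) ha) (Set.disjoint_left.2 (fun x h1 h2 => h2.2 h1))]
      congr 1
      ext x
      simp only [mem_union, mem_sdiff]
      tauto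
    have h3 := hC k
    rw [h2] at h1
    have h4 := abs_add_le (ν k a) (ν k (U l \ a))
    linarith

end mixture

end Pool.Agent.Helper71.Nik
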