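import Pool.Agent.Helper71.Nik.Hump

/-! Splitting one point of the Stone space. -/

namespace Pool.Agent.Helper71.Nik

open Set

variable {X : Type}

/-- `a` splits exactly the point given by the deciding sequence `U`. -/
structure Split (𝒜 : BooleanSubalgebra (Set X)) (U : ℕ → Set X) (a : Set X) : Prop where
  dec : Dec 𝒜 U
  sdiff : ∀ m, a \ U m ∈ 𝒜
  out : ∀ x ∈ a, ∃ m, x ∉ U m
  gap : ∀ m, ∃ g ∈ 𝒜, g.Nonempty ∧ g ⊆ U m ∧ Disjoint g a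

variable {𝒜 : BooleanSubalgebra (Set X)} {U : ℕ → Set X} {a : Set X}

lemma Split.simple (h : Split 𝒜 U a) : Simple 𝒜 a := by
  intro b hb
  obtain ⟨m, hm | hm⟩ := h.dec.dec b hb
  · right
    have : a \ b = (a \ U m) \ b := by
      ext x
      simp only [mem_sdiff]
      constructor
      · rintro ⟨h1, h2⟩
        exact ⟨⟨h1, fun h3 => h2 (hm h3)⟩, h2⟩
      · rintro ⟨⟨h1, _⟩, h2⟩
        exact ⟨h1, h2⟩
    rw [this]
    exact diff_mem (h.sdiff m) hb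
  · left
    have : a ∩ b = (a \ U m) ∩ b := by
      ext x
      simp only [mem_sdiff, mem_inter_iff]
      constructor
      · rintro ⟨h1, h2⟩
        exact ⟨⟨h1, fun h3 => Set.disjoint_left.1 hm h3 h2⟩, h2⟩
      · rintro ⟨⟨h1, _⟩, h2⟩
        exact ⟨h1, h2⟩
    rw [this]
    exact inter_mem (h.sdiff m) hb

section pieces

variable {l : ℕ → ℕ} {c : ℕ → Set X}

lemma piece_sub_of_ge (hU : Dec 𝒜 U) (hl : StrictMono l) (hcU : ∀ j, c j ⊆ U (l j) \ U (l (j + 1)))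
    {i j : ℕ} (h : i ≤ j) : c j ⊆ U (l i) :=
  ((hcU j).trans Set.sdiff_subset).trans (hU.anti (hl.monotone h))

lemma piece_disjoint_of_lt (hU : Dec 𝒜 U) (hl : StrictMono l)
    (hcU : ∀ j, c j ⊆ U (l j) \ U (l (j + 1))) {i j : ℕ} (h : i < j) : Disjoint (c i) (U (l j)) :=
  ((Set.disjoint_sdiff_left).mono_left (hcU i)).mono_right (hU.anti (hl.monotone h))

lemma pieces_sdiff (hU : Dec 𝒜 U) (hl : StrictMono l)
    (hcU : ∀ j, c j ⊆ U (l j) \ U (l (j + 1))) {m j : ℕ} (hm : m ≤ l j) :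
    (⋃ i, c i) \ U m = (⋃ i ∈ Finset.range j, c i) \ U m := by
  ext x
  simp only [mem_sdiff, mem_iUnion, Finset.mem_range, exists_prop]
  constructor
  · rintro ⟨⟨i, hi⟩, hx⟩
    refine ⟨⟨i, ?_, hi⟩, hx⟩
    by_contra hij
    push Not at hij
    exact hx (hU.anti hm (piece_sub_of_ge hU hl hcU hij hi))
  · rintro ⟨⟨i, _, hi⟩, hx⟩
    exact ⟨⟨i, hi⟩, hx⟩

lemma split_of_pieces (hU : Dec 𝒜 U) (hl : StrictMono l) (hc : ∀ j, c j ∈ 𝒜)
    (hcU : ∀ j, c j ⊆ U (l j) \ U (l (j + 1)))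
    (hg : ∀ j, ∃ g ∈ 𝒜, g.Nonempty ∧ g ⊆ U (l j) \ U (l (j + 1)) ∧ Disjoint g (c j)) :
    Split 𝒜 U (⋃ j, c j) where
  dec := hU
  sdiff := by
    intro m
    rw [pieces_sdiff hU hl hcU (show m ≤ l m from hl.id_le m)]
    exact diff_mem (biUnion_mem _ _ (fun i _ => hc i)) (hU.mem m)
  out := by
    intro x hx
    obtain ⟨i, hi⟩ := mem_iUnion.1 hx
    exact ⟨l (i + 1), (hcU i hi).2⟩
  gap := by
    intro m
    obtain ⟨g, hgA, hne, hgU, hd⟩ := hg m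
    refine ⟨g, hgA, hne, (hgU.trans Set.sdiff_subset).trans (hU.anti (hl.id_le m)), ?_⟩
    rw [Set.disjoint_iUnion_right]
    intro i
    rcases lt_trichotomy i m with h | h | h
    · exact ((piece_disjoint_of_lt hU hl hcU h).mono_right (hgU.trans Set.sdiff_subset)).symm
    · rw [h]; exact hd
    · exact ((Set.disjoint_sdiff_left).mono_left hgU).mono_right (piece_sub_of_ge hU hl hcU h)

end pieces

/-- the kill properties -/
def Killed (𝒜 : BooleanSubalgebra (Set X)) (U : ℕ → Set X) (μ : ℕ → Set X → ℝ) (a : Set X) : Prop :=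
  Dec 𝒜 U ∧ (∀ m, a \ U m ∈ 𝒜) ∧
  (∀ C : ℝ, ∃ k m₀, ∀ m ≥ m₀, C ≤ |μ k (a \ U m)|) ∧
  (∀ C : ℝ, ∃ k m₀, ∀ m ≥ m₀, C ≤ |μ k ((a \ U m) ∪ U m)|)

lemma Killed.congr {μ ν : ℕ → Set X → ℝ} (h : Killed 𝒜 U μ a) (he : ∀ k, ∀ b ∈ 𝒜, μ k b = ν k b) :
    Killed 𝒜 U ν a := by
  obtain ⟨h1, h2, h3, h4⟩ := h
  refine ⟨h1, h2, ?_, ?_⟩
  · intro C
    obtain ⟨k, m₀, h⟩ := h3 C
    exact ⟨k, m₀, fun m hm => by rw [← he k _ (h2 m)]; exact h m hm⟩
  · intro C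
    obtain ⟨k, m₀, h⟩ := h4 C
    exact ⟨k, m₀, fun m hm => by rw [← he k _ (union_mem (h2 m) (h1.mem m))]; exact h m hm⟩

/-- The gliding hump, final form. -/
theorem hump_final {μ : ℕ → Set X → ℝ} {Comp : ℕ → Set X → Prop}
    (hU : Dec 𝒜 U) (hF : ∀ k, FA 𝒜 (μ k)) (hB : ∀ k, Bdd 𝒜 (μ k))
    (hpt : ∀ a ∈ 𝒜, ∃ C, ∀ k, |μ k a| ≤ C)
    (hOr : ∀ (j i : ℕ) (D : ℝ), ∃ k i', i < i' ∧ ∃ c ∈ 𝒜, c ⊆ U i \ U i' ∧ D ≤ |μ k c| ∧ Comp j c)
    (hsp : ∀ i, ∃ i', i < i' ∧ (U i \ U i').Nonempty) :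
    ∃ c : ℕ → Set X, (∀ j, c j ∈ 𝒜) ∧ (∀ j, Comp j (c j)) ∧ (∀ j, c j ⊆ U 0) ∧
      (∀ i j, i < j → Disjoint (c i) (c j)) ∧
      Split 𝒜 U (⋃ j, c j) ∧ Killed 𝒜 U μ (⋃ j, c j) := by
  obtain ⟨x, hx0, hxA, hx⟩ := hump hU hF hB hpt hOr hsp
  have h1 : ∀ j, (x j).1 < (x (j + 1)).1 := fun j => (hx j).1
  have h2 := fun j => (hx j).2.1
  choose c hc hcU hcx hcomp using h2
  have h3 := fun j => (hx j).2.2.1
  have h4 := fun j => (hx j).2.2.2.1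
  have h5 := fun j => (hx j).2.2.2.2
  set l : ℕ → ℕ := fun j => (x j).1 with hldef
  have hl : StrictMono l := strictMono_nat_of_lt_succ h1
  have hA : ∀ j, (x j).2 = ⋃ i ∈ Finset.range j, c i := by
    intro j
    induction j with
    | zero => simp [hx0]
    | succ j ih =>
      rw [hcx, ih, Finset.range_add_one, Finset.set_biUnion_insert, union_comm]
  have hsplit : Split 𝒜 U (⋃ j, c j) := by
    refine split_of_pieces hU hl hc hcU ?_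
    intro j
    obtain ⟨g, hgA, hne, hgU, hd⟩ := h3 j
    refine ⟨g, hgA, hne, hgU, hd.mono_right ?_⟩
    rw [hcx]
    exact subset_union_right
  have key : ∀ j m, l (j + 1) ≤ m → ∃ Z ∈ 𝒜, Z ⊆ U (l (j + 1)) \ U m ∧
      (⋃ i, c i) \ U m = (x (j + 1)).2 ∪ Z := by
    intro j m hm
    refine ⟨((⋃ i, c i) \ U m) \ (x (j + 1)).2, diff_mem (hsplit.sdiff m) (hxA _), ?_, ?_⟩
    · rintro y ⟨⟨hy1, hy2⟩, hy3⟩
      refine ⟨?_, hy2⟩
      obtain ⟨i, hi⟩ := mem_iUnion.1 hy1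
      rcases lt_or_ge i (j + 1) with h | h
      · exfalso
        apply hy3
        rw [hA]
        exact mem_biUnion (Finset.mem_range.2 h) hi
      · exact piece_sub_of_ge hU hl hcU h hi
    · rw [Set.union_sdiff_cancel]
      rw [hA]
      intro y hy
      simp only [mem_iUnion, Finset.mem_range, exists_prop] at hy
      obtain ⟨i, hi, hyi⟩ := hy
      refine ⟨mem_iUnion.2 ⟨i, hyi⟩, fun hyU => ?_⟩
      exact Set.disjoint_left.1 (piece_disjoint_of_lt hU hl hcU hi) hyi (hU.anti hm hyU)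
  refine ⟨c, hc, hcomp, ?_, ?_, hsplit, hU, hsplit.sdiff, ?_, ?_⟩
  · intro j
    exact ((hcU j).trans Set.sdiff_subset).trans (hU.anti (Nat.zero_le _))
  · intro i j hij
    exact (piece_disjoint_of_lt hU hl hcU hij).mono_right ((hcU j).trans Set.sdiff_subset)
  · intro C
    obtain ⟨j, hj⟩ := exists_nat_ge C
    obtain ⟨k, hk⟩ := h4 j
    refine ⟨k, l (j + 1), fun m hm => hj.trans ?_⟩
    obtain ⟨Z, hZ, hZU, he⟩ := key j m hm
    rw [he]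
    exact hk m hm Z hZ hZU
  · intro C
    obtain ⟨j, hj⟩ := exists_nat_ge C
    obtain ⟨k, hk⟩ := h5 j
    refine ⟨k, l (j + 1), fun m hm => hj.trans ?_⟩
    obtain ⟨Z, hZ, hZU, he⟩ := key j m hm
    rw [he]
    exact hk m hm Z hZ hZU

end Pool.Agent.Helper71.Nik
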