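import Pool.Agent.Helper71.Nik.Round
import Pool.Agent.Helper71.Nik.Split

/-! The base algebra and the invariants. -/

namespace Pool.Agent.Helper71.Nik

open MeasureTheory Set
open BooleanSubalgebra (closure)

/-- the underlying space -/
abbrev XX : Type := ℕ × Ct

/-- sections -/
def sec (n : ℕ) (a : Set XX) : Set Ct := {y | (n, y) ∈ a}

/-- fibres -/
def V (n : ℕ) : Set XX := {x | x.1 = n}

/-- cylinders -/
def Cyl (n D : ℕ) (y : Ct) : Set XX := {x | x.1 = n ∧ x.2 ∈ cyl D y}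

/-- coefficients -/
noncomputable def co (n k : ℕ) (a : Set XX) : ℝ := cf k (sec n a)

/-- the growth condition -/
def NN (n : ℕ) (a : Set XX) : Prop := ∃ C : ℝ, ∀ k : ℕ, (k : ℝ) * |co n k a| ≤ C

lemma sec_union (n : ℕ) (a b : Set XX) : sec n (a ∪ b) = sec n a ∪ sec n b := rfl
lemma sec_inter (n : ℕ) (a b : Set XX) : sec n (a ∩ b) = sec n a ∩ sec n b := rfl
lemma sec_sdiff (n : ℕ) (a b : Set XX) : sec n (a \ b) = sec n a \ sec n b := rfl

lemma sec_disjoint {n : ℕ} {a b : Set XX} (h : Disjoint a b) : Disjoint (sec n a) (sec n b) := by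
  rw [Set.disjoint_left] at h ⊢
  exact fun y h1 h2 => h h1 h2

lemma sec_mono {n : ℕ} {a b : Set XX} (h : a ⊆ b) : sec n a ⊆ sec n b := fun _ hy => h hy

lemma NN.congr {n : ℕ} {a b : Set XX} (h : NN n a) (he : sec n a = sec n b) : NN n b := by
  unfold NN co at *
  rwa [← he]

lemma NN.of_sec_empty {n : ℕ} {a : Set XX} (h : sec n a = ∅) : NN n a :=
  ⟨0, fun k => by simp [co, h, cf_empty]⟩

lemma co_union {n k : ℕ} {a b : Set XX} (hb : MeasurableSet (sec n b)) (hd : Disjoint a b) :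
    co n k (a ∪ b) = co n k a + co n k b := cf_union hb (sec_disjoint hd) k

lemma NN.union {n : ℕ} {a b : Set XX} (h1 : NN n a) (h2 : NN n b) (hb : MeasurableSet (sec n b))
    (hd : Disjoint a b) : NN n (a ∪ b) := by
  obtain ⟨C, hC⟩ := h1
  obtain ⟨D, hD⟩ := h2
  refine ⟨C + D, fun k => ?_⟩
  rw [co_union hb hd]
  calc (k : ℝ) * |co n k a + co n k b| ≤ k * (|co n k a| + |co n k b|) :=
        mul_le_mul_of_nonneg_left (abs_add_le _ _) (Nat.cast_nonneg k)
    _ = k * |co n k a| + k * |co n k b| := by ring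
    _ ≤ C + D := add_le_add (hC k) (hD k)

lemma NN.sdiff {n : ℕ} {a b : Set XX} (h1 : NN n a) (h2 : NN n b) (ha : MeasurableSet (sec n a))
    (hb : MeasurableSet (sec n b)) (hab : b ⊆ a) : NN n (a \ b) := by
  obtain ⟨C, hC⟩ := h1
  obtain ⟨D, hD⟩ := h2
  refine ⟨C + D, fun k => ?_⟩
  have h3 : co n k a = co n k b + co n k (a \ b) := by
    rw [← co_union (by rw [sec_sdiff]; exact ha.diff hb) Set.disjoint_sdiff_right,
      Set.union_sdiff_cancel hab]
  have h4 : co n k (a \ b) = co n k a - co n k b := by linarith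
  rw [h4]
  calc (k : ℝ) * |co n k a - co n k b| ≤ k * (|co n k a| + |co n k b|) :=
        mul_le_mul_of_nonneg_left (abs_sub _ _) (Nat.cast_nonneg k)
    _ = k * |co n k a| + k * |co n k b| := by ring
    _ ≤ C + D := add_le_add (hC k) (hD k)

/-- admissible sets -/
def Ok (a : Set XX) : Prop :=
  (∀ n, MeasurableSet (sec n a)) ∧ (a.Nonempty → ∃ n D y, Cyl n D y ⊆ a) ∧ ∃ m, ∀ n ≥ m, NN n a

/-- the base algebra -/
def base : BooleanSubalgebra (Set XX) := closure {s | ∃ n D y, s = Cyl n D y}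

/-- good algebras -/
structure Good (𝒜 : BooleanSubalgebra (Set XX)) : Prop where
  base : base ≤ 𝒜
  ok : ∀ a ∈ 𝒜, Ok a
  count : (𝒜 : Set (Set XX)).Countable

lemma cyl_mem_base (n D : ℕ) (y : Ct) : Cyl n D y ∈ base :=
  BooleanSubalgebra.subset_closure ⟨n, D, y, rfl⟩

lemma V_eq (n : ℕ) (y : Ct) : V n = Cyl n 0 y := by
  ext x
  simp [V, Cyl, cyl]

lemma V_mem_base (n : ℕ) : V n ∈ base := by
  rw [V_eq n (fun _ => false)]
  exact cyl_mem_base _ _ _

/-- tails -/
def T (m : ℕ) : Set XX := {x | m ≤ x.1}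

lemma T_mem_base (m : ℕ) : T m ∈ base := by
  have : T m = (⋃ i ∈ Finset.range m, V i)ᶜ := by
    ext x
    simp only [T, V, Set.mem_ofPred_eq, mem_compl_iff, mem_iUnion, Finset.mem_range, exists_prop,
      not_exists, not_and]
    constructor
    · intro h i hi h'
      omega
    · intro h
      by_contra h'
      exact h x.1 (by omega) rfl
  rw [this]
  exact compl_mem (biUnion_mem _ _ (fun i _ => V_mem_base i))

/-- truncation -/
def trunc (M : ℕ) (x : XX) : Option (Fin M × (Fin M → Bool)) :=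
  if h : x.1 < M then some (⟨x.1, h⟩, fun i => x.2 i) else none

/-- sets determined by the truncation -/
def Lev (M : ℕ) (a : Set XX) : Prop := ∀ x x', trunc M x = trunc M x' → x ∈ a → x' ∈ a

lemma trunc_eq_iff {M : ℕ} {x x' : XX} :
    trunc M x = trunc M x' ↔ (x.1 = x'.1 ∧ x.1 < M ∧ ∀ i < M, x.2 i = x'.2 i) ∨ (M ≤ x.1 ∧ M ≤ x'.1) := by
  unfold trunc
  by_cases h : x.1 < M
  · by_cases h' : x'.1 < M
    · rw [dif_pos h, dif_pos h']
      simp only [Option.some.injEq, Prod.mk.injEq, Fin.mk.injEq]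
      constructor
      · rintro ⟨h1, h2⟩
        left
        exact ⟨h1, h, fun i hi => congrFun h2 ⟨i, hi⟩⟩
      · rintro (⟨h1, _, h2⟩ | ⟨h1, _⟩)
        · exact ⟨h1, funext fun i => h2 i i.2⟩
        · omega
    · rw [dif_pos h, dif_neg h']
      constructor
      · intro h1; exact absurd h1 (by simp)
      · rintro (⟨h1, _, h2⟩ | ⟨h1, _⟩) <;> omega
  · by_cases h' : x'.1 < M
    · rw [dif_neg h, dif_pos h']
      constructor
      · intro h1; exact absurd h1 (by simp)
      · rintro (⟨h1, _, h2⟩ | ⟨h1, _⟩) <;> omega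
    · rw [dif_neg h, dif_neg h']
      constructor
      · intro _; right; omega
      · intro _; rfl

lemma Lev.mono {M N : ℕ} (h : M ≤ N) {a : Set XX} (ha : Lev M a) : Lev N a := by
  intro x x' hx
  apply ha
  rw [trunc_eq_iff] at hx ⊢
  rcases hx with ⟨h1, h2, h3⟩ | ⟨h1, h2⟩
  · rcases lt_or_ge x.1 M with h4 | h4
    · left; exact ⟨h1, h4, fun i hi => h3 i (by omega)⟩
    · right; omega
  · right; omega

lemma Lev.iff {M : ℕ} {a : Set XX} (ha : Lev M a) {x x' : XX} (h : trunc M x = trunc M x') :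
    x ∈ a ↔ x' ∈ a := ⟨ha x x' h, ha x' x h.symm⟩

lemma lev_cyl (n D : ℕ) (y : Ct) : Lev (max (n + 1) D) (Cyl n D y) := by
  intro x x' h
  rw [trunc_eq_iff] at h
  rintro ⟨h1, h2⟩
  rcases h with ⟨h3, h4, h5⟩ | ⟨h3, h4⟩
  · refine ⟨h3 ▸ h1, fun i hi => ?_⟩
    rw [← h2 i hi]
    exact (h5 i (hi.trans_le (le_max_right _ _))).symm
  · exfalso
    have := (le_max_left (n + 1) D).trans h3
    omega

lemma lev_of_mem_base {a : Set XX} (ha : a ∈ base) : ∃ M, Lev M a := by
  unfold base at ha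
  induction ha using BooleanSubalgebra.closure_bot_sup_induction with
  | mem x hx => obtain ⟨n, D, y, rfl⟩ := hx; exact ⟨_, lev_cyl n D y⟩
  | bot => exact ⟨0, fun x x' _ hx => hx⟩
  | sup x _ y _ h1 h2 =>
    obtain ⟨M, hM⟩ := h1
    obtain ⟨N, hN⟩ := h2
    refine ⟨max M N, ?_⟩
    rintro z z' hz (h | h)
    · exact Or.inl ((hM.mono (le_max_left _ _)) z z' hz h)
    · exact Or.inr ((hN.mono (le_max_right _ _)) z z' hz h)
  | compl x _ h1 =>
    obtain ⟨M, hM⟩ := h1
    exact ⟨M, fun z z' hz h h' => h (hM z' z hz.symm h')⟩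

lemma countable_lev : {a : Set XX | ∃ M, Lev M a}.Countable := by
  have : {a : Set XX | ∃ M, Lev M a} ⊆ ⋃ M, range (fun T : Set (Option (Fin M × (Fin M → Bool))) => trunc M ⁻¹' T) := by
    rintro a ⟨M, hM⟩
    rw [mem_iUnion]
    refine ⟨M, trunc M '' a, ?_⟩
    ext x
    constructor
    · rintro ⟨x', hx', h⟩
      exact hM x' x h hx'
    · intro hx
      exact ⟨x, hx, rfl⟩
  refine Set.Countable.mono this (Set.countable_iUnion fun M => ?_)
  exact (Set.finite_range _).countable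

lemma countable_base : (base : Set (Set XX)).Countable :=
  countable_lev.mono (fun _ ha => lev_of_mem_base ha)

lemma ok_of_lev {M : ℕ} {a : Set XX} (ha : Lev M a) : Ok a := by
  refine ⟨?_, ?_, M, ?_⟩
  · intro n
    apply fl_measurableSet
    refine ⟨M, fun z z' h => propext (ha.iff ?_)⟩
    rw [trunc_eq_iff]
    rcases lt_or_ge n M with h1 | h1
    · left; exact ⟨rfl, h1, h⟩
    · right; exact ⟨h1, h1⟩
  · rintro ⟨x, hx⟩
    refine ⟨x.1, M, x.2, ?_⟩
    rintro z ⟨h1, h2⟩
    apply ha x z _ hx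
    rw [trunc_eq_iff]
    rcases lt_or_ge x.1 M with h3 | h3
    · left; exact ⟨h1.symm, h3, fun i hi => (h2 i hi).symm⟩
    · right; exact ⟨h3, by rw [h1]; exact h3⟩
  · intro n hn
    have h1 : ∀ y y' : Ct, y ∈ sec n a → y' ∈ sec n a := fun y y' hy =>
      ha (n, y) (n, y') (by rw [trunc_eq_iff]; right; exact ⟨hn, hn⟩) hy
    rcases (sec n a).eq_empty_or_nonempty with h2 | ⟨y, hy⟩
    · exact NN.of_sec_empty h2
    · refine ⟨0, fun k => ?_⟩
      have h3 : sec n a = univ := by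
        ext y'; simp only [mem_univ, iff_true]; exact h1 y y' hy
      rw [co, h3, cf_eq_zero MeasurableSet.univ k (fun y => by simp)]
      simp

lemma good_base : Good base where
  base := le_rfl
  ok := fun _ ha => by
    obtain ⟨M, hM⟩ := lev_of_mem_base ha
    exact ok_of_lev hM
  count := countable_base

/-- the embedding of a fibre -/
def fib (n : ℕ) (A : Set Ct) : Set XX := {x | x.1 = n ∧ x.2 ∈ A}

lemma sec_fib_self (n : ℕ) (A : Set Ct) : sec n (fib n A) = A := by
  ext y; simp [sec, fib]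

lemma sec_fib_ne {n m : ℕ} (h : m ≠ n) (A : Set Ct) : sec m (fib n A) = ∅ := by
  ext y; simp [sec, fib, h]

open Classical in
lemma fib_mem_base (n : ℕ) {A : Set Ct} (hA : FL (fun y => y ∈ A)) : fib n A ∈ base := by
  obtain ⟨M, hM⟩ := hA
  have : fib n A = ⋃ w ∈ (Finset.univ : Finset (Fin M → Bool)).filter
      (fun w => (fun i => if h : i < M then w ⟨i, h⟩ else false) ∈ A),
      Cyl n M (fun i => if h : i < M then w ⟨i, h⟩ else false) := by
    ext x
    simp only [mem_iUnion, Finset.mem_filter, Finset.mem_univ, true_and, exists_prop]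
    constructor
    · rintro ⟨h1, h2⟩
      refine ⟨fun i => x.2 i, ?_, h1, ?_⟩
      · have := hM x.2 (fun i => if h : i < M then x.2 i else false) (fun i hi => by simp [hi])
        exact this.mp h2
      · intro i hi; simp [hi]
    · rintro ⟨w, h1, h2, h3⟩
      refine ⟨h2, ?_⟩
      have := hM x.2 _ h3
      exact this.mpr h1
  rw [this]
  exact biUnion_mem _ _ (fun w _ => cyl_mem_base _ _ _)

/-- one-point extensions of good algebras -/
theorem good_adj {𝒜 : BooleanSubalgebra (Set XX)} (hG : Good 𝒜) {U : ℕ → Set XX} {a : Set XX}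
    (hS : Split 𝒜 U a) (hR : ∀ b ∈ 𝒜, ∃ m, ∀ n ≥ m, NN n (a ∩ b)) : Good (adj 𝒜 a) where
  base := hG.base.trans le_adj
  count := by
    have : (adj 𝒜 a : Set (Set XX)) = (fun p : Set XX × Set XX => (p.1 ∩ a) ∪ (p.2 \ a)) ''
        ((𝒜 : Set (Set XX)) ×ˢ (𝒜 : Set (Set XX))) := by
      ext x
      simp only [mem_image, mem_prod, Prod.exists]
      constructor
      · rintro ⟨b, hb, c, hc, rfl⟩
        exact ⟨b, c, ⟨hb, hc⟩, rfl⟩
      · rintro ⟨b, c, ⟨hb, hc⟩, rfl⟩
        exact ⟨b, hb, c, hc, rfl⟩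
    rw [this]
    exact (hG.count.prod hG.count).image _
  ok := by
    have hma : ∀ n, MeasurableSet (sec n a) := by
      intro n
      have : sec n a = ⋃ m, sec n (a \ U m) := by
        ext y
        simp only [mem_iUnion]
        constructor
        · intro hy
          obtain ⟨m, hm⟩ := hS.out (n, y) hy
          exact ⟨m, hy, hm⟩
        · rintro ⟨m, hy, _⟩
          exact hy
      rw [this]
      exact MeasurableSet.iUnion (fun m => (hG.ok _ (hS.sdiff m)).1 n)
    rintro _ ⟨b, hb, c, hc, rfl⟩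
    have hmb := (hG.ok b hb).1
    have hmc := (hG.ok c hc).1
    refine ⟨fun n => ((hmb n).inter (hma n)).union ((hmc n).diff (hma n)), ?_, ?_⟩
    · rintro ⟨x, ⟨hxb, hxa⟩ | ⟨hxc, hxa⟩⟩
      · obtain ⟨m, hm⟩ := hS.out x hxa
        obtain ⟨n, D, y, h⟩ := (hG.ok (b ∩ (a \ U m)) (inter_mem hb (hS.sdiff m))).2.1
          ⟨x, hxb, hxa, hm⟩
        exact ⟨n, D, y, h.trans (fun z hz => Or.inl ⟨hz.1, hz.2.1⟩)⟩
      · obtain ⟨m, hm | hm⟩ := hS.dec.dec c hc
        · obtain ⟨g, hg, hgne, hgU, hgd⟩ := hS.gap m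
          obtain ⟨n, D, y, h⟩ := (hG.ok g hg).2.1 hgne
          exact ⟨n, D, y, h.trans (fun z hz => Or.inr
            ⟨hm (hgU hz), fun h' => Set.disjoint_left.1 hgd hz h'⟩)⟩
        · have e : c \ a = c \ (a \ U m) := by
            ext z
            simp only [mem_sdiff]
            constructor
            · rintro ⟨h1, h2⟩
              exact ⟨h1, fun h3 => h2 h3.1⟩
            · rintro ⟨h1, h2⟩
              refine ⟨h1, fun h3 => h2 ⟨h3, fun h4 => ?_⟩⟩
              exact Set.disjoint_left.1 hm h4 h1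
          obtain ⟨n, D, y, h⟩ := (hG.ok (c \ (a \ U m)) (diff_mem hc (hS.sdiff m))).2.1
            ⟨x, e ▸ ⟨hxc, hxa⟩⟩
          rw [← e] at h
          exact ⟨n, D, y, h.trans subset_union_right⟩
    · obtain ⟨m₁, h₁⟩ := hR b hb
      obtain ⟨m₂, h₂⟩ := hR c hc
      obtain ⟨m₃, h₃⟩ := (hG.ok c hc).2.2
      refine ⟨max m₁ (max m₂ m₃), fun n hn => ?_⟩
      have hn1 : m₁ ≤ n := (le_max_left _ _).trans hn
      have hn2 : m₂ ≤ n := ((le_max_left _ _).trans (le_max_right _ _)).trans hn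
      have hn3 : m₃ ≤ n := ((le_max_right _ _).trans (le_max_right _ _)).trans hn
      have e1 : b ∩ a = a ∩ b := inter_comm _ _
      have e2 : c \ a = c \ (a ∩ c) := by
        ext z; simp only [mem_sdiff, mem_inter_iff]; tauto
      apply NN.union
      · rw [e1]; exact h₁ n hn1
      · rw [e2]
        exact NN.sdiff (h₃ n hn3) (h₂ n hn2) (hmc n) ((hma n).inter (hmc n)) inter_subset_right
      · exact (hmc n).diff (hma n)
      · exact Set.disjoint_left.2 (fun z h1 h2 => h2.2 h1.2)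

end Pool.Agent.Helper71.Nik
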