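import Pool.Agent.Helper71.Nik.Alg

/-! The abstract gliding hump. -/

namespace Pool.Agent.Helper71.Nik

open Set

variable {X : Type}

lemma exists_seq {σ : Type*} (P : ℕ → σ → Prop) (R : ℕ → σ → σ → Prop) (x0 : σ) (h0 : P 0 x0)
    (h : ∀ j x, P j x → ∃ y, P (j + 1) y ∧ R j x y) :
    ∃ x : ℕ → σ, x 0 = x0 ∧ ∀ j, P j (x j) ∧ R j (x j) (x (j + 1)) := by
  choose! f hf using h
  set s : (j : ℕ) → {x // P j x} := fun j => Nat.rec ⟨x0, h0⟩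
    (fun j x => ⟨f j x.1, (hf j x.1 x.2).1⟩) j with hs
  exact ⟨fun j => (s j).1, rfl, fun j => ⟨(s j).2, (hf j (s j).1 (s j).2).2⟩⟩

/-- one step of the gliding hump -/
def HumpRel (𝒜 : BooleanSubalgebra (Set X)) (U : ℕ → Set X) (μ : ℕ → Set X → ℝ)
    (Comp : ℕ → Set X → Prop) (j : ℕ) (x y : ℕ × Set X) : Prop :=
  x.1 < y.1 ∧ (∃ c ∈ 𝒜, c ⊆ U x.1 \ U y.1 ∧ y.2 = x.2 ∪ c ∧ Comp j c) ∧
  (∃ g ∈ 𝒜, g.Nonempty ∧ g ⊆ U x.1 \ U y.1 ∧ Disjoint g y.2) ∧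
  (∃ k, ∀ m ≥ y.1, ∀ Z ∈ 𝒜, Z ⊆ U y.1 \ U m → (j : ℝ) ≤ |μ k (y.2 ∪ Z)|) ∧
  (∃ k, ∀ m ≥ y.1, ∀ Z ∈ 𝒜, Z ⊆ U y.1 \ U m → (j : ℝ) ≤ |μ k (y.2 ∪ Z ∪ U m)|)

section

variable {𝒜 : BooleanSubalgebra (Set X)} {U : ℕ → Set X} {μ : ℕ → Set X → ℝ}
  {Comp : ℕ → Set X → Prop}

lemma tail_mono {ν : Set X → ℝ} (hU : Dec 𝒜 U) (hF : FA 𝒜 ν) (hB : Bdd 𝒜 ν) {i i' m : ℕ}
    (h : i ≤ i') {ε : ℝ} (ht : ∀ l, i ≤ l → var 𝒜 ν (U i \ U l) ≤ ε) (hm : i' ≤ m)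
    {Z : Set X} (hZ : Z ∈ 𝒜) (hZU : Z ⊆ U i' \ U m) : |ν Z| ≤ ε := by
  refine le_trans ?_ (ht m (h.trans hm))
  exact abs_le_var hF hB (diff_mem (hU.mem _) (hU.mem _)) hZ
    (hZU.trans (Set.sdiff_subset_sdiff_left (hU.anti h)))

theorem hump_step (hU : Dec 𝒜 U) (hF : ∀ k, FA 𝒜 (μ k)) (hB : ∀ k, Bdd 𝒜 (μ k))
    (hpt : ∀ a ∈ 𝒜, ∃ C, ∀ k, |μ k a| ≤ C)
    (hOr : ∀ (j i : ℕ) (D : ℝ), ∃ k i', i < i' ∧ ∃ c ∈ 𝒜, c ⊆ U i \ U i' ∧ D ≤ |μ k c| ∧ Comp j c)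
    (hsp : ∀ i, ∃ i', i < i' ∧ (U i \ U i').Nonempty) (j : ℕ) (x : ℕ × Set X)
    (hx : x.2 ∈ 𝒜 ∧ Disjoint x.2 (U x.1)) :
    ∃ y : ℕ × Set X, (y.2 ∈ 𝒜 ∧ Disjoint y.2 (U y.1)) ∧ HumpRel 𝒜 U μ Comp j x y := by
  obtain ⟨i, A⟩ := x
  obtain ⟨hA, hd⟩ := hx
  simp only at hA hd
  obtain ⟨D, hD⟩ := hpt A hA
  by_cases hBL : ∃ M : ℝ, ∀ k, ∃ i₀, ∀ l ≥ i₀, |μ k (U l)| ≤ M
  · obtain ⟨M, hM⟩ := hBL
    have hM0 : 0 ≤ M := by
      obtain ⟨i₀, hi₀⟩ := hM 0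
      exact (abs_nonneg _).trans (hi₀ i₀ le_rfl)
    obtain ⟨k, i₁, hi₁, c, hc, hcU, hck, hcomp⟩ := hOr j i (j + 1 + D + M)
    obtain ⟨i₂, hi₂, ht⟩ := tail_small hU (hF k) (hB k) (show (0 : ℝ) < 1 by norm_num) i₁
    obtain ⟨i₃, hi₃⟩ := hM k
    obtain ⟨i', hi', hg⟩ := hsp (max i₂ i₃)
    have h2' : i₂ ≤ i' := (le_max_left _ _).trans hi'.le
    have h3' : i₃ ≤ i' := (le_max_right _ _).trans hi'.le
    have h1' : i₁ ≤ i' := hi₂.trans h2'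
    have hcA : Disjoint A c := hd.mono_right (hcU.trans Set.sdiff_subset)
    have hcU' : c ⊆ U i \ U i' := hcU.trans (Set.sdiff_subset_sdiff_right (hU.anti h1'))
    have hdA' : Disjoint (A ∪ c) (U i') := by
      rw [Set.disjoint_union_left]
      refine ⟨hd.mono_right (hU.anti (hi₁.le.trans h1')), ?_⟩
      exact (Set.disjoint_sdiff_left).mono_left hcU'
    have hα : ∀ m ≥ i', ∀ Z ∈ 𝒜, Z ⊆ U i' \ U m → (j : ℝ) + M ≤ |μ k (A ∪ c ∪ Z)| := by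
      intro m hm Z hZ hZU
      have e1 : μ k (A ∪ c ∪ Z) = μ k A + μ k c + μ k Z := by
        rw [hF k _ (union_mem hA hc) _ hZ (hdA'.mono_right (hZU.trans Set.sdiff_subset)),
          hF k _ hA _ hc hcA]
      have e2 := tail_mono hU (hF k) (hB k) h2' ht hm hZ hZU
      have e3 := hD k
      rw [e1]
      rw [abs_le] at e2 e3
      rcases le_abs'.1 hck with h | h
      · rw [le_abs']; left; linarith
      · rw [le_abs']; right; linarith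
    refine ⟨(i', A ∪ c), ⟨union_mem hA hc, hdA'⟩, hi₁.trans_le h1', ⟨c, hc, hcU', rfl, hcomp⟩,
      ⟨U (max i₂ i₃) \ U i', diff_mem (hU.mem _) (hU.mem _), hg, ?_, ?_⟩, ⟨k, ?_⟩, ⟨k, ?_⟩⟩
    · exact Set.sdiff_subset_sdiff_left (hU.anti ((hi₁.le.trans hi₂).trans (le_max_left _ _)))
    · show Disjoint _ (A ∪ c)
      rw [Set.disjoint_union_right]
      constructor
      · exact (hd.mono_right (hU.anti ((hi₁.le.trans hi₂).trans (le_max_left _ _)))).symm.mono_left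
          Set.sdiff_subset
      · have : Disjoint c (U i₁) := (Set.disjoint_sdiff_left).mono_left hcU
        exact (this.mono_right (hU.anti (hi₂.trans (le_max_left _ _)))).symm.mono_left
          Set.sdiff_subset
    · intro m hm Z hZ hZU
      have := hα m hm Z hZ hZU
      show (j : ℝ) ≤ |μ k (A ∪ c ∪ Z)|
      linarith
    · intro m hm Z hZ hZU
      have e1 := hα m hm Z hZ hZU
      have e2 : |μ k (U m)| ≤ M := hi₃ m (h3'.trans hm)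
      show (j : ℝ) ≤ |μ k (A ∪ c ∪ Z ∪ U m)|
      have hdm : Disjoint (A ∪ c ∪ Z) (U m) := by
        rw [Set.disjoint_union_left]
        refine ⟨hdA'.mono_right (hU.anti hm), (Set.disjoint_sdiff_left).mono_left hZU⟩
      rw [hF k _ (union_mem (union_mem hA hc) hZ) _ (hU.mem m) hdm]
      rw [abs_le] at e2
      rcases le_abs'.1 e1 with h | h
      · rw [le_abs']; left; linarith
      · rw [le_abs']; right; linarith
  · push Not at hBL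
    obtain ⟨k, i₁, hi₁, c, hc, hcU, hck, hcomp⟩ := hOr j i (j + 1 + D)
    obtain ⟨D', hD'⟩ := hpt (A ∪ c) (union_mem hA hc)
    obtain ⟨k', hk'⟩ := hBL (j + 2 + D')
    obtain ⟨i₂, hi₂, ht⟩ := tail_small hU (hF k) (hB k) (show (0 : ℝ) < 1 by norm_num) i₁
    obtain ⟨i₃, hi₃, ht'⟩ := tail_small hU (hF k') (hB k') (show (0 : ℝ) < 1 by norm_num) i₂
    obtain ⟨i', hi', hg⟩ := hsp i₃
    have h3' : i₃ ≤ i' := hi'.le
    have h2' : i₂ ≤ i' := hi₃.trans h3'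
    have h1' : i₁ ≤ i' := hi₂.trans h2'
    have hcA : Disjoint A c := hd.mono_right (hcU.trans Set.sdiff_subset)
    have hcU' : c ⊆ U i \ U i' := hcU.trans (Set.sdiff_subset_sdiff_right (hU.anti h1'))
    have hdA' : Disjoint (A ∪ c) (U i') := by
      rw [Set.disjoint_union_left]
      refine ⟨hd.mono_right (hU.anti (hi₁.le.trans h1')), ?_⟩
      exact (Set.disjoint_sdiff_left).mono_left hcU'
    refine ⟨(i', A ∪ c), ⟨union_mem hA hc, hdA'⟩, hi₁.trans_le h1', ⟨c, hc, hcU', rfl, hcomp⟩,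
      ⟨U i₃ \ U i', diff_mem (hU.mem _) (hU.mem _), hg, ?_, ?_⟩, ⟨k, ?_⟩, ⟨k', ?_⟩⟩
    · exact Set.sdiff_subset_sdiff_left (hU.anti ((hi₁.le.trans hi₂).trans hi₃))
    · show Disjoint _ (A ∪ c)
      rw [Set.disjoint_union_right]
      constructor
      · exact (hd.mono_right (hU.anti ((hi₁.le.trans hi₂).trans hi₃))).symm.mono_left
          Set.sdiff_subset
      · have : Disjoint c (U i₁) := (Set.disjoint_sdiff_left).mono_left hcU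
        exact (this.mono_right (hU.anti (hi₂.trans hi₃))).symm.mono_left
          Set.sdiff_subset
    · intro m hm Z hZ hZU
      show (j : ℝ) ≤ |μ k (A ∪ c ∪ Z)|
      have e1 : μ k (A ∪ c ∪ Z) = μ k A + μ k c + μ k Z := by
        rw [hF k _ (union_mem hA hc) _ hZ (hdA'.mono_right (hZU.trans Set.sdiff_subset)),
          hF k _ hA _ hc hcA]
      have e2 := tail_mono hU (hF k) (hB k) h2' ht hm hZ hZU
      have e3 := hD k
      rw [e1]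
      rw [abs_le] at e2 e3
      rcases le_abs'.1 hck with h | h
      · rw [le_abs']; left; linarith
      · rw [le_abs']; right; linarith
    · intro m hm Z hZ hZU
      show (j : ℝ) ≤ |μ k' (A ∪ c ∪ Z ∪ U m)|
      have hdm : Disjoint (A ∪ c ∪ Z) (U m) := by
        rw [Set.disjoint_union_left]
        refine ⟨hdA'.mono_right (hU.anti hm), (Set.disjoint_sdiff_left).mono_left hZU⟩
      rw [hF k' _ (union_mem (union_mem hA hc) hZ) _ (hU.mem m) hdm,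
        hF k' _ (union_mem hA hc) _ hZ (hdA'.mono_right (hZU.trans Set.sdiff_subset))]
      have e2 := tail_mono hU (hF k') (hB k') h3' ht' hm hZ hZU
      have e3 := hD' k'
      obtain ⟨l, hl, hlt⟩ := hk' m
      have e4 : μ k' (U m \ U l) = μ k' (U m) - μ k' (U l) :=
        (hF k').diff (hU.mem _) (hU.mem _) (hU.anti hl)
      have e5 : |μ k' (U m \ U l)| ≤ 1 :=
        tail_mono hU (hF k') (hB k') (h3'.trans hm) ht' hl (diff_mem (hU.mem _) (hU.mem _)) le_rfl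
      rw [e4] at e5
      rw [abs_le] at e2 e3 e5
      rcases lt_abs.1 hlt with h | h
      · rw [le_abs']; right; linarith
      · rw [le_abs']; left; linarith

theorem hump (hU : Dec 𝒜 U) (hF : ∀ k, FA 𝒜 (μ k)) (hB : ∀ k, Bdd 𝒜 (μ k))
    (hpt : ∀ a ∈ 𝒜, ∃ C, ∀ k, |μ k a| ≤ C)
    (hOr : ∀ (j i : ℕ) (D : ℝ), ∃ k i', i < i' ∧ ∃ c ∈ 𝒜, c ⊆ U i \ U i' ∧ D ≤ |μ k c| ∧ Comp j c)
    (hsp : ∀ i, ∃ i', i < i' ∧ (U i \ U i').Nonempty) :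
    ∃ x : ℕ → ℕ × Set X, (x 0).2 = ∅ ∧ (∀ j, (x j).2 ∈ 𝒜) ∧
      ∀ j, HumpRel 𝒜 U μ Comp j (x j) (x (j + 1)) := by
  obtain ⟨x, hx0, hx⟩ := exists_seq (fun _ (x : ℕ × Set X) => x.2 ∈ 𝒜 ∧ Disjoint x.2 (U x.1))
    (HumpRel 𝒜 U μ Comp) (0, ∅) ⟨empty_mem, by simp⟩
    (fun j x h => hump_step hU hF hB hpt hOr hsp j x h)
  exact ⟨x, by rw [hx0], fun j => (hx j).1.1, fun j => (hx j).2⟩

end

end Pool.Agent.Helper71.Nik
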