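import Pool.Agent.Helper71.Nik.Task

/-! Killing a pointwise bounded, norm unbounded sequence of measures. -/

namespace Pool.Agent.Helper71.Nik

open MeasureTheory Set

/-- the correction property -/
def L2 (𝒜 : BooleanSubalgebra (Set XX)) : Prop :=
  ∀ n, ∀ b ∈ 𝒜, b ⊆ V n → ∀ D y, ∃ c ∈ 𝒜, c ⊆ V n ∧ c \ Cyl n D y = b \ Cyl n D y ∧ NN n c

/-- pointwise bounded and unbounded in norm -/
def Bad {X : Type} (𝒜 : BooleanSubalgebra (Set X)) (μ : ℕ → Set X → ℝ) : Prop :=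
  (∀ k, FA 𝒜 (μ k)) ∧ (∀ k, Bdd 𝒜 (μ k)) ∧ (∀ a ∈ 𝒜, ∃ C, ∀ k, |μ k a| ≤ C) ∧
    ∀ C : ℝ, ∃ k, C < var 𝒜 (μ k) univ

/-- unbounded variation on a member -/
def Unb {X : Type} (𝒜 : BooleanSubalgebra (Set X)) (μ : ℕ → Set X → ℝ) (W : Set X) : Prop :=
  ∀ C : ℝ, ∃ k, C < var 𝒜 (μ k) W

section general

variable {X : Type} {𝒜 : BooleanSubalgebra (Set X)} {μ : ℕ → Set X → ℝ}

lemma unb_split (hF : ∀ k, FA 𝒜 (μ k)) (hB : ∀ k, Bdd 𝒜 (μ k)) :
    ∀ W ∈ 𝒜, ∀ b ∈ 𝒜, Unb 𝒜 μ W → Unb 𝒜 μ (W ∩ b) ∨ Unb 𝒜 μ (W \ b) := by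
  intro W hW b hb h
  by_contra hcon
  rw [not_or] at hcon
  obtain ⟨h1, h2⟩ := hcon
  unfold Unb at h1 h2
  push Not at h1 h2
  obtain ⟨C₁, hC₁⟩ := h1
  obtain ⟨C₂, hC₂⟩ := h2
  obtain ⟨k, hk⟩ := h (C₁ + C₂)
  have e : W = (W ∩ b) ∪ (W \ b) := (Set.inter_union_sdiff W b).symm
  have e2 := var_union (hF k) (hB k) (inter_mem hW hb) (diff_mem hW hb)
    (Set.disjoint_left.2 (fun x h1 h2 => h2.2 h1.2))
  rw [← e] at e2
  have := hC₁ k
  have := hC₂ k
  linarith

lemma claim1 (hF : ∀ k, FA 𝒜 (μ k)) (hB : ∀ k, Bdd 𝒜 (μ k)) (hpt : ∀ a ∈ 𝒜, ∃ C, ∀ k, |μ k a| ≤ C)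
    {U : ℕ → Set X} (hU : Dec 𝒜 U) (hunb : ∀ i, Unb 𝒜 μ (U i)) (i : ℕ) (C : ℝ) :
    ∃ k i', i < i' ∧ C < var 𝒜 (μ k) (U i \ U i') := by
  by_contra hcon
  push Not at hcon
  obtain ⟨M, hM⟩ := hpt (U i) (hU.mem i)
  obtain ⟨k, hk⟩ := hunb i (2 * C + 1 + M)
  obtain ⟨i', hi', ha⟩ := atom_like hU (hF k) (hB k) (i + 1)
  have hii' : i < i' := by omega
  have h1 := hcon k i' hii'
  have h2 := var_diff (hF k) (hB k) (hU.mem i) (hU.mem i') (hU.anti hii'.le)
  have h3 := abs_le_var (hF k) (hB k) (diff_mem (hU.mem i) (hU.mem i'))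
    (diff_mem (hU.mem i) (hU.mem i')) le_rfl
  have h4 := (hF k).diff (hU.mem i) (hU.mem i') (hU.anti hii'.le)
  have h5 := hM k
  have h6 : |μ k (U i')| ≤ M + C := by
    have : μ k (U i') = μ k (U i) - μ k (U i \ U i') := by linarith
    rw [this]
    refine (abs_sub _ _).trans ?_
    linarith
  linarith

end general

variable {𝒜 : BooleanSubalgebra (Set XX)}

lemma small_cyl (hG : Good 𝒜) {ν : Set XX → ℝ} (hF : FA 𝒜 ν) (hB : Bdd 𝒜 ν) {n : ℕ} {R : Set XX}
    (hR : R ∈ 𝒜) (hRV : R ⊆ V n) (hne : R.Nonempty) {δ : ℝ} (hδ : 0 < δ) :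
    ∃ D y, Cyl n D y ⊆ R ∧ var 𝒜 ν (Cyl n D y) ≤ δ := by
  have key : ∀ N : ℕ, ∃ D y, Cyl n D y ⊆ R ∧ var 𝒜 ν (Cyl n D y) ≤ var 𝒜 ν R / 2 ^ N := by
    intro N
    induction N with
    | zero =>
      obtain ⟨n₁, D, y, h⟩ := (hG.ok R hR).2.1 hne
      have : n₁ = n := hRV (h (show (n₁, y) ∈ _ from ⟨rfl, mem_cyl_self _ _⟩))
      subst this
      refine ⟨D, y, h, ?_⟩
      rw [pow_zero, div_one]
      exact var_mono hF hB hR (hG.base (cyl_mem_base _ _ _)) h
    | succ N ih =>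
      obtain ⟨D, y, h1, h2⟩ := ih
      obtain ⟨y0, y1, h3, h4, h5⟩ := halves n D y
      have hm : ∀ D y, Cyl n D y ∈ 𝒜 := fun D y => hG.base (cyl_mem_base _ _ _)
      have h6 := var_union hF hB (hm (D + 1) y0) (hm (D + 1) y1) h5
      have h7 := var_mono hF hB (hm D y) (union_mem (hm (D + 1) y0) (hm (D + 1) y1))
        (union_subset h3 h4)
      have h8 : var 𝒜 ν R / 2 ^ (N + 1) = (var 𝒜 ν R / 2 ^ N) / 2 := by
        rw [pow_succ]; field_simp
      rw [h8]
      rcases le_total (var 𝒜 ν (Cyl n (D + 1) y0)) (var 𝒜 ν (Cyl n (D + 1) y1)) with h | h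
      · exact ⟨D + 1, y0, h3.trans h1, by linarith⟩
      · exact ⟨D + 1, y1, h4.trans h1, by linarith⟩
  have hv := var_nonneg hF hB hR
  obtain ⟨N, hN⟩ := pow_unbounded_of_one_lt (var 𝒜 ν R / δ) (show (1 : ℝ) < 2 by norm_num)
  obtain ⟨D, y, h1, h2⟩ := key N
  refine ⟨D, y, h1, h2.trans ?_⟩
  rw [div_lt_iff₀ hδ] at hN
  rw [div_le_iff₀ (by positivity)]
  linarith

lemma corr (hG : Good 𝒜) (hL : L2 𝒜) {ν : Set XX → ℝ} (hF : FA 𝒜 ν) (hB : Bdd 𝒜 ν)
    (e : ℕ → Set XX) (he : ∀ i, e i ∈ 𝒜) (n : ℕ) (J : ℕ) :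
    ∀ δ : ℝ, 0 < δ → ∀ R ∈ 𝒜, R ⊆ V n → ∀ b ∈ 𝒜, b ⊆ R →
      ∃ c ∈ 𝒜, c ⊆ R ∧ |ν c - ν b| ≤ δ ∧ NN n c ∧ ∀ i < J, NN n (c ∩ e i) := by
  induction J with
  | zero =>
    intro δ hδ R hR hRV b hb hbR
    rcases R.eq_empty_or_nonempty with h | hne
    · subst h
      have : b = ∅ := Set.subset_empty_iff.1 hbR
      subst this
      exact ⟨∅, hb, le_rfl, by simpa using hδ.le, NN.of_sec_empty rfl, fun i hi => absurd hi (by omega)⟩
    · obtain ⟨D, y, hs, hvs⟩ := small_cyl hG hF hB hR hRV hne (half_pos hδ)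
      obtain ⟨c, hc, hcV, hcs, hcN⟩ := hL n b hb (hbR.trans hRV) D y
      have hsA : Cyl n D y ∈ 𝒜 := hG.base (cyl_mem_base _ _ _)
      refine ⟨c, hc, ?_, ?_, hcN, fun i hi => absurd hi (by omega)⟩
      · intro x hx
        by_cases hxs : x ∈ Cyl n D y
        · exact hs hxs
        · have : x ∈ b \ Cyl n D y := hcs ▸ ⟨hx, hxs⟩
          exact hbR this.1
      · have e1 : ∀ z ∈ 𝒜, ν z = ν (z ∩ Cyl n D y) + ν (z \ Cyl n D y) := by
          intro z hz
          rw [← hF _ (inter_mem hz hsA) _ (diff_mem hz hsA)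
            (Set.disjoint_left.2 (fun x h1 h2 => h2.2 h1.2)), Set.inter_union_sdiff]
        rw [e1 c hc, e1 b hb, hcs]
        have h1 := abs_le_var hF hB hsA (inter_mem hc hsA) inter_subset_right
        have h2 := abs_le_var hF hB hsA (inter_mem hb hsA) inter_subset_right
        have h3 : ν (c ∩ Cyl n D y) + ν (b \ Cyl n D y) - (ν (b ∩ Cyl n D y) + ν (b \ Cyl n D y))
            = ν (c ∩ Cyl n D y) - ν (b ∩ Cyl n D y) := by ring
        rw [h3]
        refine (abs_sub _ _).trans ?_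
        linarith
  | succ J ih =>
    intro δ hδ R hR hRV b hb hbR
    obtain ⟨c₁, hc₁, hc₁R, hc₁ν, hc₁N, hc₁i⟩ := ih (δ / 2) (half_pos hδ) (R ∩ e J)
      (inter_mem hR (he J)) (inter_subset_left.trans hRV) (b ∩ e J) (inter_mem hb (he J))
      (inter_subset_inter_left _ hbR)
    obtain ⟨c₂, hc₂, hc₂R, hc₂ν, hc₂N, hc₂i⟩ := ih (δ / 2) (half_pos hδ) (R \ e J)
      (diff_mem hR (he J)) (Set.sdiff_subset.trans hRV) (b \ e J) (diff_mem hb (he J))
      (Set.sdiff_subset_sdiff_left hbR)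
    have hd : Disjoint c₁ c₂ := Set.disjoint_left.2 (fun x h1 h2 => (hc₂R h2).2 (hc₁R h1).2)
    have hm₂ := (hG.ok c₂ hc₂).1 n
    refine ⟨c₁ ∪ c₂, union_mem hc₁ hc₂, union_subset (hc₁R.trans inter_subset_left)
      (hc₂R.trans Set.sdiff_subset), ?_, NN.union hc₁N hc₂N hm₂ hd, ?_⟩
    · rw [hF _ hc₁ _ hc₂ hd]
      have e1 : ν b = ν (b ∩ e J) + ν (b \ e J) := by
        rw [← hF _ (inter_mem hb (he J)) _ (diff_mem hb (he J))
            (Set.disjoint_left.2 (fun x h1 h2 => h2.2 h1.2)), Set.inter_union_sdiff]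
      rw [e1]
      have h3 : ν c₁ + ν c₂ - (ν (b ∩ e J) + ν (b \ e J))
          = (ν c₁ - ν (b ∩ e J)) + (ν c₂ - ν (b \ e J)) := by ring
      rw [h3]
      refine (abs_add_le _ _).trans ?_
      linarith
    · intro i hi
      rcases Nat.lt_succ_iff_lt_or_eq.1 hi with h | h
      · rw [union_inter_distrib_right]
        refine NN.union (hc₁i i h) (hc₂i i h) ?_ (hd.mono inter_subset_left inter_subset_left)
        exact (hG.ok _ (inter_mem hc₂ (he i))).1 n
      · subst h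
        have : (c₁ ∪ c₂) ∩ e i = c₁ := by
          ext x
          simp only [mem_inter_iff, mem_union]
          constructor
          · rintro ⟨h1 | h1, h2⟩
            · exact h1
            · exact absurd h2 (hc₂R h1).2
          · intro h1
            exact ⟨Or.inl h1, (hc₁R h1).2⟩
        rw [this]
        exact hc₁N

lemma corr_all (hG : Good 𝒜) (hL : L2 𝒜) {ν : Set XX → ℝ} (hF : FA 𝒜 ν) (hB : Bdd 𝒜 ν)
    (e : ℕ → Set XX) (he : ∀ i, e i ∈ 𝒜) (J : ℕ) {R b : Set XX} (hR : R ∈ 𝒜) (hb : b ∈ 𝒜)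
    (hbR : b ⊆ R) : ∃ c ∈ 𝒜, c ⊆ R ∧ |ν c - ν b| ≤ 1 ∧ ∀ n, ∀ i < J, NN n (c ∩ e i) := by
  -- a common threshold
  have hM : ∃ M, ∀ n ≥ M, ∀ i < J, NN n (b ∩ e i) := by
    have h1 : ∀ i, ∃ m, ∀ n ≥ m, NN n (b ∩ e i) := fun i => (hG.ok _ (inter_mem hb (he i))).2.2
    choose m hm using h1
    refine ⟨(Finset.range J).sup m, fun n hn i hi => hm i n ?_⟩
    exact (Finset.le_sup (f := m) (Finset.mem_range.2 hi)).trans hn
  obtain ⟨M, hM⟩ := hM
  have hVm : ∀ n, V n ∈ 𝒜 := fun n => hG.base (V_mem_base n)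
  have key : ∀ N : ℕ, ∃ c ∈ 𝒜, c ⊆ R ∧ |ν c - ν b| ≤ N * (1 / (M + 1)) ∧ c ∩ T N = b ∩ T N ∧
      ∀ n < N, ∀ i < J, NN n (c ∩ e i) := by
    intro N
    induction N with
    | zero => exact ⟨b, hb, hbR, by simp, rfl, fun n hn => absurd hn (by omega)⟩
    | succ N ih =>
      obtain ⟨c, hc, hcR, hcν, hcT, hcN⟩ := ih
      obtain ⟨d, hd, hdR, hdν, _, hdi⟩ := corr hG hL hF hB e he N J (1 / (M + 1)) (by positivity)
        (R ∩ V N) (inter_mem hR (hVm N)) inter_subset_right (c ∩ V N) (inter_mem hc (hVm N))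
        (inter_subset_inter_left _ hcR)
      have hdis : Disjoint (c \ V N) d := Set.disjoint_left.2 (fun x h1 h2 => h1.2 (hdR h2).2)
      refine ⟨(c \ V N) ∪ d, union_mem (diff_mem hc (hVm N)) hd,
        union_subset (Set.sdiff_subset.trans hcR) (hdR.trans inter_subset_left), ?_, ?_, ?_⟩
      · rw [hF _ (diff_mem hc (hVm N)) _ hd hdis]
        have e1 : ν c = ν (c ∩ V N) + ν (c \ V N) := by
          rw [← hF _ (inter_mem hc (hVm N)) _ (diff_mem hc (hVm N))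
            (Set.disjoint_left.2 (fun x h1 h2 => h2.2 h1.2)), Set.inter_union_sdiff]
        have h3 : ν (c \ V N) + ν d - ν b = (ν c - ν b) + (ν d - ν (c ∩ V N)) := by
          rw [e1]; ring
        rw [h3]
        refine (abs_add_le _ _).trans ?_
        push_cast
        have : ((N : ℝ) + 1) * (1 / (M + 1)) = N * (1 / (M + 1)) + 1 / (M + 1) := by ring
        rw [this]
        exact add_le_add hcν hdν
      · ext x
        constructor
        · rintro ⟨⟨h1, h2⟩ | h1, h3⟩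
          · have : x ∈ b ∩ T N := hcT ▸ ⟨h1, (Nat.le_succ N).trans h3⟩
            exact ⟨this.1, h3⟩
          · exfalso
            have h4 : x.1 = N := (hdR h1).2
            have h5 : N + 1 ≤ x.1 := h3
            omega
        · rintro ⟨h1, h3⟩
          have h5 : N + 1 ≤ x.1 := h3
          have : x ∈ c ∩ T N := hcT.symm ▸ ⟨h1, show N ≤ x.1 by omega⟩
          refine ⟨Or.inl ⟨this.1, fun h4 => ?_⟩, h3⟩
          have h6 : x.1 = N := h4
          omega
      · intro n hn i hi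
        rcases Nat.lt_succ_iff_lt_or_eq.1 hn with h | h
        · refine (hcN n h i hi).congr ?_
          ext y
          simp only [sec, mem_inter_iff, mem_union, mem_sdiff, Set.mem_ofPred_eq, V]
          constructor
          · rintro ⟨h1, h2⟩
            exact ⟨Or.inl ⟨h1, by omega⟩, h2⟩
          · rintro ⟨⟨h1, _⟩ | h1, h2⟩
            · exact ⟨h1, h2⟩
            · exfalso
              have h4 : n = N := (hdR h1).2
              omega
        · subst h
          refine (hdi i hi).congr ?_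
          ext y
          simp only [sec, mem_inter_iff, mem_union, mem_sdiff, Set.mem_ofPred_eq, V]
          constructor
          · rintro ⟨h1, h2⟩
            exact ⟨Or.inr h1, h2⟩
          · rintro ⟨⟨_, h1⟩ | h1, h2⟩
            · exact absurd trivial h1
            · exact ⟨h1, h2⟩
  obtain ⟨c, hc, hcR, hcν, hcT, hcN⟩ := key M
  refine ⟨c, hc, hcR, hcν.trans ?_, fun n i hi => ?_⟩
  · rw [mul_one_div, div_le_one (by positivity)]
    linarith
  · rcases lt_or_ge n M with h | h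
    · exact hcN n h i hi
    · refine (hM n h i hi).congr ?_
      ext y
      have h1 : (n, y) ∈ T M := h
      have h2 : (n, y) ∈ b ∩ T M ↔ (n, y) ∈ c ∩ T M := by rw [hcT]
      simp only [sec, mem_inter_iff, Set.mem_ofPred_eq] at h2 ⊢
      tauto

theorem kill (hG : Good 𝒜) (hL : L2 𝒜) {μ : ℕ → Set XX → ℝ} (hμ : Bad 𝒜 μ) :
    ∃ U a, Simple 𝒜 a ∧ Good (adj 𝒜 a) ∧ Killed 𝒜 U μ a := by
  obtain ⟨hF, hB, hpt, hunb⟩ := hμ
  have hVm : ∀ n, V n ∈ 𝒜 := fun n => hG.base (V_mem_base n)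
  by_cases hcase : ∃ n, Unb 𝒜 μ (V n)
  · obtain ⟨n, hn⟩ := hcase
    obtain ⟨U, hU, hU0, hUu⟩ := exists_dec hG.count (Unb 𝒜 μ) (unb_split hF hB) (hVm n) hn
    have hc1 := claim1 hF hB hpt hU hUu
    obtain ⟨c, hc, _, hcU, _, hsplit, hkill⟩ := hump_final (Comp := fun _ _ => True) hU hF hB hpt
      (by
        intro j i D
        obtain ⟨k, i', hi', hlt⟩ := hc1 i (2 * (D + 1))
        obtain ⟨c, hc, hcU, hck⟩ := exists_half (hF k) (hB k) (diff_mem (hU.mem i) (hU.mem i'))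
          (show (0 : ℝ) < 1 by norm_num)
        exact ⟨k, i', hi', c, hc, hcU, by linarith, trivial⟩)
      (by
        intro i
        obtain ⟨k, i', hi', hlt⟩ := hc1 i 0
        refine ⟨i', hi', ?_⟩
        by_contra hne
        rw [Set.not_nonempty_iff_eq_empty] at hne
        rw [hne, var_empty (hF k) (hB k)] at hlt
        exact lt_irrefl _ hlt)
    refine ⟨U, ⋃ j, c j, hsplit.simple, good_adj hG hsplit ?_, hkill⟩
    intro b _
    refine ⟨n + 1, fun m hm => NN.of_sec_empty ?_⟩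
    rw [Set.eq_empty_iff_forall_notMem]
    rintro y ⟨h1, _⟩
    obtain ⟨j, hj⟩ := mem_iUnion.1 h1
    have h2 := hcU j hj
    rw [hU0] at h2
    have : m = n := h2
    omega
  · push Not at hcase
    have hcase2 : ∀ n, ∃ C : ℝ, ∀ k, var 𝒜 (μ k) (V n) ≤ C := by
      intro n
      have := hcase n
      unfold Unb at this
      push Not at this
      exact this
    have hTm : ∀ j, T j ∈ 𝒜 := fun j => hG.base (T_mem_base j)
    have hTc : ∀ j, ∃ C : ℝ, ∀ k, var 𝒜 (μ k) ((T j)ᶜ) ≤ C := by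
      intro j
      induction j with
      | zero =>
        refine ⟨0, fun k => ?_⟩
        have : (T 0)ᶜ = ∅ := by ext x; simp [T]
        rw [this, var_empty (hF k) (hB k)]
      | succ j ih =>
        obtain ⟨C, hC⟩ := ih
        obtain ⟨C', hC'⟩ := hcase2 j
        refine ⟨C + C', fun k => ?_⟩
        have : (T (j + 1))ᶜ = (T j)ᶜ ∪ V j := by
          ext x
          simp only [T, V, mem_compl_iff, mem_union, Set.mem_ofPred_eq]
          omega
        rw [this]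
        exact (var_union_le (hF k) (hB k) (compl_mem (hTm j)) (hVm j)).trans
          (add_le_add (hC k) (hC' k))
    obtain ⟨U, hU, hU0, hUu⟩ := exists_dec hG.count (Unb 𝒜 μ) (unb_split hF hB) univ_mem hunb
    have hc1 := claim1 hF hB hpt hU hUu
    obtain ⟨e, he⟩ := hG.count.exists_eq_range ⟨∅, empty_mem⟩
    have hem : ∀ i, e i ∈ 𝒜 := fun i => by
      have : e i ∈ (𝒜 : Set (Set XX)) := by rw [he]; exact ⟨i, rfl⟩
      exact this
    obtain ⟨c, hc, hcomp, hcU, hcd, hsplit, hkill⟩ := hump_final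
      (Comp := fun j c => c ⊆ T j ∧ ∀ n, ∀ i < j, NN n (c ∩ e i)) hU hF hB hpt
      (by
        intro j i D
        obtain ⟨Λ, hΛ⟩ := hTc j
        obtain ⟨k, i', hi', hlt⟩ := hc1 i (2 * (D + 2) + Λ)
        have hUU : U i \ U i' ∈ 𝒜 := diff_mem (hU.mem i) (hU.mem i')
        have hRm : (U i \ U i') ∩ T j ∈ 𝒜 := inter_mem hUU (hTm j)
        have h1 : var 𝒜 (μ k) (U i \ U i') = var 𝒜 (μ k) ((U i \ U i') ∩ T j)
            + var 𝒜 (μ k) ((U i \ U i') \ T j) := by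
          rw [← var_union (hF k) (hB k) hRm (diff_mem hUU (hTm j))
            (Set.disjoint_left.2 (fun x h1 h2 => h2.2 h1.2)), Set.inter_union_sdiff]
        have h2 : var 𝒜 (μ k) ((U i \ U i') \ T j) ≤ Λ :=
          (var_mono (hF k) (hB k) (compl_mem (hTm j)) (diff_mem hUU (hTm j))
            (fun x hx => hx.2)).trans (hΛ k)
        obtain ⟨b, hb, hbR, hbk⟩ := exists_half (hF k) (hB k) hRm (show (0 : ℝ) < 1 by norm_num)
        obtain ⟨c, hc, hcR, hcb, hcN⟩ := corr_all hG hL (hF k) (hB k) e hem j hRm hb hbR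
        refine ⟨k, i', hi', c, hc, hcR.trans inter_subset_left, ?_, hcR.trans inter_subset_right, hcN⟩
        have h3 : |μ k b| ≤ |μ k c| + |μ k c - μ k b| := by
          have : μ k b = μ k c - (μ k c - μ k b) := by ring
          calc |μ k b| = |μ k c - (μ k c - μ k b)| := by rw [← this]
            _ ≤ _ := abs_sub _ _
        linarith)
      (by
        intro i
        obtain ⟨k, i', hi', hlt⟩ := hc1 i 0
        refine ⟨i', hi', ?_⟩
        by_contra hne
        rw [Set.not_nonempty_iff_eq_empty] at hne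
        rw [hne, var_empty (hF k) (hB k)] at hlt
        exact lt_irrefl _ hlt)
    refine ⟨U, ⋃ j, c j, hsplit.simple, good_adj hG hsplit ?_, hkill⟩
    intro b hb
    have : b ∈ (𝒜 : Set (Set XX)) := hb
    rw [he] at this
    obtain ⟨i, rfl⟩ := this
    set Z : ℕ → Set XX := fun N => ⋃ j ∈ Finset.range N, c j with hZ
    have hZm : ∀ N, Z N ∈ 𝒜 := fun N => biUnion_mem _ _ (fun j _ => hc j)
    obtain ⟨m₀, hm₀⟩ := (hG.ok _ (inter_mem (hZm (i + 1)) (hem i))).2.2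
    have hZN : ∀ N, ∀ n ≥ m₀, NN n (Z (i + 1 + N) ∩ e i) := by
      intro N
      induction N with
      | zero => exact hm₀
      | succ N ih =>
        intro n hn
        have e1 : Z (i + 1 + (N + 1)) = Z (i + 1 + N) ∪ c (i + 1 + N) := by
          simp only [hZ]
          rw [← add_assoc, Finset.range_add_one, Finset.set_biUnion_insert, union_comm]
        rw [e1, union_inter_distrib_right]
        refine NN.union (ih n hn) ((hcomp (i + 1 + N)).2 n i (by omega)) ?_ ?_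
        · exact (hG.ok _ (inter_mem (hc _) (hem i))).1 n
        · refine Disjoint.mono inter_subset_left inter_subset_left ?_
          simp only [hZ]
          rw [Set.disjoint_iUnion₂_left]
          intro j hj
          exact hcd j _ (Finset.mem_range.1 hj)
    refine ⟨max m₀ (i + 1), fun n hn => ?_⟩
    have h1 : m₀ ≤ n := (le_max_left _ _).trans hn
    have h2 : i + 1 ≤ n := (le_max_right _ _).trans hn
    refine (hZN (n - i) n h1).congr ?_
    have h3 : i + 1 + (n - i) = n + 1 := by omega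
    rw [h3]
    ext y
    simp only [sec, mem_inter_iff, Set.mem_ofPred_eq, hZ, mem_iUnion, Finset.mem_range, exists_prop]
    constructor
    · rintro ⟨⟨j, _, hj⟩, h4⟩
      exact ⟨⟨j, hj⟩, h4⟩
    · rintro ⟨⟨j, hj⟩, h4⟩
      refine ⟨⟨j, ?_, hj⟩, h4⟩
      have h5 : j ≤ n := (hcomp j).1 hj
      omega

end Pool.Agent.Helper71.Nik
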