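import Pool.Agent.Helper71.Nik.Rec

/-! The final algebra is minimally generated. -/

namespace Pool.Agent.Helper71.Nik

open MeasureTheory Set
open BooleanSubalgebra (closure)

/-- indices of the basic cylinders -/
abbrev BI : Type := ℕ ×ₗ ℕ ×ₗ ℕ

/-- basic cylinders -/
def bc (i : BI) : Set XX := Cyl (ofLex i).1 (ofLex (ofLex i).2).1 (fun j => (ofLex (ofLex i).2).2.testBit j)

lemma cyl_congr {D : ℕ} {y z : Ct} (h : ∀ i < D, y i = z i) : cyl D y = cyl D z := by
  ext x
  constructor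
  · intro hx i hi; rw [hx i hi, h i hi]
  · intro hx i hi; rw [hx i hi, h i hi]

lemma exists_bc (n D : ℕ) (y : Ct) : ∃ i, bc i = Cyl n D y := by
  refine ⟨toLex (n, toLex (D, Nat.ofBits (fun i : Fin D => y i))), ?_⟩
  have : cyl D (fun j => (Nat.ofBits (fun i : Fin D => y i)).testBit j) = cyl D y := by
    apply cyl_congr
    intro i hi
    rw [Nat.testBit_ofBits_lt _ i hi]
  ext x
  simp only [bc, Cyl, ofLex_toLex, this]

lemma range_bc : range bc = {s | ∃ n D y, s = Cyl n D y} := by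
  ext s
  constructor
  · rintro ⟨i, rfl⟩
    exact ⟨_, _, _, rfl⟩
  · rintro ⟨n, D, y, rfl⟩
    exact exists_bc n D y

lemma bc_nested {i j : BI} (h : j < i) : bc i ⊆ bc j ∨ Disjoint (bc i) (bc j) := by
  obtain ⟨n, i₂⟩ := i
  obtain ⟨n', j₂⟩ := j
  obtain ⟨D, w⟩ := i₂
  obtain ⟨D', w'⟩ := j₂
  have h1 : n' < n ∨ n' = n ∧ D' ≤ D := by
    have h' : (toLex (n', toLex (D', w')) : BI) < toLex (n, toLex (D, w)) := h
    rw [Prod.Lex.toLex_lt_toLex] at h'
    rcases h' with h' | ⟨h', h''⟩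
    · exact Or.inl h'
    · right
      refine ⟨h', ?_⟩
      rw [Prod.Lex.toLex_lt_toLex] at h''
      rcases h'' with h'' | h''
      · exact h''.le
      · exact h''.1.le
  show Cyl n D (fun j => w.testBit j) ⊆ Cyl n' D' (fun j => w'.testBit j) ∨
    Disjoint (Cyl n D (fun j => w.testBit j)) (Cyl n' D' (fun j => w'.testBit j))
  rcases h1 with h1 | ⟨rfl, h1⟩
  · right
    rw [Set.disjoint_left]
    rintro x ⟨h2, _⟩ ⟨h3, _⟩
    omega
  · by_cases h2 : ∀ j < D', w.testBit j = w'.testBit j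
    · left
      rintro x ⟨h3, h4⟩
      refine ⟨h3, fun j hj => ?_⟩
      rw [h4 j (by omega)]
      exact h2 j hj
    · right
      push Not at h2
      obtain ⟨j, hj, hne⟩ := h2
      rw [Set.disjoint_left]
      rintro x ⟨_, h3⟩ ⟨_, h4⟩
      apply hne
      have e1 : x.2 j = w.testBit j := h3 j (by omega)
      have e2 : x.2 j = w'.testBit j := h4 j hj
      rw [← e1, e2]

lemma bc_simple (i : BI) : Simple (closure (bc '' Iio i)) (bc i) := by
  have key : ∀ b ∈ closure (bc '' Iio i), bc i ⊆ b ∨ Disjoint (bc i) b := by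
    intro b hb
    induction hb using BooleanSubalgebra.closure_bot_sup_induction with
    | mem x hx =>
      obtain ⟨j, hj, rfl⟩ := hx
      exact bc_nested hj
    | bot => right; exact Set.disjoint_empty _
    | sup x _ y _ h1 h2 =>
      rcases h1 with h1 | h1
      · left; exact h1.trans subset_union_left
      · rcases h2 with h2 | h2
        · left; exact h2.trans subset_union_right
        · right; exact Set.disjoint_union_right.2 ⟨h1, h2⟩
    | compl x _ h1 =>
      rcases h1 with h1 | h1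
      · right; exact Set.disjoint_compl_right_iff_subset.2 h1
      · left; exact Set.subset_compl_iff_disjoint_right.2 h1
  intro b hb
  rcases key b hb with h | h
  · right
    rw [Set.sdiff_eq_empty.2 h]
    exact empty_mem
  · left
    rw [Set.disjoint_iff_inter_eq_empty.1 h]
    exact empty_mem

section

variable {Ω : Type} [LinearOrder Ω] [WellFoundedLT Ω]

theorem mg_fin (F : Ω ×ₗ ℕ → Set XX) (hF : ∀ i, Simple (alg F i) (F i)) :
    MinimallyGenerated (fin F) := by
  have hwf : WellFoundedLT (BI ⊕ₗ (Ω ×ₗ ℕ)) :=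
    ⟨Sum.lex_wf wellFounded_lt wellFounded_lt⟩
  set G : BI ⊕ₗ (Ω ×ₗ ℕ) → Set XX := fun i => Sum.elim bc F (ofLex i) with hG
  have hl : ∀ i : BI, G (toLex (Sum.inl i)) = bc i := fun _ => rfl
  have hr : ∀ i : Ω ×ₗ ℕ, G (toLex (Sum.inr i)) = F i := fun _ => rfl
  apply mg_of_family (fin F) G
  · intro i
    obtain ⟨i, rfl⟩ : ∃ i', toLex i' = i := ⟨ofLex i, rfl⟩
    rcases i with i | i
    · have : G '' Iio (toLex (Sum.inl i)) = bc '' Iio i := by
        ext s
        constructor
        · rintro ⟨j, hj, rfl⟩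
          obtain ⟨j, rfl⟩ : ∃ j', toLex j' = j := ⟨ofLex j, rfl⟩
          rcases j with j | j
          · exact ⟨j, Sum.Lex.inl_lt_inl_iff.1 hj, rfl⟩
          · exact absurd hj Sum.Lex.not_inr_lt_inl
        · rintro ⟨j, hj, rfl⟩
          exact ⟨toLex (Sum.inl j), Sum.Lex.inl_lt_inl_iff.2 hj, rfl⟩
      rw [this, hl]
      exact bc_simple i
    · have : closure (G '' Iio (toLex (Sum.inr i))) = alg F i := by
        unfold alg
        congr 1
        rw [← range_bc]
        ext s
        constructor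
        · rintro ⟨j, hj, rfl⟩
          obtain ⟨j, rfl⟩ : ∃ j', toLex j' = j := ⟨ofLex j, rfl⟩
          rcases j with j | j
          · exact Or.inl ⟨j, rfl⟩
          · exact Or.inr ⟨j, Sum.Lex.inr_lt_inr_iff.1 hj, rfl⟩
        · rintro (⟨j, rfl⟩ | ⟨j, hj, rfl⟩)
          · exact ⟨toLex (Sum.inl j), Sum.Lex.inl_lt_inr _ _, rfl⟩
          · exact ⟨toLex (Sum.inr j), Sum.Lex.inr_lt_inr_iff.2 hj, rfl⟩
      rw [this, hr]
      exact hF i
  · unfold fin
    congr 1
    rw [← range_bc]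
    ext s
    constructor
    · rintro ⟨j, rfl⟩
      obtain ⟨j, rfl⟩ : ∃ j', toLex j' = j := ⟨ofLex j, rfl⟩
      rcases j with j | j
      · exact Or.inl ⟨j, rfl⟩
      · exact Or.inr ⟨j, rfl⟩
    · rintro (⟨j, rfl⟩ | ⟨j, rfl⟩)
      · exact ⟨toLex (Sum.inl j), rfl⟩
      · exact ⟨toLex (Sum.inr j), rfl⟩

end

end Pool.Agent.Helper71.Nik
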