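import Pool.Agent.Helper71.Nik.MG
import Pool.Agent.Helper71.Nik.Energy

/-! The main theorem, for an abstract index order with a guessing function. -/

namespace Pool.Agent.Helper71.Nik

open MeasureTheory Set

section norm

variable {X : Type} {ℱ : BooleanSubalgebra (Set X)}

open Classical in
/-- extension by zero -/
noncomputable def ex (μ : ℱ → ℝ) (b : Set X) : ℝ := if h : b ∈ ℱ then μ ⟨b, h⟩ else 0

lemma ex_apply (μ : ℱ → ℝ) {b : Set X} (h : b ∈ ℱ) : ex μ b = μ ⟨b, h⟩ := by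
  rw [ex, dif_pos h]

lemma disjoint_coe {a b : ℱ} : Disjoint a b ↔ Disjoint (a : Set X) (b : Set X) := by
  rw [disjoint_iff, Set.disjoint_iff_inter_eq_empty]
  constructor
  · intro h
    have := congrArg Subtype.val h
    exact this
  · intro h
    exact Subtype.ext h

lemma FA_ex {μ : ℱ → ℝ} (h : ∀ a b : ℱ, Disjoint a b → μ (a ⊔ b) = μ a + μ b) : FA ℱ (ex μ) := by
  intro a ha b hb hd
  rw [ex_apply μ ha, ex_apply μ hb, ex_apply μ (union_mem ha hb), ← h ⟨a, ha⟩ ⟨b, hb⟩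
    (disjoint_coe.2 hd)]
  rfl

lemma abs_le_of_normLE {A : Type*} [BooleanAlgebra A] {μ : A → ℝ} {C : ℝ} (h : NormLE μ C) (a : A) :
    |μ a| ≤ C := by
  classical
  have h1 := h {a, aᶜ} (by
    intro x hx y hy hxy
    simp only [Finset.coe_insert, Finset.coe_singleton, mem_insert_iff, mem_singleton_iff] at hx hy
    rcases hx with rfl | rfl <;> rcases hy with rfl | rfl
    · exact absurd rfl hxy
    · exact disjoint_compl_right
    · exact disjoint_compl_left
    · exact absurd rfl hxy) (by simp)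
  exact (Finset.single_le_sum (f := fun a => |μ a|) (fun _ _ => abs_nonneg _)
    (Finset.mem_insert_self a {aᶜ})).trans h1

lemma Bdd_ex {μ : ℱ → ℝ} {C : ℝ} (h : NormLE μ C) : Bdd ℱ (ex μ) :=
  ⟨C, fun a ha => by rw [ex_apply μ ha]; exact abs_le_of_normLE h _⟩

open Classical in
lemma normLE_of_FA {μ : ℱ → ℝ} {ν : Set X → ℝ} (hF : FA ℱ ν) (hB : Bdd ℱ ν)
    (he : ∀ a : ℱ, μ a = ν a) : NormLE μ (var ℱ ν univ) := by
  intro P hP _
  have key : ∀ Q : Finset ℱ, Q ⊆ P → ∑ a ∈ Q, var ℱ ν a = var ℱ ν (⋃ a ∈ Q, (a : Set X)) := by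
    intro Q
    induction Q using Finset.induction_on with
    | empty => intro _; simp [var_empty hF hB]
    | insert q Q hq ih =>
      intro hQ
      rw [Finset.sum_insert hq, Finset.set_biUnion_insert,
        ih (fun x hx => hQ (Finset.mem_insert_of_mem hx)),
        var_union hF hB q.2 (biUnion_mem _ _ (fun a _ => a.2))]
      rw [Set.disjoint_iUnion₂_right]
      intro a ha
      have h1 := hP (hQ (Finset.mem_insert_self q Q)) (hQ (Finset.mem_insert_of_mem ha))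
        (fun h => hq (h ▸ ha))
      exact disjoint_coe.1 h1
  calc ∑ a ∈ P, |μ a| ≤ ∑ a ∈ P, var ℱ ν a := by
        apply Finset.sum_le_sum
        intro a _
        rw [he]
        exact abs_le_var hF hB a.2 a.2 le_rfl
    _ = var ℱ ν (⋃ a ∈ P, (a : Set X)) := key P (Finset.Subset.refl P)
    _ ≤ var ℱ ν univ :=
        var_mono hF hB univ_mem (biUnion_mem _ _ (fun a _ => a.2)) (subset_univ _)

end norm

section cf

lemma cf_half (k : ℕ) : cf k {y | y (2 * k) = true} = 1 / 2 := by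
  have hm : MeasurableSet {y : Ct | y (2 * k) = true} :=
    fl_measurableSet ((FL.coord (2 * k)).comp (fun b => b = true))
  have h1 : cf k {y | y (2 * k) = true} = ∫ y in {y : Ct | y (2 * k) = true}, (1 : ℝ) ∂lam := by
    rw [cf]
    apply setIntegral_congr_fun hm
    intro y hy
    simp only [Set.mem_ofPred_eq] at hy
    simp [rad, hy]
  have h2 : ({y : Ct | y (2 * k) = true} : Set Ct)
      = (({2 * k} : Finset ℕ) : Set ℕ).pi (fun _ => {true}) := by
    ext y; simp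
  have h3 : lam {y : Ct | y (2 * k) = true} = 2⁻¹ := by
    rw [h2, lam, Measure.infinitePi_pi _ (fun i _ => measurableSet_singleton _)]
    simp [coin_singleton]
  rw [h1]
  simp [Measure.real, h3]

end cf

section

variable {Ω : Type} [LinearOrder Ω] [WellFoundedLT Ω] [Nonempty Ω] [NoMaxOrder Ω]

lemma stage_mono (F : Ω ×ₗ ℕ → Set XX) : Monotone (fun α : Ω => alg F (toLex (α, 0))) := by
  intro α β h
  apply alg_mono
  rcases h.lt_or_eq with h | h
  · exact (lex_lt_of h _ _).le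
  · rw [h]

theorem nikodym_fin (hc : ∀ α : Ω, (Iio α).Countable) (hcof : ∀ s : ℕ → Ω, ∃ α, ∀ n, s n < α)
    (g : Ω → Ω → ℕ → ℕ → ℝ)
    (hg : ∀ φ : Ω → ℕ → ℕ → ℝ, ∀ α₀, ∃ α, α₀ ≤ α ∧ IsLim α ∧ ∀ β < α, ∀ n k, φ β n k = g α β n k)
    {F : Ω ×ₗ ℕ → Set XX} (hF : ∀ i, PP g i F (F i)) : Nikodym (fin F) := by
  intro μ hμ hpt
  by_contra hcon
  push Not at hcon
  set ν : ℕ → Set XX → ℝ := fun k => ex (μ k) with hν
  have hFA : ∀ k, FA (fin F) (ν k) := fun k => FA_ex (hμ k).1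
  have hBdd : ∀ k, Bdd (fin F) (ν k) := fun k => by
    obtain ⟨C, hC⟩ := (hμ k).2
    exact Bdd_ex hC
  have hptν : ∀ a ∈ fin F, ∃ C, ∀ k, |ν k a| ≤ C := by
    intro a ha
    obtain ⟨C, hC⟩ := hpt ⟨a, ha⟩ (mem_univ _)
    exact ⟨C, fun k => by simp only [hν]; rw [ex_apply _ ha]; exact hC k⟩
  have hunb : ∀ C : ℝ, ∃ k, C < var (fin F) (ν k) univ := by
    intro C
    by_contra h
    push Not at h
    obtain ⟨n, hn⟩ := hcon C
    apply hn
    have h1 := normLE_of_FA (μ := μ n) (hFA n) (hBdd n) (fun a => by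
      simp only [hν]; rw [ex_apply _ a.2])
    intro P hP hP'
    exact (h1 P hP hP').trans (h n)
  -- stages where the norms are seen
  have hb : ∀ k, ∃ β : Ω, ∃ b ∈ alg F (toLex (β, 0)),
      var (fin F) (ν k) univ - 1 < |ν k b| + |ν k (univ \ b)| := by
    intro k
    obtain ⟨b, hb, _, hlt⟩ := exists_var_lt (hFA k) (hBdd k) univ_mem (show (0 : ℝ) < 1 by norm_num)
    obtain ⟨β, hβ⟩ := mem_fin hb
    refine ⟨β, b, hβ, ?_⟩
    have h1 := le_abs_self (ν k b)
    have h2 := neg_abs_le (ν k (univ \ b))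
    linarith
  choose β b hbm hbv using hb
  obtain ⟨α₁, hα₁⟩ := hcof β
  obtain ⟨α₂, hα₂⟩ := energy (mix_FA hFA hBdd) (mix_nonneg hFA hBdd)
    (fun α : Ω => alg F (toLex (α, 0))) (stage_mono F) (fun α => alg_le_fin F _)
    (fun x hx => mem_fin hx) hcof
  obtain ⟨α, hα, hlim, hguess⟩ := hg
    (fun β n k => ν k (enum (alg F (toLex (β, 0))) n)) (max α₁ α₂)
  have hGood : Good (alg F (toLex (α, 0))) := good_alg hc hF _
  have hle : alg F (toLex (α, 0)) ≤ fin F := alg_le_fin F _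
  have hbad : Bad (alg F (toLex (α, 0))) ν := by
    refine ⟨fun k => (hFA k).mono_alg hle, fun k => (hBdd k).mono_alg hle,
      fun a ha => hptν a (hle ha), fun C => ?_⟩
    obtain ⟨k, hk⟩ := hunb (C + 1)
    refine ⟨k, ?_⟩
    have hFA' := (hFA k).mono_alg hle
    have hB' := (hBdd k).mono_alg hle
    have hbα : b k ∈ alg F (toLex (α, 0)) :=
      stage_mono F ((hα₁ k).le.trans ((le_max_left _ _).trans hα)) (hbm k)
    have h1 := var_diff hFA' hB' univ_mem hbα (subset_univ (b k))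
    have h2 := abs_le_var hFA' hB' hbα hbα le_rfl
    have h3 := abs_le_var hFA' hB' (diff_mem univ_mem hbα) (diff_mem univ_mem hbα) le_rfl
    have h4 := hbv k
    linarith
  obtain ⟨U, hU⟩ := (hF (toLex (α, 0))).2.2.1 rfl hGood (L2_lim hc hF hlim)
    (fun b hb => cover_lim hlim hb) (fun β _ => good_alg hc hF _) ν
    (fun β hβ n k => hguess β hβ n k) hbad
  exact kill_contra hle hFA hBdd (F_mem_fin F _) hU
    (hα₂ α ((le_max_right _ _).trans hα) U hU.1 _ (F_mem_fin F _)) (hptν _ (F_mem_fin F _))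

theorem ok_fin (hc : ∀ α : Ω, (Iio α).Countable) {g : Ω → Ω → ℕ → ℕ → ℝ}
    {F : Ω ×ₗ ℕ → Set XX} (hF : ∀ i, PP g i F (F i)) {a : Set XX} (ha : a ∈ fin F) : Ok a := by
  obtain ⟨α, hα⟩ := mem_fin ha
  exact (good_alg hc hF _).ok a hα

theorem not_strong_fin (hc : ∀ α : Ω, (Iio α).Countable) {g : Ω → Ω → ℕ → ℕ → ℝ}
    {F : Ω ×ₗ ℕ → Set XX} (hF : ∀ i, PP g i F (F i)) : ¬ StrongNikodym (fin F) := by
  intro hS
  have hbase : base ≤ fin F := (base_le_alg (toLex (Classical.arbitrary Ω, 0))).trans (alg_le_fin F _)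
  obtain ⟨n₀, hn₀⟩ := hS (fun m => {a : fin F | ∀ n ≥ m, NN n a}) (by
      intro m m' hmm' a ha n hn
      exact ha n (hmm'.trans hn)) (by
      ext a
      simp only [mem_iUnion, mem_univ, iff_true]
      exact (ok_fin hc hF a.2).2.2)
  set ν : ℕ → Set XX → ℝ := fun k a => (k : ℝ) * co n₀ k a with hν
  have hFA : ∀ k, FA (fin F) (ν k) := by
    intro k a _ b hb hd
    simp only [hν]
    rw [co_union ((ok_fin hc hF hb).1 n₀) hd]
    ring
  have hco : ∀ k (a : Set XX), |co n₀ k a| ≤ 1 := fun k a => (cf_abs_le _ k).trans measureReal_le_one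
  have hBdd : ∀ k, Bdd (fin F) (ν k) := by
    intro k
    refine ⟨k, fun a _ => ?_⟩
    simp only [hν]
    rw [abs_mul, Nat.abs_cast]
    exact mul_le_of_le_one_right (Nat.cast_nonneg k) (hco k a)
  obtain ⟨C, hC⟩ := hn₀ (fun k a => ν k a) (by
      intro k
      refine ⟨?_, var (fin F) (ν k) univ, normLE_of_FA (hFA k) (hBdd k) (fun a => rfl)⟩
      intro a b hab
      exact hFA k a a.2 b b.2 (disjoint_coe.1 hab)) (by
      intro a ha
      obtain ⟨C, hC⟩ := ha n₀ le_rfl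
      refine ⟨C, fun k => ?_⟩
      show |(k : ℝ) * co n₀ k a| ≤ C
      rw [abs_mul, Nat.abs_cast]
      exact hC k)
  obtain ⟨k, hk⟩ := exists_nat_gt (2 * C)
  have hFL : FL (fun y : Ct => y ∈ {y : Ct | y (2 * k) = true}) :=
    (FL.coord (2 * k)).comp (fun b => b = true)
  have hmem : fib n₀ {y : Ct | y (2 * k) = true} ∈ fin F := hbase (fib_mem_base n₀ hFL)
  have h1 := abs_le_of_normLE (hC k) ⟨_, hmem⟩
  have h2 : ν k (fib n₀ {y : Ct | y (2 * k) = true}) = k * (1 / 2) := by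
    show (k : ℝ) * co n₀ k (fib n₀ {y : Ct | y (2 * k) = true}) = k * (1 / 2)
    rw [co, sec_fib_self, cf_half]
  have h3 : |ν k (fib n₀ {y : Ct | y (2 * k) = true})| ≤ C := h1
  rw [h2, abs_of_nonneg (by positivity)] at h3
  linarith

theorem infinite_fin (F : Ω ×ₗ ℕ → Set XX) : Infinite (fin F) := by
  have hbase : base ≤ fin F := (base_le_alg (toLex (Classical.arbitrary Ω, 0))).trans (alg_le_fin F _)
  refine Infinite.of_injective (fun n : ℕ => (⟨V n, hbase (V_mem_base n)⟩ : fin F)) ?_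
  intro n m h
  have h1 : V n = V m := congrArg Subtype.val h
  have h2 : (n, (fun _ => false : Ct)) ∈ V n := rfl
  rw [h1] at h2
  exact h2

theorem main_abstract (hc : ∀ α : Ω, (Iio α).Countable) (hcof : ∀ s : ℕ → Ω, ∃ α, ∀ n, s n < α)
    (g : Ω → Ω → ℕ → ℕ → ℝ)
    (hg : ∀ φ : Ω → ℕ → ℕ → ℝ, ∀ α₀, ∃ α, α₀ ≤ α ∧ IsLim α ∧ ∀ β < α, ∀ n k, φ β n k = g α β n k) :
    ∃ (A : Type) (_ : BooleanAlgebra A), Infinite A ∧ MinimallyGenerated A ∧ Nikodym A ∧
      ¬ StrongNikodym A := by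
  obtain ⟨F, hF⟩ := exists_F g
  exact ⟨fin F, inferInstance, infinite_fin F, mg_fin F (fun i => (hF i).1),
    nikodym_fin hc hcof g hg hF, not_strong_fin hc hF⟩

end

end Pool.Agent.Helper71.Nik
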