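import Mathlib

/-! Finitely additive bounded set functions on a field of sets: positive part and variation. -/

namespace Pool.Agent.Helper71.Nik

variable {X : Type*}

/-- finite additivity on the members of `𝒜` -/
def FA (𝒜 : BooleanSubalgebra (Set X)) (μ : Set X → ℝ) : Prop :=
  ∀ a ∈ 𝒜, ∀ b ∈ 𝒜, Disjoint a b → μ (a ∪ b) = μ a + μ b

/-- boundedness on the members of `𝒜` -/
def Bdd (𝒜 : BooleanSubalgebra (Set X)) (μ : Set X → ℝ) : Prop := ∃ C : ℝ, ∀ a ∈ 𝒜, |μ a| ≤ C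

section mem

variable {𝒜 : BooleanSubalgebra (Set X)} {a b : Set X}

lemma union_mem (ha : a ∈ 𝒜) (hb : b ∈ 𝒜) : a ∪ b ∈ 𝒜 := 𝒜.supClosed ha hb
lemma inter_mem (ha : a ∈ 𝒜) (hb : b ∈ 𝒜) : a ∩ b ∈ 𝒜 := 𝒜.infClosed ha hb
lemma diff_mem (ha : a ∈ 𝒜) (hb : b ∈ 𝒜) : a \ b ∈ 𝒜 := BooleanSubalgebra.sdiff_mem ha hb
lemma empty_mem : (∅ : Set X) ∈ 𝒜 := BooleanSubalgebra.bot_mem
lemma univ_mem : (Set.univ : Set X) ∈ 𝒜 := BooleanSubalgebra.top_mem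
lemma compl_mem (ha : a ∈ 𝒜) : aᶜ ∈ 𝒜 := BooleanSubalgebra.compl_mem ha

lemma biUnion_mem {ι : Type*} (s : Finset ι) (f : ι → Set X) (h : ∀ i ∈ s, f i ∈ 𝒜) :
    (⋃ i ∈ s, f i) ∈ 𝒜 := by
  classical
  induction s using Finset.induction_on with
  | empty => simpa using (empty_mem (𝒜 := 𝒜))
  | insert i s hi ih =>
    rw [Finset.set_biUnion_insert]
    exact union_mem (h i (Finset.mem_insert_self i s))
      (ih (fun j hj => h j (Finset.mem_insert_of_mem hj)))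

end mem

section basic

variable {𝒜 : BooleanSubalgebra (Set X)} {μ : Set X → ℝ} {a b : Set X}

lemma FA.empty (h : FA 𝒜 μ) : μ ∅ = 0 := by
  have := h ∅ empty_mem ∅ empty_mem (by simp)
  simp at this
  exact this

lemma FA.diff (h : FA 𝒜 μ) (ha : a ∈ 𝒜) (hb : b ∈ 𝒜) (hab : b ⊆ a) : μ (a \ b) = μ a - μ b := by
  have := h b hb (a \ b) (diff_mem ha hb) Set.disjoint_sdiff_right
  rw [Set.union_diff_cancel hab] at this
  linarith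

lemma FA.mono_alg {ℬ : BooleanSubalgebra (Set X)} (h : FA 𝒜 μ) (hB : ℬ ≤ 𝒜) : FA ℬ μ :=
  fun a ha b hb => h a (hB ha) b (hB hb)

lemma Bdd.mono_alg {ℬ : BooleanSubalgebra (Set X)} (h : Bdd 𝒜 μ) (hB : ℬ ≤ 𝒜) : Bdd ℬ μ := by
  obtain ⟨C, hC⟩ := h
  exact ⟨C, fun a ha => hC a (hB ha)⟩

/-- The positive part. -/
noncomputable def pos (𝒜 : BooleanSubalgebra (Set X)) (μ : Set X → ℝ) (a : Set X) : ℝ :=
  sSup {x : ℝ | ∃ b ∈ 𝒜, b ⊆ a ∧ x = μ b}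

/-- The variation. -/
noncomputable def var (𝒜 : BooleanSubalgebra (Set X)) (μ : Set X → ℝ) (a : Set X) : ℝ :=
  2 * pos 𝒜 μ a - μ a

lemma Bdd.bddAbove (h : Bdd 𝒜 μ) (a : Set X) :
    BddAbove {x : ℝ | ∃ b ∈ 𝒜, b ⊆ a ∧ x = μ b} := by
  obtain ⟨C, hC⟩ := h
  refine ⟨C, ?_⟩
  rintro _ ⟨b, hb, _, rfl⟩
  exact (le_abs_self _).trans (hC b hb)

lemma nonempty_aux (a : Set X) : {x : ℝ | ∃ b ∈ 𝒜, b ⊆ a ∧ x = μ b}.Nonempty :=
  ⟨μ ∅, ∅, empty_mem, Set.empty_subset _, rfl⟩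

lemma le_pos (hB : Bdd 𝒜 μ) (hb : b ∈ 𝒜) (hab : b ⊆ a) : μ b ≤ pos 𝒜 μ a :=
  le_csSup (hB.bddAbove a) ⟨b, hb, hab, rfl⟩

lemma pos_nonneg (hF : FA 𝒜 μ) (hB : Bdd 𝒜 μ) : 0 ≤ pos 𝒜 μ a := by
  have := le_pos (a := a) hB (empty_mem (𝒜 := 𝒜)) (Set.empty_subset a)
  rwa [hF.empty] at this

lemma exists_pos_lt (hB : Bdd 𝒜 μ) (a : Set X) {ε : ℝ} (hε : 0 < ε) :
    ∃ b ∈ 𝒜, b ⊆ a ∧ pos 𝒜 μ a - ε < μ b := by
  obtain ⟨x, ⟨b, hb, hab, rfl⟩, hx⟩ := exists_lt_of_lt_csSup (nonempty_aux (μ := μ) (𝒜 := 𝒜) a)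
    (show pos 𝒜 μ a - ε < sSup {x : ℝ | ∃ b ∈ 𝒜, b ⊆ a ∧ x = μ b} by
      have : pos 𝒜 μ a = sSup {x : ℝ | ∃ b ∈ 𝒜, b ⊆ a ∧ x = μ b} := rfl
      linarith)
  exact ⟨b, hb, hab, hx⟩

lemma pos_union (hF : FA 𝒜 μ) (hB : Bdd 𝒜 μ) (ha : a ∈ 𝒜) (hb : b ∈ 𝒜) (hd : Disjoint a b) :
    pos 𝒜 μ (a ∪ b) = pos 𝒜 μ a + pos 𝒜 μ b := by
  apply le_antisymm
  · apply csSup_le (nonempty_aux _)
    rintro _ ⟨c, hc, hcab, rfl⟩
    have h1 : c = (c ∩ a) ∪ (c ∩ b) := by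
      rw [← Set.inter_union_distrib_left]
      exact (Set.inter_eq_left.2 hcab).symm
    have h2 : μ c = μ (c ∩ a) + μ (c ∩ b) := by
      conv_lhs => rw [h1]
      exact hF _ (inter_mem hc ha) _ (inter_mem hc hb)
        (hd.mono Set.inter_subset_right Set.inter_subset_right)
    rw [h2]
    exact add_le_add (le_pos hB (inter_mem hc ha) Set.inter_subset_right)
      (le_pos hB (inter_mem hc hb) Set.inter_subset_right)
  · apply le_of_forall_pos_le_add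
    intro ε hε
    obtain ⟨c, hc, hca, h1⟩ := exists_pos_lt hB a (half_pos hε)
    obtain ⟨d, hd', hdb, h2⟩ := exists_pos_lt hB b (half_pos hε)
    have h3 := hF c hc d hd' (hd.mono hca hdb)
    have h4 := le_pos (a := a ∪ b) hB (union_mem hc hd') (Set.union_subset_union hca hdb)
    linarith

lemma pos_mono (hB : Bdd 𝒜 μ) (hab : b ⊆ a) : pos 𝒜 μ b ≤ pos 𝒜 μ a := by
  apply csSup_le (nonempty_aux _)
  rintro _ ⟨c, hc, hcb, rfl⟩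
  exact le_pos hB hc (hcb.trans hab)

lemma var_union (hF : FA 𝒜 μ) (hB : Bdd 𝒜 μ) (ha : a ∈ 𝒜) (hb : b ∈ 𝒜) (hd : Disjoint a b) :
    var 𝒜 μ (a ∪ b) = var 𝒜 μ a + var 𝒜 μ b := by
  rw [var, var, var, pos_union hF hB ha hb hd, hF a ha b hb hd]
  ring

lemma abs_le_var (hF : FA 𝒜 μ) (hB : Bdd 𝒜 μ) (ha : a ∈ 𝒜) (hb : b ∈ 𝒜) (hab : b ⊆ a) :
    |μ b| ≤ var 𝒜 μ a := by
  have h1 := le_pos hB hb hab
  have h2 := le_pos hB (diff_mem ha hb) (Set.diff_subset (s := a) (t := b))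
  have h3 := le_pos hB ha (le_refl a)
  have h4 := hF.diff ha hb hab
  have h5 := pos_nonneg (a := a) hF hB
  rw [var, abs_le]
  constructor <;> linarith

lemma var_nonneg (hF : FA 𝒜 μ) (hB : Bdd 𝒜 μ) (ha : a ∈ 𝒜) : 0 ≤ var 𝒜 μ a :=
  (abs_nonneg _).trans (abs_le_var hF hB ha ha (le_refl a))

lemma var_diff (hF : FA 𝒜 μ) (hB : Bdd 𝒜 μ) (ha : a ∈ 𝒜) (hb : b ∈ 𝒜) (hab : b ⊆ a) :
    var 𝒜 μ (a \ b) = var 𝒜 μ a - var 𝒜 μ b := by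
  have := var_union hF hB hb (diff_mem ha hb) Set.disjoint_sdiff_right
  rw [Set.union_diff_cancel hab] at this
  linarith

lemma var_mono (hF : FA 𝒜 μ) (hB : Bdd 𝒜 μ) (ha : a ∈ 𝒜) (hb : b ∈ 𝒜) (hab : b ⊆ a) :
    var 𝒜 μ b ≤ var 𝒜 μ a := by
  have := var_diff hF hB ha hb hab
  have h2 := var_nonneg hF hB (diff_mem ha hb)
  linarith

lemma var_empty (hF : FA 𝒜 μ) (hB : Bdd 𝒜 μ) : var 𝒜 μ ∅ = 0 := by
  have := var_union hF hB (empty_mem (𝒜 := 𝒜)) (empty_mem (𝒜 := 𝒜)) (by simp)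
  simp at this
  exact this

lemma var_union_le (hF : FA 𝒜 μ) (hB : Bdd 𝒜 μ) (ha : a ∈ 𝒜) (hb : b ∈ 𝒜) :
    var 𝒜 μ (a ∪ b) ≤ var 𝒜 μ a + var 𝒜 μ b := by
  have h1 : a ∪ b = a ∪ (b \ a) := by rw [Set.union_diff_self]
  rw [h1, var_union hF hB ha (diff_mem hb ha) Set.disjoint_sdiff_right]
  have := var_mono hF hB hb (diff_mem hb ha) Set.diff_subset
  linarith

/-- nearly attaining the variation -/
lemma exists_var_lt (hF : FA 𝒜 μ) (hB : Bdd 𝒜 μ) (ha : a ∈ 𝒜) {ε : ℝ} (hε : 0 < ε) :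
    ∃ b ∈ 𝒜, b ⊆ a ∧ var 𝒜 μ a - ε < μ b - μ (a \ b) := by
  obtain ⟨b, hb, hba, h⟩ := exists_pos_lt hB a (half_pos hε)
  refine ⟨b, hb, hba, ?_⟩
  rw [hF.diff ha hb hba, var]
  linarith

/-- some subset carries half of the variation -/
lemma exists_half (hF : FA 𝒜 μ) (hB : Bdd 𝒜 μ) (ha : a ∈ 𝒜) {ε : ℝ} (hε : 0 < ε) :
    ∃ b ∈ 𝒜, b ⊆ a ∧ var 𝒜 μ a / 2 - ε < |μ b| := by
  obtain ⟨b, hb, hba, h⟩ := exists_var_lt hF hB ha hε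
  by_cases h1 : var 𝒜 μ a / 2 - ε < |μ b|
  · exact ⟨b, hb, hba, h1⟩
  · refine ⟨a \ b, diff_mem ha hb, Set.diff_subset, ?_⟩
    have h2 := le_abs_self (μ b)
    have h3 := neg_abs_le (μ (a \ b))
    linarith

end basic

section deciding

variable {𝒜 : BooleanSubalgebra (Set X)} {U : ℕ → Set X}

/-- A decreasing sequence of members of `𝒜` that decides every member of `𝒜`. -/
structure Dec (𝒜 : BooleanSubalgebra (Set X)) (U : ℕ → Set X) : Prop where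
  mem : ∀ i, U i ∈ 𝒜
  anti : Antitone U
  dec : ∀ b ∈ 𝒜, ∃ i, U i ⊆ b ∨ Disjoint (U i) b

lemma Dec.dec_ge (h : Dec 𝒜 U) {b : Set X} (hb : b ∈ 𝒜) (i₀ : ℕ) :
    ∃ i, i₀ ≤ i ∧ (U i ⊆ b ∨ Disjoint (U i) b) := by
  obtain ⟨i, hi⟩ := h.dec b hb
  refine ⟨max i₀ i, le_max_left _ _, ?_⟩
  rcases hi with hi | hi
  · exact Or.inl ((h.anti (le_max_right _ _)).trans hi)
  · exact Or.inr (hi.mono_left (h.anti (le_max_right _ _)))

lemma tail_small {μ : Set X → ℝ} (h : Dec 𝒜 U) (hF : FA 𝒜 μ) (hB : Bdd 𝒜 μ) {ε : ℝ} (hε : 0 < ε)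
    (i₁ : ℕ) : ∃ i₀, i₁ ≤ i₀ ∧ ∀ l, i₀ ≤ l → var 𝒜 μ (U i₀ \ U l) ≤ ε := by
  set S : Set ℝ := Set.range (fun i => var 𝒜 μ (U i)) with hS
  have hbd : BddBelow S := ⟨0, by rintro _ ⟨i, rfl⟩; exact var_nonneg hF hB (h.mem i)⟩
  have hne : S.Nonempty := ⟨_, 0, rfl⟩
  obtain ⟨_, ⟨i, rfl⟩, hi⟩ := exists_lt_of_csInf_lt hne (show sInf S < sInf S + ε by linarith)
  refine ⟨max i₁ i, le_max_left _ _, fun l hl => ?_⟩
  rw [var_diff hF hB (h.mem _) (h.mem _) (h.anti hl)]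
  have h1 : var 𝒜 μ (U (max i₁ i)) ≤ var 𝒜 μ (U i) :=
    var_mono hF hB (h.mem _) (h.mem _) (h.anti (le_max_right _ _))
  have h2 : sInf S ≤ var 𝒜 μ (U l) := csInf_le hbd ⟨l, rfl⟩
  simp only at hi
  linarith

/-- the variation of a small member of the deciding sequence is almost the absolute value -/
lemma atom_like {μ : Set X → ℝ} (h : Dec 𝒜 U) (hF : FA 𝒜 μ) (hB : Bdd 𝒜 μ) (i : ℕ) :
    ∃ i', i ≤ i' ∧ var 𝒜 μ (U i') - 1 ≤ |μ (U i')| := by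
  obtain ⟨i₁, hi₁, ht⟩ := tail_small h hF hB (show (0 : ℝ) < 1 / 4 by norm_num) i
  obtain ⟨b, hb, hbU, hlt⟩ := exists_var_lt hF hB (h.mem i₁) (show (0 : ℝ) < 1 / 4 by norm_num)
  obtain ⟨i', hi', hcase⟩ := h.dec_ge hb i₁
  refine ⟨i', hi₁.trans hi', ?_⟩
  have hanti := h.anti hi'
  have hmono := var_mono hF hB (h.mem i₁) (h.mem i') hanti
  have htl := ht i' hi'
  rcases hcase with hsub | hdis
  · -- `U i' ⊆ b`
    have e1 : μ (b \ U i') = μ b - μ (U i') := hF.diff hb (h.mem i') hsub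
    have e2 : |μ (b \ U i')| ≤ var 𝒜 μ (U i₁ \ U i') :=
      abs_le_var hF hB (diff_mem (h.mem _) (h.mem _)) (diff_mem hb (h.mem _))
        (Set.diff_subset_diff_left hbU)
    have e3 : |μ (U i₁ \ b)| ≤ var 𝒜 μ (U i₁ \ U i') :=
      abs_le_var hF hB (diff_mem (h.mem _) (h.mem _)) (diff_mem (h.mem _) hb)
        (Set.diff_subset_diff_right hsub)
    have e4 := le_abs_self (μ (b \ U i'))
    have e5 := neg_abs_le (μ (U i₁ \ b))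
    have e6 := le_abs_self (μ (U i'))
    linarith
  · -- disjoint
    have hd : U i' ⊆ U i₁ \ b := by
      intro x hx
      exact ⟨hanti hx, fun hxb => Set.disjoint_left.1 hdis hx hxb⟩
    have e1 : μ ((U i₁ \ b) \ U i') = μ (U i₁ \ b) - μ (U i') :=
      hF.diff (diff_mem (h.mem _) hb) (h.mem i') hd
    have e2 : |μ ((U i₁ \ b) \ U i')| ≤ var 𝒜 μ (U i₁ \ U i') :=
      abs_le_var hF hB (diff_mem (h.mem _) (h.mem _)) (diff_mem (diff_mem (h.mem _) hb) (h.mem _))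
        (Set.diff_subset_diff_left Set.diff_subset)
    have e3 : |μ b| ≤ var 𝒜 μ (U i₁ \ U i') :=
      abs_le_var hF hB (diff_mem (h.mem _) (h.mem _)) hb
        (fun x hx => ⟨hbU hx, fun hxU => Set.disjoint_left.1 hdis hxU hx⟩)
    have e4 := neg_abs_le (μ ((U i₁ \ b) \ U i'))
    have e5 := le_abs_self (μ b)
    have e6 := neg_abs_le (μ (U i'))
    linarith

end deciding

end Pool.Agent.Helper71.Nik
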