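import Pool.Agent.Helper71.Nik.Cantor

/-! Realization of small square-summable Rademacher coefficients inside a cylinder
(via a complex Riesz product). -/

namespace Pool.Agent.Helper71.Nik

open MeasureTheory Set
open scoped ENNReal

/-- cylinders of the Cantor group -/
def cyl (D : ℕ) (y : Ct) : Set Ct := {z | ∀ i < D, z i = y i}

lemma mem_cyl_self (D : ℕ) (y : Ct) : y ∈ cyl D y := fun _ _ => rfl

lemma cyl_eq_pi (D : ℕ) (y : Ct) :
    cyl D y = (Finset.range D : Set ℕ).pi (fun i => {y i}) := by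
  ext z
  simp [cyl]

lemma lam_cyl (D : ℕ) (y : Ct) : lam (cyl D y) = (2⁻¹ : ℝ≥0∞) ^ D := by
  rw [cyl_eq_pi, lam, Measure.infinitePi_pi _ (fun i _ => measurableSet_singleton _)]
  simp [coin_singleton]

lemma lam_real_cyl (D : ℕ) (y : Ct) : lam.real (cyl D y) = (1 / 2 : ℝ) ^ D := by
  rw [Measure.real, lam_cyl]
  simp

lemma fl_mem_cyl (D : ℕ) (y : Ct) : FL (fun z => z ∈ cyl D y) := by
  refine ⟨D, fun z z' h => ?_⟩
  simp only [cyl, Set.mem_ofPred_eq, eq_iff_iff]
  constructor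
  · intro h1 i hi; rw [← h i hi]; exact h1 i hi
  · intro h1 i hi; rw [h i hi]; exact h1 i hi

lemma fl_measurableSet {a : Set Ct} (h : FL (fun z => z ∈ a)) : MeasurableSet a := by
  have := h.measurable
  exact measurableSet_setOfPred.2 this

lemma measurableSet_cyl (D : ℕ) (y : Ct) : MeasurableSet (cyl D y) := fl_measurableSet (fl_mem_cyl D y)

/-- the indicator of a cylinder -/
noncomputable def ind (a : Set Ct) : Ct → ℝ := a.indicator (fun _ => (1 : ℝ))

open Classical in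
lemma ind_apply (a : Set Ct) (y : Ct) : ind a y = if y ∈ a then 1 else 0 := by
  rw [ind, Set.indicator_apply]

lemma fl_ind {a : Set Ct} (h : FL (fun z => z ∈ a)) : FL (ind a) := by
  classical
  have h2 := h.comp (fun p : Prop => if p then (1 : ℝ) else 0)
  have : ind a = fun y => (fun p : Prop => if p then (1 : ℝ) else 0) (y ∈ a) := by
    funext y; rw [ind_apply]
  rw [this]
  exact h2

lemma cyl_tr {D : ℕ} {y₀ : Ct} {h : Ct} (hh : ∀ i < D, h i = false) (y : Ct) :
    tr h y ∈ cyl D y₀ ↔ y ∈ cyl D y₀ := by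
  simp only [cyl, Set.mem_ofPred_eq, tr]
  constructor
  · intro h1 i hi; have := h1 i hi; rw [hh i hi] at this; simpa using this
  · intro h1 i hi; rw [hh i hi]; simpa using h1 i hi

lemma ind_cyl_tr {D : ℕ} {y₀ : Ct} {h : Ct} (hh : ∀ i < D, h i = false) (y : Ct) :
    ind (cyl D y₀) (tr h y) = ind (cyl D y₀) y := by
  classical
  rw [ind_apply, ind_apply]
  simp only [cyl_tr hh]

lemma single_lt {D j : ℕ} (h : D ≤ j) : ∀ i < D, single j i = false := by
  intro i hi
  simp only [single, decide_eq_false_iff_not]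
  omega

lemma integral_ind_cyl (D : ℕ) (y₀ : Ct) : ∫ y, ind (cyl D y₀) y ∂lam = (1 / 2 : ℝ) ^ D := by
  rw [ind, integral_indicator (measurableSet_cyl D y₀)]
  simp [lam_real_cyl]

/-- the complex Riesz product -/
noncomputable def riesz (c : ℕ → ℝ) (R : Finset ℕ) (y : Ct) : ℂ :=
  ∏ k ∈ R, (1 + ((c k * rad k y : ℝ) : ℂ) * Complex.I)

lemma fl_riesz (c : ℕ → ℝ) (R : Finset ℕ) : FL (riesz c R) := by
  classical
  induction R using Finset.induction_on with
  | empty =>
    have : riesz c ∅ = fun _ => 1 := by funext y; simp [riesz]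
    rw [this]; exact FL.const 1
  | insert j R hj ih =>
    have : riesz c (insert j R) = fun y =>
        (1 + ((c j * rad j y : ℝ) : ℂ) * Complex.I) * riesz c R y := by
      funext y; rw [riesz, Finset.prod_insert hj, riesz]
    rw [this]
    exact FL.map₂ ((FL.rad j).comp (fun x : ℝ => (1 + ((c j * x : ℝ) : ℂ) * Complex.I))) ih
      (fun a b => a * b)

lemma riesz_congr {c : ℕ → ℝ} {R : Finset ℕ} {y z : Ct} (h : ∀ k ∈ R, rad k y = rad k z) :
    riesz c R y = riesz c R z := by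
  apply Finset.prod_congr rfl
  intro k hk
  rw [h k hk]

lemma norm_riesz_le {c : ℕ → ℝ} {R : Finset ℕ} (h : ∑ k ∈ R, (c k) ^ 2 ≤ 1) (y : Ct) :
    ‖riesz c R y‖ ≤ 2 := by
  have h1 : ‖riesz c R y‖ ^ 2 = ∏ k ∈ R, (1 + (c k) ^ 2) := by
    rw [riesz, norm_prod, ← Finset.prod_pow]
    apply Finset.prod_congr rfl
    intro k _
    rw [← Complex.normSq_eq_norm_sq, Complex.normSq_apply]
    have := rad_sq k y
    simp
    linear_combination (c k) ^ 2 * this
  have h2 : ∏ k ∈ R, (1 + (c k) ^ 2) ≤ Real.exp (∑ k ∈ R, (c k) ^ 2) := by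
    rw [Real.exp_sum]
    apply Finset.prod_le_prod
    · intro k _; positivity
    · intro k _
      have := Real.add_one_le_exp ((c k) ^ 2)
      linarith
  have h3 : Real.exp (∑ k ∈ R, (c k) ^ 2) ≤ Real.exp 1 := Real.exp_le_exp.2 h
  have h4 : Real.exp 1 < 2.7182818286 := Real.exp_one_lt_d9
  have h5 : ‖riesz c R y‖ ^ 2 ≤ 2 ^ 2 := by rw [h1]; linarith
  exact abs_le_of_sq_le_sq' h5 (by norm_num) |>.2

section

variable (L : ℕ) (y₀ : Ct) (c : ℕ → ℝ)

lemma integral_rad_riesz {R : Finset ℕ} {j : ℕ} (hj : j ∉ R) (hL : L ≤ 2 * j) :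
    ∫ y, ((ind (cyl L y₀) y * rad j y : ℝ) : ℂ) * riesz c R y ∂lam = 0 := by
  apply integral_eq_zero_of_odd (single (2 * j))
  intro y
  rw [ind_cyl_tr (single_lt hL), rad_tr_self]
  have : riesz c R (tr (single (2 * j)) y) = riesz c R y := by
    apply riesz_congr
    intro k hk
    apply rad_tr_ne
    intro h
    have : j = k := by omega
    exact hj (this ▸ hk)
  rw [this]
  push_cast
  ring

lemma FL_ind_riesz (R : Finset ℕ) : FL (fun y => ((ind (cyl L y₀) y : ℝ) : ℂ) * riesz c R y) :=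
  FL.map₂ (fl_ind (fl_mem_cyl L y₀)) (fl_riesz c R) (fun (a : ℝ) (b : ℂ) => (a : ℂ) * b)

lemma FL_ind_rad_riesz (j : ℕ) (R : Finset ℕ) :
    FL (fun y => ((ind (cyl L y₀) y * rad j y : ℝ) : ℂ) * riesz c R y) :=
  FL.map₂ (FL.map₂ (fl_ind (fl_mem_cyl L y₀)) (FL.rad j) (fun a b => a * b)) (fl_riesz c R)
    (fun (a : ℝ) (b : ℂ) => (a : ℂ) * b)

lemma integral_riesz {R : Finset ℕ} (hR : ∀ k ∈ R, L ≤ 2 * k) :
    ∫ y, ((ind (cyl L y₀) y : ℝ) : ℂ) * riesz c R y ∂lam = (((1 / 2 : ℝ) ^ L : ℝ) : ℂ) := by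
  classical
  induction R using Finset.induction_on with
  | empty =>
    simp only [riesz, Finset.prod_empty, mul_one]
    rw [integral_complex_ofReal, integral_ind_cyl]
  | insert j R hj ih =>
    have e : ∀ y, ((ind (cyl L y₀) y : ℝ) : ℂ) * riesz c (insert j R) y
        = ((ind (cyl L y₀) y : ℝ) : ℂ) * riesz c R y
          + ((c j : ℂ) * Complex.I) * (((ind (cyl L y₀) y * rad j y : ℝ) : ℂ) * riesz c R y) := by
      intro y
      simp only [riesz]
      rw [Finset.prod_insert hj]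
      push_cast
      ring
    simp_rw [e]
    rw [integral_add (FL_ind_riesz L y₀ c R).integrable
      ((FL_ind_rad_riesz L y₀ c j R).integrable.const_mul _), integral_const_mul,
      integral_rad_riesz L y₀ c hj (hR j (Finset.mem_insert_self j R)), mul_zero, add_zero]
    exact ih (fun k hk => hR k (Finset.mem_insert_of_mem hk))

lemma integral_rad_riesz_mem {R : Finset ℕ} (hR : ∀ k ∈ R, L ≤ 2 * k) {j : ℕ} (hj : j ∈ R) :
    ∫ y, ((ind (cyl L y₀) y * rad j y : ℝ) : ℂ) * riesz c R y ∂lam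
      = (((c j) * (1 / 2 : ℝ) ^ L : ℝ) : ℂ) * Complex.I := by
  classical
  have hj' : j ∉ R.erase j := Finset.notMem_erase j R
  have e : ∀ y, ((ind (cyl L y₀) y * rad j y : ℝ) : ℂ) * riesz c R y
      = ((ind (cyl L y₀) y * rad j y : ℝ) : ℂ) * riesz c (R.erase j) y
        + ((c j : ℂ) * Complex.I) * (((ind (cyl L y₀) y : ℝ) : ℂ) * riesz c (R.erase j) y) := by
    intro y
    have h1 : riesz c R y = (1 + ((c j * rad j y : ℝ) : ℂ) * Complex.I) * riesz c (R.erase j) y := by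
      rw [riesz, riesz]
      exact (Finset.mul_prod_erase R (fun k => (1 + ((c k * rad k y : ℝ) : ℂ) * Complex.I)) hj).symm
    rw [h1]
    have h2 : ((rad j y : ℝ) : ℂ) * ((rad j y : ℝ) : ℂ) = 1 := by
      rw [← Complex.ofReal_mul, rad_sq]; simp
    push_cast
    linear_combination ((ind (cyl L y₀) y : ℝ) : ℂ) * (c j : ℂ) * Complex.I *
      riesz c (R.erase j) y * h2
  simp_rw [e]
  rw [integral_add (FL_ind_rad_riesz L y₀ c j _).integrable
      ((FL_ind_riesz L y₀ c _).integrable.const_mul _), integral_const_mul,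
      integral_rad_riesz L y₀ c hj' (hR j hj),
      integral_riesz L y₀ c (fun k hk => hR k (Finset.mem_of_mem_erase hk))]
  push_cast
  ring

end

/-- the real function with prescribed coefficients -/
noncomputable def hfun (c : ℕ → ℝ) (Q : Finset ℕ) (y : Ct) : ℝ := 1 / 2 + 1 / 4 * (riesz c Q y).im

lemma hfun_mem {c : ℕ → ℝ} {Q : Finset ℕ} (h : ∑ k ∈ Q, (c k) ^ 2 ≤ 1) (y : Ct) :
    0 ≤ hfun c Q y ∧ hfun c Q y ≤ 1 := by
  have h1 := norm_riesz_le h y
  have h2 := (Complex.abs_im_le_norm (riesz c Q y)).trans h1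
  rw [abs_le] at h2
  unfold hfun
  constructor <;> linarith

lemma fl_hfun (c : ℕ → ℝ) (Q : Finset ℕ) : FL (hfun c Q) :=
  (fl_riesz c Q).comp (fun z : ℂ => 1 / 2 + 1 / 4 * z.im)

lemma integral_hfun {L : ℕ} {y₀ : Ct} {c : ℕ → ℝ} {Q : Finset ℕ} (hQ : ∀ k ∈ Q, L ≤ 2 * k) {j : ℕ}
    (hj : L ≤ 2 * j) :
    ∫ y, (ind (cyl L y₀) y * rad j y) * hfun c Q y ∂lam
      = if j ∈ Q then 1 / 4 * (c j * (1 / 2) ^ L) else 0 := by
  have e : ∀ y, (ind (cyl L y₀) y * rad j y) * hfun c Q y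
      = 1 / 2 * (ind (cyl L y₀) y * rad j y)
        + 1 / 4 * (((ind (cyl L y₀) y * rad j y : ℝ) : ℂ) * riesz c Q y).im := by
    intro y
    rw [Complex.im_ofReal_mul, hfun]
    ring
  have hi1 : FL (fun y => ind (cyl L y₀) y * rad j y) :=
    FL.map₂ (fl_ind (fl_mem_cyl L y₀)) (FL.rad j) (fun a b => a * b)
  have hi2 := FL_ind_rad_riesz L y₀ c j Q
  have hi3 : FL (fun y => (((ind (cyl L y₀) y * rad j y : ℝ) : ℂ) * riesz c Q y).im) :=
    hi2.comp (fun z : ℂ => z.im)
  have e2 : ∫ y, (ind (cyl L y₀) y * rad j y) ∂lam = 0 := by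
    apply integral_eq_zero_of_odd (single (2 * j))
    intro y
    rw [ind_cyl_tr (single_lt hj), rad_tr_self]
    ring
  have e3 : ∫ y, (((ind (cyl L y₀) y * rad j y : ℝ) : ℂ) * riesz c Q y).im ∂lam
      = (∫ y, ((ind (cyl L y₀) y * rad j y : ℝ) : ℂ) * riesz c Q y ∂lam).im :=
    integral_im hi2.integrable
  simp_rw [e]
  rw [integral_add (hi1.integrable.const_mul _) (hi3.integrable.const_mul _), integral_const_mul,
    integral_const_mul, e2, e3, mul_zero, zero_add]
  split_ifs with hjQ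
  · rw [integral_rad_riesz_mem L y₀ c hQ hjQ, Complex.im_ofReal_mul, Complex.I_im, mul_one]
  · rw [integral_rad_riesz L y₀ c hjQ hj, Complex.zero_im, mul_zero]

end Pool.Agent.Helper71.Nik
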