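import Pool.Agent.Helper71.Nik.Kill

/-! The transfinite recursion. -/

namespace Pool.Agent.Helper71.Nik

open MeasureTheory Set
open BooleanSubalgebra (closure)

lemma exists_rec {I : Type*} [LinearOrder I] [WellFoundedLT I] {β : Type*} [Inhabited β]
    (P : I → (I → β) → β → Prop)
    (hdep : ∀ i F F' t, (∀ j < i, F j = F' j) → P i F t → P i F' t)
    (hex : ∀ i F, ∃ t, P i F t) : ∃ F : I → β, ∀ i, P i F (F i) := by
  classical
  choose f hf using hex
  set F : I → β := (wellFounded_lt (α := I)).fix (fun i rec =>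
    f i (fun j => if h : j < i then rec j h else default)) with hF
  have hFi : ∀ i, F i = f i (fun j => if j < i then F j else default) := by
    intro i
    rw [hF]
    rw [WellFounded.fix_eq]
    rfl
  refine ⟨F, fun i => ?_⟩
  have h1 := hf i (fun j => if j < i then F j else default)
  rw [← hFi] at h1
  refine hdep i _ _ _ ?_ h1
  intro j hj
  simp [hj]

/-- limit points of the index order -/
def IsLim {Ω : Type} [LinearOrder Ω] (α : Ω) : Prop := (∃ β, β < α) ∧ ∀ β < α, ∃ γ, β < γ ∧ γ < α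

section

variable {I : Type} [LinearOrder I]

/-- the algebra at stage `i` -/
def alg (F : I → Set XX) (i : I) : BooleanSubalgebra (Set XX) :=
  closure ({s | ∃ n D y, s = Cyl n D y} ∪ F '' Iio i)

lemma alg_congr {F F' : I → Set XX} {i : I} (h : ∀ j < i, F j = F' j) : alg F i = alg F' i := by
  unfold alg
  congr 2
  apply Set.image_congr
  intro j hj
  exact h j hj

variable {F : I → Set XX}

lemma base_le_alg (i : I) : base ≤ alg F i := BooleanSubalgebra.closure_mono subset_union_left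

lemma alg_mono {i j : I} (h : i ≤ j) : alg F i ≤ alg F j :=
  BooleanSubalgebra.closure_mono (union_subset_union_right _ (image_mono (Iio_subset_Iio h)))

lemma adj_alg_le {i j : I} (h : j < i) : adj (alg F j) (F j) ≤ alg F i :=
  adj_le (alg_mono h.le) (BooleanSubalgebra.subset_closure (Or.inr ⟨j, h, rfl⟩))

lemma mem_alg_iff {i : I} {x : Set XX} :
    x ∈ alg F i ↔ x ∈ base ∨ ∃ j < i, x ∈ adj (alg F j) (F j) := by
  constructor
  · intro hx
    unfold alg at hx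
    induction hx using BooleanSubalgebra.closure_bot_sup_induction with
    | mem x hx =>
      rcases hx with hx | ⟨j, hj, rfl⟩
      · exact Or.inl (BooleanSubalgebra.subset_closure hx)
      · exact Or.inr ⟨j, hj, self_mem_adj⟩
    | bot => exact Or.inl BooleanSubalgebra.bot_mem
    | sup x _ y _ h1 h2 =>
      rcases h1 with h1 | ⟨j, hj, h1⟩
      · rcases h2 with h2 | ⟨j, hj, h2⟩
        · exact Or.inl (union_mem h1 h2)
        · exact Or.inr ⟨j, hj, union_mem (le_adj (base_le_alg j h1)) h2⟩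
      · rcases h2 with h2 | ⟨j', hj', h2⟩
        · exact Or.inr ⟨j, hj, union_mem h1 (le_adj (base_le_alg j h2))⟩
        · rcases le_total j j' with h | h
          · refine Or.inr ⟨j', hj', union_mem ?_ h2⟩
            rcases h.lt_or_eq with h | h
            · exact le_adj (adj_alg_le h h1)
            · subst h; exact h1
          · refine Or.inr ⟨j, hj, union_mem h1 ?_⟩
            rcases h.lt_or_eq with h | h
            · exact le_adj (adj_alg_le h h2)
            · subst h; exact h2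
    | compl x _ h1 =>
      rcases h1 with h1 | ⟨j, hj, h1⟩
      · exact Or.inl (compl_mem h1)
      · exact Or.inr ⟨j, hj, compl_mem h1⟩
  · rintro (h | ⟨j, hj, h⟩)
    · exact base_le_alg i h
    · exact adj_alg_le hj h

end

open Classical in
/-- an enumeration of a countable algebra -/
noncomputable def enum (𝒜 : BooleanSubalgebra (Set XX)) : ℕ → Set XX :=
  if h : ∃ f : ℕ → Set XX, (𝒜 : Set (Set XX)) = range f then h.choose else fun _ => ∅

lemma enum_spec {𝒜 : BooleanSubalgebra (Set XX)} (h : (𝒜 : Set (Set XX)).Countable) :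
    (𝒜 : Set (Set XX)) = range (enum 𝒜) := by
  have h1 : ∃ f : ℕ → Set XX, (𝒜 : Set (Set XX)) = range f := h.exists_eq_range ⟨∅, empty_mem⟩
  rw [enum, dif_pos h1]
  exact h1.choose_spec

open Classical in
/-- an enumeration of the tasks of a countable algebra -/
noncomputable def tasks (𝒜 : BooleanSubalgebra (Set XX)) : ℕ → ℕ × Set XX × Set XX :=
  fun m => (m.unpair.1, enum 𝒜 m.unpair.2.unpair.1, enum 𝒜 m.unpair.2.unpair.2)

lemma tasks_spec {𝒜 : BooleanSubalgebra (Set XX)} (h : (𝒜 : Set (Set XX)).Countable) (n : ℕ)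
    {b s : Set XX} (hb : b ∈ 𝒜) (hs : s ∈ 𝒜) : ∃ m, tasks 𝒜 m = (n, b, s) := by
  have h1 : b ∈ (𝒜 : Set (Set XX)) := hb
  have h2 : s ∈ (𝒜 : Set (Set XX)) := hs
  rw [enum_spec h] at h1 h2
  obtain ⟨i, hi⟩ := h1
  obtain ⟨j, hj⟩ := h2
  refine ⟨Nat.pair n (Nat.pair i j), ?_⟩
  simp [tasks, hi, hj]

section

variable {Ω : Type} [LinearOrder Ω]

/-- the kill condition at a stage -/
def KillC (g : Ω → Ω → ℕ → ℕ → ℝ) (i : Ω ×ₗ ℕ) (F : Ω ×ₗ ℕ → Set XX) (t : Set XX) : Prop :=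
  (ofLex i).2 = 0 → Good (alg F i) → L2 (alg F i) →
    (∀ b ∈ alg F i, ∃ β < (ofLex i).1, b ∈ alg F (toLex (β, 0))) →
    (∀ β < (ofLex i).1, Good (alg F (toLex (β, 0)))) →
    ∀ μ : ℕ → Set XX → ℝ,
      (∀ β < (ofLex i).1, ∀ n k, μ k (enum (alg F (toLex (β, 0))) n) = g (ofLex i).1 β n k) →
      Bad (alg F i) μ → ∃ U, Killed (alg F i) U μ t

/-- the task condition at a stage -/
def TaskC (i : Ω ×ₗ ℕ) (F : Ω ×ₗ ℕ → Set XX) (t : Set XX) : Prop :=
  ∀ m, (ofLex i).2 = m + 1 → Good (alg F i) → ∀ n b D y, b ⊆ V n →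
    tasks (alg F (toLex ((ofLex i).1, 0))) m = (n, b, Cyl n D y) → b ∈ alg F i →
    ∃ c ∈ adj (alg F i) t, c ⊆ V n ∧ c \ Cyl n D y = b \ Cyl n D y ∧ NN n c

/-- all conditions -/
def PP (g : Ω → Ω → ℕ → ℕ → ℝ) (i : Ω ×ₗ ℕ) (F : Ω ×ₗ ℕ → Set XX) (t : Set XX) : Prop :=
  Simple (alg F i) t ∧ (Good (alg F i) → Good (adj (alg F i) t)) ∧ KillC g i F t ∧ TaskC i F t

lemma lex_lt_of {α β : Ω} (h : β < α) (m n : ℕ) : (toLex (β, m) : Ω ×ₗ ℕ) < toLex (α, n) := by
  rw [Prod.Lex.toLex_lt_toLex]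
  exact Or.inl h

lemma PP_dep (g : Ω → Ω → ℕ → ℕ → ℝ) (i : Ω ×ₗ ℕ) (F F' : Ω ×ₗ ℕ → Set XX) (t : Set XX)
    (h : ∀ j < i, F j = F' j) (hP : PP g i F t) : PP g i F' t := by
  have e1 : alg F i = alg F' i := alg_congr h
  have hi : i = toLex ((ofLex i).1, (ofLex i).2) := rfl
  have e2 : ∀ β < (ofLex i).1, alg F (toLex (β, 0)) = alg F' (toLex (β, 0)) := by
    intro β hβ
    apply alg_congr
    intro j hj
    apply h
    refine hj.trans ?_
    rw [hi]
    exact lex_lt_of hβ _ _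
  have e3 : alg F (toLex ((ofLex i).1, 0)) = alg F' (toLex ((ofLex i).1, 0)) := by
    apply alg_congr
    intro j hj
    apply h
    refine hj.trans_le ?_
    conv_rhs => rw [hi]
    rw [Prod.Lex.toLex_le_toLex]
    exact Or.inr ⟨rfl, Nat.zero_le _⟩
  obtain ⟨h1, h2, h3, h4⟩ := hP
  refine ⟨e1 ▸ h1, e1 ▸ h2, ?_, ?_⟩
  · intro k1 k2 k3 k4 k5 μ k6 k7
    rw [← e1] at k2 k3 k4 k7 ⊢
    refine h3 k1 k2 k3 ?_ ?_ μ ?_ k7
    · intro b hb
      obtain ⟨β, hβ, hb'⟩ := k4 b hb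
      exact ⟨β, hβ, by rw [e2 β hβ]; exact hb'⟩
    · intro β hβ
      rw [e2 β hβ]; exact k5 β hβ
    · intro β hβ n k
      rw [e2 β hβ]; exact k6 β hβ n k
  · intro m k1 k2 n b D y k3 k4 k5
    rw [← e1] at k2 k5 ⊢
    rw [← e3] at k4
    exact h4 m k1 k2 n b D y k3 k4 k5

lemma adj_empty (𝒜 : BooleanSubalgebra (Set XX)) : adj 𝒜 ∅ = 𝒜 :=
  le_antisymm (adj_le le_rfl empty_mem) le_adj

lemma simple_empty (𝒜 : BooleanSubalgebra (Set XX)) : Simple 𝒜 ∅ := by
  intro b _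
  left
  rw [empty_inter]
  exact empty_mem

lemma PP_ex (g : Ω → Ω → ℕ → ℕ → ℝ) (i : Ω ×ₗ ℕ) (F : Ω ×ₗ ℕ → Set XX) : ∃ t, PP g i F t := by
  rcases Nat.eq_zero_or_pos (ofLex i).2 with h0 | h0
  · -- a kill stage
    have htask : ∀ t, TaskC i F t := by
      intro t m hm
      omega
    by_cases hc : Good (alg F i) ∧ L2 (alg F i) ∧
        (∀ b ∈ alg F i, ∃ β < (ofLex i).1, b ∈ alg F (toLex (β, 0))) ∧
        (∀ β < (ofLex i).1, Good (alg F (toLex (β, 0)))) ∧
        ∃ μ : ℕ → Set XX → ℝ,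
          (∀ β < (ofLex i).1, ∀ n k, μ k (enum (alg F (toLex (β, 0))) n) = g (ofLex i).1 β n k) ∧
          Bad (alg F i) μ
    · obtain ⟨hG, hL, hcov, hGβ, μ, hμ, hbad⟩ := hc
      obtain ⟨U, a, h1, h2, h3⟩ := kill hG hL hbad
      refine ⟨a, h1, fun _ => h2, ?_, htask a⟩
      intro _ _ _ _ _ ν hν _
      refine ⟨U, h3.congr ?_⟩
      intro k b hb
      obtain ⟨β, hβ, hb'⟩ := hcov b hb
      have : b ∈ (alg F (toLex (β, 0)) : Set (Set XX)) := hb'
      rw [enum_spec (hGβ β hβ).count] at this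
      obtain ⟨n, rfl⟩ := this
      rw [hμ β hβ n k, hν β hβ n k]
    · refine ⟨∅, simple_empty _, fun h => by rw [adj_empty]; exact h, ?_, htask ∅⟩
      intro k1 k2 k3 k4 k5 μ k6 k7
      exact absurd ⟨k2, k3, k4, k5, μ, k6, k7⟩ hc
  · -- a task stage
    obtain ⟨m, hm⟩ : ∃ m, (ofLex i).2 = m + 1 := ⟨(ofLex i).2 - 1, by omega⟩
    have hkill : ∀ t, KillC g i F t := by
      intro t h
      omega
    by_cases hc : Good (alg F i) ∧ ∃ n b D y, b ⊆ V n ∧
        tasks (alg F (toLex ((ofLex i).1, 0))) m = (n, b, Cyl n D y) ∧ b ∈ alg F i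
    · obtain ⟨hG, n, b, D, y, hbV, htask, hb⟩ := hc
      obtain ⟨a, h1, h2, h3⟩ := task_lemma hG n hb hbV D y
      refine ⟨a, h1, fun _ => h2, hkill a, ?_⟩
      intro m' hm' _ n' b' D' y' hbV' htask' hb'
      have : m = m' := by omega
      subst this
      rw [htask] at htask'
      simp only [Prod.mk.injEq] at htask'
      obtain ⟨rfl, rfl, e⟩ := htask'
      rw [← e]
      exact h3
    · refine ⟨∅, simple_empty _, fun h => by rw [adj_empty]; exact h, hkill ∅, ?_⟩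
      intro m' hm' k1 n b D y k2 k3 k4
      have : m = m' := by omega
      subst this
      exact absurd ⟨k1, n, b, D, y, k2, k3, k4⟩ hc

variable [WellFoundedLT Ω]

theorem exists_F (g : Ω → Ω → ℕ → ℕ → ℝ) : ∃ F : Ω ×ₗ ℕ → Set XX, ∀ i, PP g i F (F i) :=
  exists_rec (PP g) (PP_dep g) (PP_ex g)

lemma countable_Iio_lex (hc : ∀ α : Ω, (Iio α).Countable) (i : Ω ×ₗ ℕ) : (Iio i).Countable := by
  have h1 : (Iic (ofLex i).1).Countable := by
    rw [← Iio_insert]
    exact (hc _).insert _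
  have h2 : ((Iic (ofLex i).1) ×ˢ (univ : Set ℕ)).Countable := h1.prod (Set.countable_univ)
  refine (h2.image toLex).mono ?_
  intro j hj
  refine ⟨ofLex j, ⟨?_, trivial⟩, rfl⟩
  have hj' : j < i := hj
  have h3 : toLex (ofLex j) < toLex (ofLex i) := hj'
  rw [Prod.Lex.toLex_lt_toLex] at h3
  rcases h3 with h3 | h3
  · exact h3.le
  · exact h3.1.le

theorem good_alg (hc : ∀ α : Ω, (Iio α).Countable) {g : Ω → Ω → ℕ → ℕ → ℝ} {F : Ω ×ₗ ℕ → Set XX}
    (hF : ∀ i, PP g i F (F i)) (i : Ω ×ₗ ℕ) : Good (alg F i) := by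
  induction i using WellFoundedLT.induction with
  | ind i ih =>
    have hadj : ∀ j < i, Good (adj (alg F j) (F j)) := fun j hj => (hF j).2.1 (ih j hj)
    refine ⟨base_le_alg i, ?_, ?_⟩
    · intro x hx
      rcases mem_alg_iff.1 hx with h | ⟨j, hj, h⟩
      · exact good_base.ok x h
      · exact (hadj j hj).ok x h
    · have : (alg F i : Set (Set XX)) ⊆ (base : Set (Set XX)) ∪
          ⋃ j ∈ Iio i, (adj (alg F j) (F j) : Set (Set XX)) := by
        intro x hx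
        rcases mem_alg_iff.1 hx with h | ⟨j, hj, h⟩
        · exact Or.inl h
        · exact Or.inr (mem_biUnion (show j ∈ Iio i from hj) h)
      refine Set.Countable.mono this (countable_base.union ?_)
      exact (countable_Iio_lex hc i).biUnion (fun j hj => (hadj j hj).count)

/-- at limits every element appears at an earlier limit-type stage -/
lemma cover_lim {F : Ω ×ₗ ℕ → Set XX} {α : Ω} (hα : IsLim α) {b : Set XX}
    (hb : b ∈ alg F (toLex (α, 0))) : ∃ γ < α, b ∈ alg F (toLex (γ, 0)) := by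
  rcases mem_alg_iff.1 hb with h | ⟨j, hj, h⟩
  · obtain ⟨β, hβ⟩ := hα.1
    exact ⟨β, hβ, base_le_alg _ h⟩
  · have hj' : (ofLex j).1 < α := by
      have h3 : toLex (ofLex j) < toLex (α, 0) := hj
      rw [Prod.Lex.toLex_lt_toLex] at h3
      rcases h3 with h3 | h3
      · exact h3
      · exact absurd h3.2 (by simp)
    obtain ⟨γ, h1, h2⟩ := hα.2 _ hj'
    refine ⟨γ, h2, adj_alg_le ?_ h⟩
    exact lex_lt_of (β := (ofLex j).1) h1 (ofLex j).2 0

theorem L2_lim (hc : ∀ α : Ω, (Iio α).Countable) {g : Ω → Ω → ℕ → ℕ → ℝ} {F : Ω ×ₗ ℕ → Set XX}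
    (hF : ∀ i, PP g i F (F i)) {α : Ω} (hα : IsLim α) : L2 (alg F (toLex (α, 0))) := by
  intro n b hb hbV D y
  obtain ⟨γ, hγ, hbγ⟩ := cover_lim hα hb
  obtain ⟨m, hm⟩ := tasks_spec (good_alg hc hF (toLex (γ, 0))).count n hbγ
    ((good_alg hc hF (toLex (γ, 0))).base (cyl_mem_base n D y))
  have h0 : (toLex (γ, 0) : Ω ×ₗ ℕ) ≤ toLex (γ, m + 1) := by
    rw [Prod.Lex.toLex_le_toLex]
    exact Or.inr ⟨rfl, Nat.zero_le _⟩
  obtain ⟨c, hc1, hc2⟩ := (hF (toLex (γ, m + 1))).2.2.2 m rfl (good_alg hc hF _) n b D y hbV hm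
    (alg_mono h0 hbγ)
  exact ⟨c, adj_alg_le (lex_lt_of hγ _ _) hc1, hc2⟩

/-- the final algebra -/
def fin (F : Ω ×ₗ ℕ → Set XX) : BooleanSubalgebra (Set XX) :=
  closure ({s | ∃ n D y, s = Cyl n D y} ∪ range F)

lemma alg_le_fin (F : Ω ×ₗ ℕ → Set XX) (i : Ω ×ₗ ℕ) : alg F i ≤ fin F :=
  BooleanSubalgebra.closure_mono (union_subset_union_right _ (image_subset_range _ _))

lemma F_mem_fin (F : Ω ×ₗ ℕ → Set XX) (i : Ω ×ₗ ℕ) : F i ∈ fin F :=
  BooleanSubalgebra.subset_closure (Or.inr ⟨i, rfl⟩)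

lemma mem_fin [Nonempty Ω] [NoMaxOrder Ω] {F : Ω ×ₗ ℕ → Set XX} {x : Set XX} (hx : x ∈ fin F) :
    ∃ α : Ω, x ∈ alg F (toLex (α, 0)) := by
  unfold fin at hx
  have hmono : ∀ {α β : Ω}, α ≤ β → alg F (toLex (α, 0)) ≤ alg F (toLex (β, 0)) := by
    intro α β h
    apply alg_mono
    rcases h.lt_or_eq with h | h
    · exact (lex_lt_of h _ _).le
    · rw [h]
  induction hx using BooleanSubalgebra.closure_bot_sup_induction with
  | mem x hx =>
    rcases hx with hx | ⟨j, rfl⟩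
    · exact ⟨Classical.arbitrary Ω, base_le_alg _ (BooleanSubalgebra.subset_closure hx)⟩
    · obtain ⟨α, hα⟩ := exists_gt (ofLex j).1
      refine ⟨α, adj_alg_le (j := j) ?_ self_mem_adj⟩
      exact lex_lt_of (β := (ofLex j).1) hα (ofLex j).2 0
  | bot => exact ⟨Classical.arbitrary Ω, BooleanSubalgebra.bot_mem⟩
  | sup x _ y _ h1 h2 =>
    obtain ⟨α, h1⟩ := h1
    obtain ⟨β, h2⟩ := h2
    exact ⟨max α β, union_mem (hmono (le_max_left _ _) h1) (hmono (le_max_right _ _) h2)⟩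
  | compl x _ h1 =>
    obtain ⟨α, h1⟩ := h1
    exact ⟨α, compl_mem h1⟩

end

end Pool.Agent.Helper71.Nik
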