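import Pool.Agent.Helper71.Nik.Realize

/-! Rounding functions to sets with the help of the odd coordinates. -/

namespace Pool.Agent.Helper71.Nik

open MeasureTheory Set
open scoped ENNReal

/-- the odd coordinates used for rounding -/
def rho (L l : ℕ) (y : Ct) : Fin l → Bool := fun i => y (2 * (L + i) + 1)

/-- the translation acting on those coordinates -/
def emb (L l : ℕ) (w : Fin l → Bool) : Ct :=
  fun j => decide (∃ i : Fin l, j = 2 * (L + i) + 1 ∧ w i = true)

lemma rho_tr (L l : ℕ) (w : Fin l → Bool) (y : Ct) :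
    rho L l (tr (emb L l w) y) = fun i => xor (w i) (rho L l y i) := by
  funext i
  simp only [rho, tr]
  congr 1
  simp only [emb]
  by_cases hw : w i = true
  · rw [hw, decide_eq_true_eq]
    exact ⟨i, rfl, hw⟩
  · rw [Bool.not_eq_true] at hw
    rw [hw, decide_eq_false_iff_not]
    rintro ⟨i', hi', hw'⟩
    have : i = i' := by
      apply Fin.ext; omega
    rw [this, hw'] at hw
    exact absurd hw (by simp)

lemma emb_even (L l : ℕ) (w : Fin l → Bool) (k : ℕ) : emb L l w (2 * k) = false := by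
  simp only [emb, decide_eq_false_iff_not]
  rintro ⟨i, hi, _⟩
  omega

lemma emb_lt (L l : ℕ) (w : Fin l → Bool) : ∀ i < L, emb L l w i = false := by
  intro i hi
  simp only [emb, decide_eq_false_iff_not]
  rintro ⟨i', hi', _⟩
  omega

lemma rad_tr_emb (L l : ℕ) (w : Fin l → Bool) (k : ℕ) (y : Ct) :
    rad k (tr (emb L l w) y) = rad k y := by
  have h1 : tr (emb L l w) y (2 * k) = y (2 * k) := by
    simp only [tr, emb_even]
    simp
  simp only [rad, h1]

lemma rho_tr_single (L l : ℕ) (k : ℕ) (y : Ct) : rho L l (tr (single (2 * k)) y) = rho L l y := by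
  funext i
  simp only [rho, tr, single]
  rw [decide_eq_false (by omega)]
  simp

open Classical in
lemma sum_xor {l : ℕ} (v : Fin l → Bool) (T : Finset (Fin l → Bool)) :
    ∑ w : Fin l → Bool, (if (fun i => xor (w i) (v i)) ∈ T then (1 : ℝ) else 0) = T.card := by
  have hinv : Function.Involutive (fun w : Fin l → Bool => fun i => xor (w i) (v i)) := by
    intro w; funext i
    simp
  have := Fintype.sum_equiv hinv.toPerm
    (fun w : Fin l → Bool => if (fun i => xor (w i) (v i)) ∈ T then (1 : ℝ) else 0)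
    (fun w : Fin l → Bool => if w ∈ T then (1 : ℝ) else 0) (fun w => rfl)
  rw [this]
  simp

theorem realize (L : ℕ) (y₀ : Ct) (Q : Finset ℕ) (hQ : ∀ k ∈ Q, L ≤ 2 * k) (t : ℕ → ℝ)
    (ht : ∑ k ∈ Q, (t k) ^ 2 ≤ ((1 / 2 : ℝ) ^ L) ^ 2 / 16) {ε : ℝ} (hε : 0 < ε) :
    ∃ a : Set Ct, a ⊆ cyl L y₀ ∧ FL (fun y => y ∈ a) ∧ (∀ k ∈ Q, |cf k a - t k| ≤ ε) ∧
      (∀ k, L ≤ 2 * k → k ∉ Q → cf k a = 0) := by
  classical
  set Λ : ℝ := (1 / 2 : ℝ) ^ L with hΛ
  have hΛ0 : 0 < Λ := by positivity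
  set c : ℕ → ℝ := fun k => 4 * t k / Λ with hc
  have hc1 : ∑ k ∈ Q, (c k) ^ 2 ≤ 1 := by
    have : ∑ k ∈ Q, (c k) ^ 2 = 16 / Λ ^ 2 * ∑ k ∈ Q, (t k) ^ 2 := by
      rw [Finset.mul_sum]
      apply Finset.sum_congr rfl
      intro k _
      simp only [hc]
      field_simp
      ring
    rw [this]
    have h2 : 0 < Λ ^ 2 := by positivity
    calc 16 / Λ ^ 2 * ∑ k ∈ Q, (t k) ^ 2 ≤ 16 / Λ ^ 2 * (Λ ^ 2 / 16) := by
          apply mul_le_mul_of_nonneg_left ht (by positivity)
      _ = 1 := by field_simp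
  obtain ⟨l, hl⟩ := exists_pow_lt_of_lt_one hε (show (1 / 2 : ℝ) < 1 by norm_num)
  have hT : ∀ v : ℝ, ∃ T : Finset (Fin l → Bool), 0 ≤ v ∧ v ≤ 1 → T.card = ⌊v * 2 ^ l⌋₊ := by
    intro v
    by_cases hv : 0 ≤ v ∧ v ≤ 1
    · have h1 : ⌊v * 2 ^ l⌋₊ ≤ (Finset.univ : Finset (Fin l → Bool)).card := by
        rw [Finset.card_univ, Fintype.card_fun, Fintype.card_bool, Fintype.card_fin]
        apply Nat.floor_le_of_le
        push_cast
        have : (0 : ℝ) < 2 ^ l := by positivity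
        nlinarith [hv.2]
      obtain ⟨T, _, hT⟩ := Finset.exists_subset_card_eq h1
      exact ⟨T, fun _ => hT⟩
    · exact ⟨∅, fun h => absurd h hv⟩
  choose T hT using hT
  set h := hfun c Q with hh
  have hmem : ∀ y, 0 ≤ h y ∧ h y ≤ 1 := fun y => hfun_mem hc1 y
  have hcard : ∀ y, ((T (h y)).card : ℝ) = ⌊h y * 2 ^ l⌋₊ := fun y => by rw [hT _ (hmem y)]
  have hclose : ∀ y, |((T (h y)).card : ℝ) / 2 ^ l - h y| ≤ (1 / 2) ^ l := by
    intro y
    rw [hcard]
    have h2 : (0 : ℝ) < 2 ^ l := by positivity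
    have h3 : 0 ≤ h y * 2 ^ l := mul_nonneg (hmem y).1 h2.le
    have h4 := Nat.floor_le h3
    have h5 := Nat.lt_floor_add_one (h y * 2 ^ l)
    have h6 : (⌊h y * 2 ^ l⌋₊ : ℝ) / 2 ^ l - h y = ((⌊h y * 2 ^ l⌋₊ : ℝ) - h y * 2 ^ l) / 2 ^ l := by
      field_simp
    rw [h6, abs_div, abs_of_pos h2, div_le_iff₀ h2]
    have h7 : (1 / 2 : ℝ) ^ l * 2 ^ l = 1 := by rw [← mul_pow]; norm_num
    rw [h7, abs_le]
    constructor <;> linarith
  set a : Set Ct := {y | y ∈ cyl L y₀ ∧ rho L l y ∈ T (h y)} with ha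
  have hhtr : ∀ w y, h (tr (emb L l w) y) = h y := by
    intro w y
    simp only [hh, hfun]
    rw [riesz_congr (fun k _ => rad_tr_emb L l w k y)]
  have hFLrho : FL (rho L l) := FL.pi (fun i => FL.coord _)
  have hFLa : FL (fun y => y ∈ a) := by
    have h1 : FL (fun y => rho L l y ∈ T (h y)) :=
      FL.map₂ hFLrho (fl_hfun c Q) (fun u v => u ∈ T v)
    exact FL.map₂ (fl_mem_cyl L y₀) h1 (fun p q => p ∧ q)
  have hmeas : MeasurableSet a := fl_measurableSet hFLa
  have hind : ∀ y, a.indicator (fun _ => (1 : ℝ)) y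
      = ind (cyl L y₀) y * (if rho L l y ∈ T (h y) then 1 else 0) := by
    intro y
    rw [ind_apply, Set.indicator_apply]
    simp only [ha, Set.mem_ofPred_eq]
    split_ifs <;> simp_all
  -- averaging
  have havg : ∀ k, cf k a = ∫ y, (ind (cyl L y₀) y * rad k y) * (((T (h y)).card : ℝ) / 2 ^ l) ∂lam := by
    intro k
    rw [cf_eq hmeas]
    set F : Ct → ℝ := fun y => a.indicator (fun _ => (1 : ℝ)) y * rad k y with hF
    have hFFL : FL F := FL.map₂ (fl_ind hFLa) (FL.rad k) (fun a b => a * b)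
    have e1 : ∀ w : Fin l → Bool, ∫ y, F (tr (emb L l w) y) ∂lam = ∫ y, F y ∂lam :=
      fun w => integral_tr _ F
    have e2 : ∀ w : Fin l → Bool, ∀ y, F (tr (emb L l w) y)
        = (ind (cyl L y₀) y * rad k y) *
          (if (fun i => xor (w i) (rho L l y i)) ∈ T (h y) then 1 else 0) := by
      intro w y
      simp only [hF]
      rw [hind, rad_tr_emb, ind_cyl_tr (emb_lt L l w), hhtr, rho_tr]
      ring
    have hFLw : ∀ w : Fin l → Bool, FL (fun y => F (tr (emb L l w) y)) := by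
      intro w
      obtain ⟨M, hM⟩ := hFFL
      refine ⟨M, fun z z' hz => hM _ _ (fun i hi => ?_)⟩
      simp only [tr, hz i hi]
    have e3 : ∑ w : Fin l → Bool, ∫ y, F (tr (emb L l w) y) ∂lam = 2 ^ l * ∫ y, F y ∂lam := by
      simp_rw [e1]
      rw [Finset.sum_const, Finset.card_univ, Fintype.card_fun, Fintype.card_bool, Fintype.card_fin,
        nsmul_eq_mul]
      push_cast
      rfl
    rw [← integral_finsetSum _ (fun w _ => (hFLw w).integrable)] at e3
    have e4 : ∀ y, ∑ w : Fin l → Bool, F (tr (emb L l w) y)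
        = (ind (cyl L y₀) y * rad k y) * ((T (h y)).card : ℝ) := by
      intro y
      simp_rw [e2]
      rw [← Finset.mul_sum, sum_xor]
    simp_rw [e4] at e3
    have h2 : (2 : ℝ) ^ l ≠ 0 := by positivity
    have e5 : ∀ y, (ind (cyl L y₀) y * rad k y) * (((T (h y)).card : ℝ) / 2 ^ l)
        = (1 / 2 ^ l) * ((ind (cyl L y₀) y * rad k y) * ((T (h y)).card : ℝ)) := by
      intro y; ring
    simp_rw [e5]
    rw [integral_const_mul, e3]
    field_simp
  refine ⟨a, fun y hy => hy.1, hFLa, ?_, ?_⟩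
  · intro k hk
    rw [havg]
    have e1 := integral_hfun (y₀ := y₀) (c := c) hQ (hQ k hk)
    rw [if_pos hk] at e1
    have e2 : 1 / 4 * (c k * (1 / 2) ^ L) = t k := by
      simp only [hc]; rw [← hΛ]; field_simp
    rw [e2] at e1
    rw [← e1]
    have hf1 : FL (fun y => (ind (cyl L y₀) y * rad k y) * (((T (h y)).card : ℝ) / 2 ^ l)) :=
      FL.map₂ (FL.map₂ (fl_ind (fl_mem_cyl L y₀)) (FL.rad k) (fun a b => a * b)) (fl_hfun c Q)
        (fun a b => a * (((T b).card : ℝ) / 2 ^ l))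
    have hf2 : FL (fun y => (ind (cyl L y₀) y * rad k y) * hfun c Q y) :=
      FL.map₂ (FL.map₂ (fl_ind (fl_mem_cyl L y₀)) (FL.rad k) (fun a b => a * b)) (fl_hfun c Q)
        (fun a b => a * b)
    rw [← integral_sub hf1.integrable hf2.integrable]
    refine le_trans ?_ hl.le
    have := norm_integral_le_of_norm_le_const (μ := lam) (C := (1 / 2 : ℝ) ^ l)
      (f := fun y => (ind (cyl L y₀) y * rad k y) * (((T (h y)).card : ℝ) / 2 ^ l)
        - (ind (cyl L y₀) y * rad k y) * hfun c Q y) (Filter.Eventually.of_forall fun y => ?_)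
    · simpa using this
    · rw [← mul_sub, norm_mul, norm_mul, Real.norm_eq_abs, Real.norm_eq_abs, Real.norm_eq_abs,
        rad_abs, mul_one]
      have h1 : |ind (cyl L y₀) y| ≤ 1 := by
        rw [ind_apply]; split_ifs <;> simp
      calc |ind (cyl L y₀) y| * |((T (h y)).card : ℝ) / 2 ^ l - hfun c Q y|
          ≤ 1 * (1 / 2) ^ l := mul_le_mul h1 (hclose y) (abs_nonneg _) (by norm_num)
        _ = _ := one_mul _
  · intro k hk hkQ
    apply cf_eq_zero hmeas
    intro y
    have h1 : h (tr (single (2 * k)) y) = h y := by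
      simp only [hh, hfun]
      rw [riesz_congr (fun j hj => rad_tr_ne (by rintro h'; exact hkQ (by
        have : k = j := by omega
        rw [this]; exact hj)) y)]
    simp only [ha, Set.mem_ofPred_eq]
    rw [cyl_tr (single_lt hk), h1, rho_tr_single]

end Pool.Agent.Helper71.Nik
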