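import Pool.Agent.Helper71.Nik.Good

/-! Correcting a set inside a small cylinder. -/

namespace Pool.Agent.Helper71.Nik

open MeasureTheory Set
open BooleanSubalgebra (closure)

lemma exists_dec {X : Type} {𝒜 : BooleanSubalgebra (Set X)} (hc : (𝒜 : Set (Set X)).Countable)
    (P : Set X → Prop) (hP : ∀ W ∈ 𝒜, ∀ b ∈ 𝒜, P W → P (W ∩ b) ∨ P (W \ b)) {W : Set X} (hW : W ∈ 𝒜)
    (hPW : P W) : ∃ U, Dec 𝒜 U ∧ U 0 = W ∧ ∀ i, P (U i) := by
  have hne : (𝒜 : Set (Set X)).Nonempty := ⟨∅, empty_mem⟩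
  obtain ⟨e, he⟩ := hc.exists_eq_range hne
  have hmem : ∀ i, e i ∈ 𝒜 := fun i => by
    have : e i ∈ (𝒜 : Set (Set X)) := by rw [he]; exact ⟨i, rfl⟩
    exact this
  obtain ⟨U, hU0, hU⟩ := exists_seq (fun _ (W : Set X) => W ∈ 𝒜 ∧ P W)
    (fun i W W' => W' = W ∩ e i ∨ W' = W \ e i) W ⟨hW, hPW⟩ (by
      rintro i W ⟨hW, hPW⟩
      rcases hP W hW (e i) (hmem i) hPW with h | h
      · exact ⟨W ∩ e i, ⟨inter_mem hW (hmem i), h⟩, Or.inl rfl⟩
      · exact ⟨W \ e i, ⟨diff_mem hW (hmem i), h⟩, Or.inr rfl⟩)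
  refine ⟨U, ⟨fun i => (hU i).1.1, ?_, ?_⟩, hU0, fun i => (hU i).1.2⟩
  · apply antitone_nat_of_succ_le
    intro i
    rcases (hU i).2 with h | h
    · rw [h]; exact inter_subset_left
    · rw [h]; exact Set.sdiff_subset
  · intro b hb
    have : b ∈ (𝒜 : Set (Set X)) := hb
    rw [he] at this
    obtain ⟨i, rfl⟩ := this
    refine ⟨i + 1, ?_⟩
    rcases (hU i).2 with h | h
    · left; rw [h]; exact inter_subset_right
    · right; rw [h]; exact Set.disjoint_sdiff_left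

lemma halves (n D : ℕ) (y : Ct) : ∃ y0 y1 : Ct, Cyl n (D + 1) y0 ⊆ Cyl n D y ∧
    Cyl n (D + 1) y1 ⊆ Cyl n D y ∧ Disjoint (Cyl n (D + 1) y0) (Cyl n (D + 1) y1) := by
  refine ⟨Function.update y D false, Function.update y D true, ?_, ?_, ?_⟩
  · rintro x ⟨h1, h2⟩
    refine ⟨h1, fun i hi => ?_⟩
    rw [h2 i (by omega), Function.update_of_ne (by omega)]
  · rintro x ⟨h1, h2⟩
    refine ⟨h1, fun i hi => ?_⟩
    rw [h2 i (by omega), Function.update_of_ne (by omega)]
  · rw [Set.disjoint_left]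
    rintro x ⟨_, h2⟩ ⟨_, h3⟩
    have h4 := h2 D (by omega)
    have h5 := h3 D (by omega)
    rw [Function.update_self] at h4 h5
    rw [h4] at h5
    exact absurd h5 (by simp)

lemma Cyl_mono (n : ℕ) {D D' : ℕ} (h : D ≤ D') (y : Ct) : Cyl n D' y ⊆ Cyl n D y :=
  fun _ hx => ⟨hx.1, fun i hi => hx.2 i (by omega)⟩

lemma Cyl_nonempty (n D : ℕ) (y : Ct) : (Cyl n D y).Nonempty := ⟨(n, y), rfl, mem_cyl_self D y⟩

variable {𝒜 : BooleanSubalgebra (Set XX)}

lemma exists_pieces (hG : Good 𝒜) {U : ℕ → Set XX} (hU : Dec 𝒜 U) (hne : ∀ i, (U i).Nonempty) {n : ℕ}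
    (hn : U 0 ⊆ V n) (l D : ℕ) :
    ∃ l' D', l < l' ∧ D < D' ∧ ∃ y y', Cyl n D' y ⊆ U l \ U l' ∧ Cyl n D' y' ⊆ U l \ U l' ∧
      Disjoint (Cyl n D' y) (Cyl n D' y') := by
  obtain ⟨n₁, D₁, y₁, h₁⟩ := (hG.ok (U l) (hU.mem l)).2.1 (hne l)
  have hn₁ : n₁ = n := by
    have : (n₁, y₁) ∈ U l := h₁ ⟨rfl, mem_cyl_self _ _⟩
    exact hn (hU.anti (Nat.zero_le l) this)
  subst hn₁
  set E := max D₁ D with hE
  have h₂ : Cyl n₁ E y₁ ⊆ U l := (Cyl_mono n₁ (le_max_left _ _) y₁).trans h₁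
  obtain ⟨z0, z1, hz0, hz1, hz⟩ := halves n₁ E y₁
  obtain ⟨l', hl', hcase⟩ := hU.dec_ge (hG.base (cyl_mem_base n₁ (E + 1) z0)) (l + 1)
  have : ∃ z, Cyl n₁ (E + 1) z ⊆ U l \ U l' := by
    rcases hcase with h | h
    · refine ⟨z1, fun x hx => ⟨h₂ (hz1 hx), fun hx' => ?_⟩⟩
      exact Set.disjoint_left.1 hz (h hx') hx
    · refine ⟨z0, fun x hx => ⟨h₂ (hz0 hx), fun hx' => ?_⟩⟩
      exact Set.disjoint_left.1 h hx' hx
  obtain ⟨z, hzU⟩ := this
  obtain ⟨y, y', hy, hy', hd⟩ := halves n₁ (E + 1) z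
  refine ⟨l', E + 1 + 1, by omega, ?_, y, y', hy.trans hzU, hy'.trans hzU, hd⟩
  have := le_max_right D₁ D
  omega

lemma strictMono_of_eventually {P : ℕ → ℕ → Prop} (h : ∀ j, ∃ K, ∀ k ≥ K, P j k) :
    ∃ κ : ℕ → ℕ, StrictMono κ ∧ ∀ j, P j (κ j) := by
  choose K hK using h
  refine ⟨fun j => ∑ i ∈ Finset.range (j + 1), (K i + 1), ?_, ?_⟩
  · apply strictMono_nat_of_lt_succ
    intro j
    rw [Finset.sum_range_succ _ (j + 1)]
    omega
  · intro j
    apply hK
    have := Finset.single_le_sum (f := fun i => K i + 1) (fun i _ => Nat.zero_le _)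
      (Finset.self_mem_range_succ j)
    simp only at this ⊢
    omega

lemma summable_coeff {A : Set Ct} (hA : MeasurableSet A) : Summable (fun k => (cf k A) ^ 2) :=
  summable_of_sum_range_le (fun _ => sq_nonneg _) (bessel hA)

lemma tail_coeff {A : Set Ct} (hA : MeasurableSet A) {δ : ℝ} (hδ : 0 < δ) :
    ∃ K, ∀ k ≥ K, ∀ k', ∑ i ∈ Finset.Ico k k', (cf i A) ^ 2 ≤ δ := by
  have hs := (summable_coeff hA).hasSum.tendsto_sum_nat
  set S := ∑' k, (cf k A) ^ 2
  obtain ⟨K, hK⟩ := Filter.eventually_atTop.1 (hs.eventually (lt_mem_nhds (show S - δ < S by linarith)))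
  refine ⟨K, fun k hk k' => ?_⟩
  rcases le_or_gt k' k with h | h
  · rw [Finset.Ico_eq_empty_of_le h]; simpa using hδ.le
  · have h1 := hK k hk
    have h2 : ∑ i ∈ Finset.range k', (cf i A) ^ 2 ≤ S :=
      (summable_coeff hA).sum_le_tsum _ (fun i _ => sq_nonneg _)
    rw [Finset.sum_Ico_eq_sub _ h.le]
    linarith

theorem task_lemma (hG : Good 𝒜) (n : ℕ) {b : Set XX} (hb : b ∈ 𝒜) (hbV : b ⊆ V n) (D : ℕ) (y₀ : Ct) :
    ∃ a, Simple 𝒜 a ∧ Good (adj 𝒜 a) ∧
      ∃ c ∈ adj 𝒜 a, c ⊆ V n ∧ c \ Cyl n D y₀ = b \ Cyl n D y₀ ∧ NN n c := by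
  set s := Cyl n D y₀ with hs
  have hsA : s ∈ 𝒜 := hG.base (cyl_mem_base _ _ _)
  have hsV : s ⊆ V n := fun x hx => hx.1
  obtain ⟨U, hU, hU0, hUne⟩ := exists_dec hG.count (fun W => W.Nonempty) (by
    rintro W _ b _ ⟨x, hx⟩
    by_cases h : x ∈ b
    · exact Or.inl ⟨x, hx, h⟩
    · exact Or.inr ⟨x, hx, h⟩) hsA (Cyl_nonempty n D y₀)
  have hUV : U 0 ⊆ V n := by rw [hU0]; exact hsV
  -- pieces
  obtain ⟨x, hx0, hx⟩ := exists_seq (fun _ (_ : ℕ × ℕ) => True)
    (fun _ x x' => x.1 < x'.1 ∧ x.2 < x'.2 ∧ ∃ y y', Cyl n x'.2 y ⊆ U x.1 \ U x'.1 ∧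
      Cyl n x'.2 y' ⊆ U x.1 \ U x'.1 ∧ Disjoint (Cyl n x'.2 y) (Cyl n x'.2 y')) (0, 0) trivial (by
    rintro j ⟨l, D⟩ _
    obtain ⟨l', D', h1, h2, h3⟩ := exists_pieces hG hU hUne hUV l D
    exact ⟨(l', D'), trivial, h1, h2, h3⟩)
  set l : ℕ → ℕ := fun j => (x j).1 with hl
  set L : ℕ → ℕ := fun j => (x (j + 1)).2 with hLdef
  have hlm : StrictMono l := strictMono_nat_of_lt_succ (fun j => (hx j).2.1)
  have hLm : StrictMono L := strictMono_nat_of_lt_succ (fun j => (hx (j + 1)).2.2.1)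
  have hpc := fun j => (hx j).2.2.2
  choose y y' hy hy' hyd using hpc
  -- frequencies
  set b₀ := b \ s with hb₀
  have hb₀A : b₀ ∈ 𝒜 := diff_mem hb hsA
  have hmb₀ : MeasurableSet (sec n b₀) := (hG.ok _ hb₀A).1 n
  set t : ℕ → ℝ := fun k => cf k (sec n b₀) with ht
  obtain ⟨κ, hκm, hκ⟩ := strictMono_of_eventually
    (P := fun j k => L j ≤ 2 * k ∧ ∀ k', ∑ i ∈ Finset.Ico k k', (t i) ^ 2 ≤ ((1 / 2 : ℝ) ^ L j) ^ 2 / 16)
    (by
      intro j
      obtain ⟨K, hK⟩ := tail_coeff hmb₀ (show 0 < ((1 / 2 : ℝ) ^ L j) ^ 2 / 16 by positivity)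
      exact ⟨max K (L j), fun k hk => ⟨by have := (le_max_right K (L j)).trans hk; omega,
        hK k ((le_max_left _ _).trans hk)⟩⟩)
  have hreal : ∀ j, ∃ a : Set Ct, a ⊆ cyl (L j) (y j) ∧ FL (fun y => y ∈ a) ∧
      (∀ k ∈ Finset.Ico (κ j) (κ (j + 1)), |cf k a - (- t k)| ≤ 1 / ((κ (j + 1) : ℝ) + 1)) ∧
      (∀ k, L j ≤ 2 * k → k ∉ Finset.Ico (κ j) (κ (j + 1)) → cf k a = 0) := by
    intro j
    apply realize
    · intro k hk
      have := (Finset.mem_Ico.1 hk).1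
      have := (hκ j).1
      omega
    · have := (hκ j).2 (κ (j + 1))
      simpa using this
    · positivity
  choose A hAc hAF hAcf hA0 using hreal
  have hmA : ∀ j, MeasurableSet (A j) := fun j => fl_measurableSet (hAF j)
  set a : ℕ → Set XX := fun j => fib n (A j) with ha
  have haA : ∀ j, a j ∈ 𝒜 := fun j => hG.base (fib_mem_base n (hAF j))
  have haC : ∀ j, a j ⊆ Cyl n (L j) (y j) := fun j z hz => ⟨hz.1, hAc j hz.2⟩
  have haU : ∀ j, a j ⊆ U (l j) \ U (l (j + 1)) := fun j => (haC j).trans (hy j)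
  have hsplit : Split 𝒜 U (⋃ j, a j) := by
    refine split_of_pieces hU hlm haA haU (fun j => ⟨Cyl n (L j) (y' j),
      hG.base (cyl_mem_base _ _ _), Cyl_nonempty _ _ _, hy' j, ?_⟩)
    exact (hyd j).symm.mono_right (haC j)
  have haV : (⋃ j, a j) ⊆ V n := by
    intro z hz
    obtain ⟨j, hj⟩ := mem_iUnion.1 hz
    exact hj.1
  have hau : (⋃ j, a j) ⊆ s := by
    intro z hz
    obtain ⟨j, hj⟩ := mem_iUnion.1 hz
    rw [← hU0]
    exact hU.anti (Nat.zero_le _) (haU j hj).1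
  refine ⟨⋃ j, a j, hsplit.simple, good_adj hG hsplit ?_, b₀ ∪ ⋃ j, a j,
    union_mem (le_adj hb₀A) self_mem_adj, ?_, ?_, ?_⟩
  · intro b _
    refine ⟨n + 1, fun m hm => NN.of_sec_empty ?_⟩
    rw [Set.eq_empty_iff_forall_notMem]
    rintro z hz
    have : m = n := haV hz.1
    omega
  · exact union_subset (Set.sdiff_subset.trans hbV) haV
  · ext z
    simp only [mem_sdiff, mem_union, hb₀]
    constructor
    · rintro ⟨⟨h1, _⟩ | h1, h2⟩
      · exact ⟨h1, h2⟩
      · exact absurd (hau h1) h2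
    · rintro ⟨h1, h2⟩
      exact ⟨Or.inl ⟨h1, h2⟩, h2⟩
  · -- the growth condition
    have hd : Pairwise (Function.onFun Disjoint A) := by
      have h1 : ∀ i j, i < j → Disjoint (A i) (A j) := by
        intro i j hij
        have h2 : Disjoint (a i) (a j) :=
          (piece_disjoint_of_lt hU hlm haU hij).mono_right ((haU j).trans Set.sdiff_subset)
        have := sec_disjoint (n := n) h2
        simpa only [ha, sec_fib_self] using this
      intro i j hij
      rcases lt_or_gt_of_ne hij with h | h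
      · exact h1 i j h
      · exact (h1 j i h).symm
    have hsec : sec n (⋃ j, a j) = ⋃ j, A j := by
      ext z
      simp only [ha, sec, fib, mem_iUnion, Set.mem_ofPred_eq, true_and]
    have hmU : MeasurableSet (⋃ j, A j) := MeasurableSet.iUnion hmA
    have hco : ∀ k, co n k (b₀ ∪ ⋃ j, a j) = t k + cf k (⋃ j, A j) := by
      intro k
      rw [co_union (by rw [hsec]; exact hmU)]
      · rw [co, co, hsec]
      · refine Set.disjoint_left.2 (fun z h1 h2 => h1.2 (hau h2))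
    set g : ℕ → ℝ := fun j => (L j : ℝ) * (1 / 2) ^ L j with hg
    have hgs : Summable g := by
      have h1 : Summable (fun m : ℕ => (m : ℝ) ^ 1 * (1 / 2 : ℝ) ^ m) :=
        summable_pow_mul_geometric_of_norm_lt_one 1 (by norm_num)
      have := h1.comp_injective hLm.injective
      simpa [hg, Function.comp_def] using this
    have hg0 : ∀ j, 0 ≤ g j := fun j => by positivity
    set Sg := ∑' j, g j with hSg
    have hSg0 : 0 ≤ Sg := tsum_nonneg hg0
    refine ⟨max ((κ 0 : ℝ)) (1 + Sg), fun k => ?_⟩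
    rcases lt_or_ge k (κ 0) with hk | hk
    · refine le_trans ?_ (le_max_left _ _)
      have h1 : |co n k (b₀ ∪ ⋃ j, a j)| ≤ 1 :=
        (cf_abs_le _ k).trans measureReal_le_one
      calc (k : ℝ) * |co n k (b₀ ∪ ⋃ j, a j)| ≤ κ 0 * 1 := by
            apply mul_le_mul _ h1 (abs_nonneg _) (Nat.cast_nonneg _)
            exact_mod_cast hk.le
        _ = κ 0 := mul_one _
    · refine le_trans ?_ (le_max_right _ _)
      -- the block of `k`
      obtain ⟨J, hJ1, hJ2⟩ : ∃ J, κ J ≤ k ∧ k < κ (J + 1) := by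
        have hex : ∃ j, k < κ j := ⟨k + 1, lt_of_lt_of_le (Nat.lt_succ_self k) (hκm.id_le (k + 1))⟩
        have h1 := Nat.find_spec hex
        have h2 : Nat.find hex ≠ 0 := by
          intro h3
          rw [h3] at h1
          omega
        refine ⟨Nat.find hex - 1, ?_, ?_⟩
        · have := Nat.find_min hex (m := Nat.find hex - 1) (by omega)
          omega
        · have : Nat.find hex - 1 + 1 = Nat.find hex := by omega
          rw [this]; exact h1
      rw [hco]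
      have hsum := cf_hasSum hmA hd k
      have hsum2 : HasSum (fun j => (k : ℝ) * cf k (A j)) (k * cf k (⋃ j, A j)) := hsum.mul_left _
      have hsum3 := hsum2.sub (hasSum_ite_eq J ((k : ℝ) * cf k (A J)))
      have hbd : ∀ j, ‖(k : ℝ) * cf k (A j) - (if j = J then (k : ℝ) * cf k (A J) else 0)‖ ≤ g j := by
        intro j
        by_cases hj : j = J
        · subst hj; simpa using hg0 j
        · rw [if_neg hj, sub_zero, Real.norm_eq_abs, abs_mul, Nat.abs_cast]
          rcases le_or_gt (L j) (2 * k) with h1 | h1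
          · rw [hA0 j k h1, abs_zero, mul_zero]
            · exact hg0 j
            · rw [Finset.mem_Ico]
              rintro ⟨h2, h3⟩
              rcases lt_or_gt_of_ne hj with h4 | h4
              · have : κ (j + 1) ≤ κ J := hκm.monotone h4
                omega
              · have : κ (J + 1) ≤ κ j := hκm.monotone h4
                omega
          · have h2 : |cf k (A j)| ≤ (1 / 2) ^ L j := by
              refine (cf_abs_le _ k).trans ?_
              rw [← lam_real_cyl (L j) (y j)]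
              exact measureReal_mono (hAc j)
            apply mul_le_mul _ h2 (abs_nonneg _) (Nat.cast_nonneg _)
            exact_mod_cast (by omega : k ≤ L j)
      have h1 := hsum3.norm_le_of_bounded hgs.hasSum hbd
      have h2 : (k : ℝ) * |t k + cf k (A J)| ≤ 1 := by
        have h3 := hAcf J k (Finset.mem_Ico.2 ⟨hJ1, hJ2⟩)
        have h4 : cf k (A J) - (- t k) = t k + cf k (A J) := by ring
        rw [h4] at h3
        have h5 : (k : ℝ) ≤ (κ (J + 1) : ℝ) + 1 := by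
          have : k ≤ κ (J + 1) + 1 := by omega
          exact_mod_cast this
        calc (k : ℝ) * |t k + cf k (A J)|
            ≤ ((κ (J + 1) : ℝ) + 1) * (1 / ((κ (J + 1) : ℝ) + 1)) :=
              mul_le_mul h5 h3 (abs_nonneg _) (by positivity)
          _ = 1 := by field_simp
      have h3 : (k : ℝ) * |t k + cf k (⋃ j, A j)|
          = |(k : ℝ) * (t k + cf k (A J)) + (k * cf k (⋃ j, A j) - k * cf k (A J))| := by
        rw [← Nat.abs_cast (R := ℝ) k, ← abs_mul, Nat.abs_cast]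
        congr 1; ring
      rw [h3]
      refine (abs_add_le _ _).trans (add_le_add ?_ ?_)
      · rw [abs_mul, Nat.abs_cast]; exact h2
      · rw [Real.norm_eq_abs] at h1; exact h1

end Pool.Agent.Helper71.Nik
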